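import Mathlib

/-! Expectations of functions of two coordinates with respect to product weights. -/

set_option autoImplicit false

namespace Pool.Agent.Y863.TP

open Finset

/-- the expectation of a function of the coordinates `i ≠ j` with respect to a product of weights -/
theorem pair_marginal {T : ℕ} {α : Type} [DecidableEq α] (Ω : Fin T → Finset α) (w : Fin T → α → ℝ)
    (hw : ∀ k, ∑ x ∈ Ω k, w k x = 1) (i j : Fin T) (hij : i ≠ j) (X : α → α → ℝ) :
    ∑ ω ∈ Fintype.piFinset Ω, (∏ k, w k (ω k)) * X (ω i) (ω j) =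
      ∑ x ∈ Ω i, ∑ y ∈ Ω j, w i x * w j y * X x y := by
  classical
  -- for fixed values
  have key : ∀ x ∈ Ω i, ∀ y ∈ Ω j,
      ∑ ω ∈ Fintype.piFinset Ω, (if ω i = x ∧ ω j = y then ∏ k, w k (ω k) else 0) = w i x * w j y := by
    intro x hx y hy
    set f : Fin T → α → ℝ := fun k z =>
      if k = i then (if z = x then w k z else 0) else if k = j then (if z = y then w k z else 0)
        else w k z with hf
    have h1 := Finset.prod_univ_sum Ω f
    have h2 : ∀ ω : Fin T → α, ∏ k, f k (ω k) =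
        if ω i = x ∧ ω j = y then ∏ k, w k (ω k) else 0 := by
      intro ω
      by_cases h : ω i = x ∧ ω j = y
      · rw [if_pos h]
        refine Finset.prod_congr rfl fun k _ => ?_
        simp only [hf]
        by_cases hk : k = i
        · subst hk; simp [h.1]
        · by_cases hk' : k = j
          · subst hk'; simp [hk, h.2]
          · simp [hk, hk']
      · rw [if_neg h]
        rw [not_and_or] at h
        rcases h with h | h
        · refine Finset.prod_eq_zero (Finset.mem_univ i) ?_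
          simp [hf, h]
        · refine Finset.prod_eq_zero (Finset.mem_univ j) ?_
          simp [hf, h, hij.symm]
    have h3 : ∏ k, ∑ z ∈ Ω k, f k z = w i x * w j y := by
      have e : ∀ k, ∑ z ∈ Ω k, f k z = if k = i then w i x else if k = j then w j y else 1 := by
        intro k
        simp only [hf]
        by_cases hk : k = i
        · subst hk
          simp [hx]
        · by_cases hk' : k = j
          · subst hk'
            simp [hk, hy]
          · simp [hk, hk', hw k]
      rw [Finset.prod_congr rfl (fun k _ => e k)]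
      rw [← Finset.mul_prod_erase univ _ (Finset.mem_univ i), if_pos rfl]
      rw [← Finset.mul_prod_erase (univ.erase i) _ (Finset.mem_erase.2 ⟨hij.symm, Finset.mem_univ j⟩)]
      rw [if_neg hij.symm, if_pos rfl, Finset.prod_eq_one, mul_one]
      intro k hk
      rw [Finset.mem_erase, Finset.mem_erase] at hk
      rw [if_neg hk.2.1, if_neg hk.1]
    rw [← h3, h1]
    exact Finset.sum_congr rfl fun ω _ => (h2 ω).symm
  have h4 : ∀ ω ∈ Fintype.piFinset Ω, (∏ k, w k (ω k)) * X (ω i) (ω j) =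
      ∑ x ∈ Ω i, ∑ y ∈ Ω j, (if ω i = x ∧ ω j = y then ∏ k, w k (ω k) else 0) * X x y := by
    intro ω hω
    rw [Fintype.mem_piFinset] at hω
    rw [Finset.sum_eq_single (ω i)]
    · rw [Finset.sum_eq_single (ω j)]
      · simp
      · intro y _ hy
        rw [if_neg (fun h => hy h.2.symm), zero_mul]
      · intro h; exact absurd (hω j) h
    · intro x _ hx
      refine Finset.sum_eq_zero fun y _ => ?_
      rw [if_neg (fun h => hx h.1.symm), zero_mul]
    · intro h; exact absurd (hω i) h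
  rw [Finset.sum_congr rfl h4, Finset.sum_comm]
  refine Finset.sum_congr rfl fun x hx => ?_
  rw [Finset.sum_comm]
  refine Finset.sum_congr rfl fun y hy => ?_
  rw [← Finset.sum_mul, key x hx y hy]

/-- total mass -/
theorem total_mass {T : ℕ} {α : Type} [DecidableEq α] (Ω : Fin T → Finset α) (w : Fin T → α → ℝ)
    (hw : ∀ k, ∑ x ∈ Ω k, w k x = 1) : ∑ ω ∈ Fintype.piFinset Ω, ∏ k, w k (ω k) = 1 := by
  rw [← Finset.prod_univ_sum, Finset.prod_eq_one (fun k _ => hw k)]

/-- the averaging argument: a deterministic lower bound for the number of good pairs of every sample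
all of whose pairs are regular gives a good pair probability of that size -/
theorem averaging {T : ℕ} {α : Type} [DecidableEq α] (Ω : Fin T → Finset α) (w : Fin T → α → ℝ)
    (hw0 : ∀ k, ∀ x ∈ Ω k, 0 ≤ w k x) (hw : ∀ k, ∑ x ∈ Ω k, w k x = 1)
    (E G : Fin T → Fin T → α → α → Prop) [∀ i j x y, Decidable (E i j x y)]
    [∀ i j x y, Decidable (G i j x y)] (s p q : ℝ) (hs : 0 ≤ s)
    (hp : ∀ i j, i < j → ∑ x ∈ Ω i, ∑ y ∈ Ω j, w i x * w j y * (if E i j x y ∧ G i j x y then 1 else 0) ≤ p)
    (hq : ∀ i j, i < j → ∑ x ∈ Ω i, ∑ y ∈ Ω j, w i x * w j y * (if E i j x y then 0 else 1) ≤ q)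
    (hdet : ∀ ω ∈ Fintype.piFinset Ω, (∀ k, 0 < w k (ω k)) → (∀ i j, i < j → E i j (ω i) (ω j)) →
      s ≤ (((univ ×ˢ univ : Finset (Fin T × Fin T)).filter
        (fun x => x.1 < x.2 ∧ G x.1 x.2 (ω x.1) (ω x.2))).card : ℝ)) :
    s ≤ (((univ ×ˢ univ : Finset (Fin T × Fin T)).filter (fun x => x.1 < x.2)).card : ℝ) *
      (p + s * q) := by
  classical
  set P : Finset (Fin T × Fin T) := (univ ×ˢ univ).filter (fun x => x.1 < x.2) with hP
  have hmain : ∀ ω ∈ Fintype.piFinset Ω, (∏ k, w k (ω k)) * s ≤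
      ∑ x ∈ P, ((∏ k, w k (ω k)) * (if E x.1 x.2 (ω x.1) (ω x.2) ∧ G x.1 x.2 (ω x.1) (ω x.2) then 1 else 0)
        + s * ((∏ k, w k (ω k)) * (if E x.1 x.2 (ω x.1) (ω x.2) then 0 else 1))) := by
    intro ω hω
    have hω' := Fintype.mem_piFinset.1 hω
    have hwp : 0 ≤ ∏ k, w k (ω k) := Finset.prod_nonneg fun k _ => hw0 k _ (hω' k)
    rcases hwp.eq_or_lt with h0 | h0
    · rw [← h0]; simp
    have hpos : ∀ k, 0 < w k (ω k) := by
      intro k
      rcases (hw0 k _ (hω' k)).eq_or_lt with h1 | h1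
      · exfalso
        have : ∏ k, w k (ω k) = 0 := Finset.prod_eq_zero (Finset.mem_univ k) h1.symm
        rw [this] at h0
        exact lt_irrefl _ h0
      · exact h1
    have hfac : ∑ x ∈ P, ((∏ k, w k (ω k)) * (if E x.1 x.2 (ω x.1) (ω x.2) ∧ G x.1 x.2 (ω x.1) (ω x.2) then 1 else 0)
        + s * ((∏ k, w k (ω k)) * (if E x.1 x.2 (ω x.1) (ω x.2) then 0 else 1))) =
        (∏ k, w k (ω k)) * ∑ x ∈ P, ((if E x.1 x.2 (ω x.1) (ω x.2) ∧ G x.1 x.2 (ω x.1) (ω x.2) then (1 : ℝ) else 0)
          + s * (if E x.1 x.2 (ω x.1) (ω x.2) then 0 else 1)) := by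
      rw [Finset.mul_sum]
      refine Finset.sum_congr rfl fun x _ => ?_
      ring
    rw [hfac]
    refine mul_le_mul_of_nonneg_left ?_ hwp
    by_cases hE : ∀ i j, i < j → E i j (ω i) (ω j)
    · refine (hdet ω hω hpos hE).trans ?_
      have h1 : ((univ ×ˢ univ : Finset (Fin T × Fin T)).filter
          (fun x => x.1 < x.2 ∧ G x.1 x.2 (ω x.1) (ω x.2))) =
          P.filter (fun x => G x.1 x.2 (ω x.1) (ω x.2)) := by
        rw [hP, Finset.filter_filter]
      rw [h1, Finset.card_filter, Nat.cast_sum]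
      refine Finset.sum_le_sum fun x hx => ?_
      have hx' : x.1 < x.2 := (Finset.mem_filter.1 hx).2
      have hE' := hE x.1 x.2 hx'
      rw [if_pos hE', mul_zero, add_zero]
      by_cases hG : G x.1 x.2 (ω x.1) (ω x.2)
      · simp [hG, hE']
      · simp [hG]
    · push Not at hE
      obtain ⟨i, j, hij, hn⟩ := hE
      have hmem : (i, j) ∈ P := by
        rw [hP, Finset.mem_filter]
        exact ⟨Finset.mem_product.2 ⟨Finset.mem_univ _, Finset.mem_univ _⟩, hij⟩
      refine le_trans ?_ (Finset.single_le_sum (fun x _ => ?_) hmem)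
      · simp only [hn, false_and, if_false]
        linarith
      · have h1 : (0 : ℝ) ≤ if E x.1 x.2 (ω x.1) (ω x.2) ∧ G x.1 x.2 (ω x.1) (ω x.2) then 1 else 0 := by
          split_ifs <;> norm_num
        have h2 : (0 : ℝ) ≤ if E x.1 x.2 (ω x.1) (ω x.2) then 0 else 1 := by
          split_ifs <;> norm_num
        exact add_nonneg h1 (mul_nonneg hs h2)
  have hsum : s ≤ ∑ ω ∈ Fintype.piFinset Ω,
      ∑ x ∈ P, ((∏ k, w k (ω k)) * (if E x.1 x.2 (ω x.1) (ω x.2) ∧ G x.1 x.2 (ω x.1) (ω x.2) then 1 else 0)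
        + s * ((∏ k, w k (ω k)) * (if E x.1 x.2 (ω x.1) (ω x.2) then 0 else 1))) := by
    refine le_trans (le_of_eq ?_) (Finset.sum_le_sum hmain)
    rw [← Finset.sum_mul, total_mass Ω w hw, one_mul]
  refine hsum.trans ?_
  rw [Finset.sum_comm, ← nsmul_eq_mul, ← Finset.sum_const]
  refine Finset.sum_le_sum fun x hx => ?_
  have hx' : x.1 < x.2 := (Finset.mem_filter.1 hx).2
  rw [Finset.sum_add_distrib, ← Finset.mul_sum]
  rw [pair_marginal Ω w hw x.1 x.2 (ne_of_lt hx')
    (fun a b => if E x.1 x.2 a b ∧ G x.1 x.2 a b then 1 else 0)]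
  rw [pair_marginal Ω w hw x.1 x.2 (ne_of_lt hx') (fun a b => if E x.1 x.2 a b then 0 else 1)]
  exact add_le_add (hp _ _ hx') (mul_le_mul_of_nonneg_left (hq _ _ hx') hs)

end Pool.Agent.Y863.TP
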