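import Pool.Agent.Y863.TP.Six3

/-! Boxes of bad constants for the quotients of a chain of slopes: counting. -/

set_option autoImplicit false

namespace Pool.Agent.Y863.TP

open Finset Filter
open Pool.Agent.H732R3.BigQ
open Pool.Agent.TH899.UG
open Pool.Agent.H362R2.CM

/-- the constants `b`, `b'` of two forms with quotient of slopes `D` are good -/
def gd (D : ℕ) (b b' : ℤ) : Prop := GoodP (b' - (D : ℤ) * b) D

theorem gd_of_pairBig (P : ℕ) (hP : 0 < P) (E E' : ℕ) (hE : 0 < E) (hE' : 0 < E') (hdvd : E ∣ E')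
    (b b' : ℤ) (h : PairBig (((P * E : ℕ) : ℤ), b) (((P * E' : ℕ) : ℤ), b')) : gd (E' / E) b b' := by
  have h2 := good_of_pairBig (P * E) (P * E') b b' (Nat.mul_pos hP hE)
    (Nat.mul_dvd_mul_left P hdvd) h
  rw [Nat.mul_div_mul_left _ _ hP] at h2
  exact goodP_of _ _ (Nat.div_pos (Nat.le_of_dvd hE' hdvd) hE) h2

open Classical in
theorem gd_count (P : ℕ) (u u' b : ℤ) (hb : (P : ℤ) ∣ b - u) (D : ℕ) (c : ℤ) (A : ℕ) :
    ((Cl P u' c A).filter (fun b' => gd D b b')).card ≤ cnt P (u' - D * u) D c A + D * b.natAbs := by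
  refine le_trans ?_ ((cnt_shift P (u' - D * u) D c ((D : ℤ) * b) A).trans (le_of_eq ?_))
  · unfold cnt
    refine Finset.card_le_card_of_injOn (fun b' => b' - (D : ℤ) * b) ?_ ?_
    · intro b' hb'
      rw [Finset.mem_coe, Finset.mem_filter] at hb'
      have h1 := hb'.1
      unfold Cl at h1
      rw [Finset.mem_filter, Finset.mem_Ico] at h1
      rw [Finset.mem_coe, Finset.mem_filter, Finset.mem_Ico]
      refine ⟨⟨by linarith [h1.1.1], by linarith [h1.1.2]⟩, ?_, hb'.2⟩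
      have e : b' - (D : ℤ) * b - (u' - (D : ℤ) * u) = (b' - u') - (D : ℤ) * (b - u) := by ring
      rw [e]
      exact dvd_sub h1.2 (Dvd.dvd.mul_left hb _)
    · intro b' _ b'' _ h
      have h : b' - (D : ℤ) * b = b'' - (D : ℤ) * b := h
      linarith
  · rw [Int.natAbs_mul, Int.natAbs_natCast]

open Classical in
theorem gd_count_shift (P : ℕ) (u u' b b' : ℤ) (hb : (P : ℤ) ∣ b - u) (hb' : (P : ℤ) ∣ b' - u')
    (D : ℕ) (c : ℤ) (A : ℕ) :
    ((Cl P 0 c A).filter (fun t => gd D b (b' + t))).card ≤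
      cnt P (u' - D * u) D c A + (D * b.natAbs + b'.natAbs) := by
  refine le_trans ?_ ((cnt_shift P (u' - D * u) D c ((D : ℤ) * b - b') A).trans
    (Nat.add_le_add_left ?_ _))
  · unfold cnt
    refine Finset.card_le_card_of_injOn (fun t => b' + t - (D : ℤ) * b) ?_ ?_
    · intro t ht
      rw [Finset.mem_coe, Finset.mem_filter] at ht
      have h1 := ht.1
      unfold Cl at h1
      rw [Finset.mem_filter, Finset.mem_Ico] at h1
      rw [Finset.mem_coe, Finset.mem_filter, Finset.mem_Ico]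
      refine ⟨⟨by linarith [h1.1.1], by linarith [h1.1.2]⟩, ?_, ht.2⟩
      have e : b' + t - (D : ℤ) * b - (u' - (D : ℤ) * u) = (b' - u') - (D : ℤ) * (b - u) + (t - 0) := by
        ring
      rw [e]
      exact dvd_add (dvd_sub hb' (Dvd.dvd.mul_left hb _)) h1.2
    · intro t _ t' _ h
      have h : b' + t - (D : ℤ) * b = b' + t' - (D : ℤ) * b := h
      linarith
  · have h1 : ((D : ℤ) * b).natAbs = D * b.natAbs := by
      rw [Int.natAbs_mul, Int.natAbs_natCast]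
    rw [← h1]
    exact Int.natAbs_sub_le _ _

open Classical in
/-- the proportion of the pairs with the property `R` -/
noncomputable def pq (X Y : Finset ℤ) (R : ℤ → ℤ → Prop) : ℝ :=
  ∑ b ∈ X, ∑ b' ∈ Y, 1 / (X.card : ℝ) * (1 / (Y.card : ℝ)) * (if R b b' then 1 else 0)

theorem pq_zero (X Y : Finset ℤ) (R : ℤ → ℤ → Prop) (h : ∀ b ∈ X, ∀ b' ∈ Y, ¬ R b b') :
    pq X Y R = 0 := by
  classical
  unfold pq
  refine Finset.sum_eq_zero fun b hb => Finset.sum_eq_zero fun b' hb' => ?_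
  rw [if_neg (h b hb b' hb'), mul_zero]

/-- a set of forms -/
noncomputable def frm (P E : ℕ) (X : Finset ℤ) : Finset (ℤ × ℤ) :=
  X.image (fun b => (((P * E : ℕ) : ℤ), b))

theorem card_frm (P E : ℕ) (X : Finset ℤ) : (frm P E X).card = X.card :=
  Finset.card_image_of_injective _ (inj_form _)

/-- four sets of constants -/
theorem four_sets : ∃ C δ : ℝ, 0 < C ∧ 0 < δ ∧ ∀ (E : Fin 4 → ℕ) (_ : ∀ i, 0 < E i)
    (_ : ∀ i j, i ≤ j → E i ∣ E j) (P : ℕ) (_ : 0 < P) (_ : 6 ∣ P)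
    (_ : ∀ p : ℕ, p.Prime → ∀ i, p ∣ E i → p ∣ P) (u : Fin 4 → ℤ)
    (_ : ∀ i, Int.gcd (u i) P = 1) (N : ℕ) (_ : 1 ≤ N) (X : Fin 4 → Finset ℤ)
    (_ : ∀ i, ∀ b ∈ X i, (P : ℤ) ∣ b - u i) (_ : ∀ i, N ≤ (X i).card),
    1 - C * (N : ℝ) ^ (-δ) ≤ ∑ x ∈ PP, pq (X x.1) (X x.2) (gd (E x.2 / E x.1)) := by
  classical
  obtain ⟨C, δ, hC, hδ, H4⟩ := four_classes
  refine ⟨C, δ, hC, hδ, ?_⟩
  intro E hE hdvd P hP h6 hEP u hu N hN X hX hcard
  have h := H4 N hN (fun i => frm P (E i) (X i))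
    (by
      intro i f hf
      obtain ⟨b, _, rfl⟩ := Finset.mem_image.1 hf
      show (0 : ℤ) < ((P * E i : ℕ) : ℤ)
      exact_mod_cast Nat.mul_pos hP (hE i))
    (by intro i; rw [card_frm]; exact hcard i)
    (by
      intro f hf
      rw [Fintype.mem_piFinset] at hf
      refine adm_class E P h6 hEP u hu f (fun i => ?_)
      obtain ⟨b, hb, hb2⟩ := Finset.mem_image.1 (hf i)
      rw [← hb2]
      exact ⟨rfl, hX i b hb⟩)
  refine h.trans (Finset.sum_le_sum fun x hx => ?_)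
  have hlt : x.1 < x.2 := (Finset.mem_filter.1 hx).2
  unfold pq
  simp only [card_frm]
  unfold frm
  rw [Finset.sum_image (fun a _ b _ h => inj_form _ h)]
  refine Finset.sum_le_sum fun b _ => ?_
  rw [Finset.sum_image (fun a _ b _ h => inj_form _ h)]
  refine Finset.sum_le_sum fun b' _ => ?_
  refine mul_le_mul_of_nonneg_left ?_ (by positivity)
  by_cases hp : PairBig (((P * E x.1 : ℕ) : ℤ), b) (((P * E x.2 : ℕ) : ℤ), b')
  · rw [if_pos hp, if_pos (gd_of_pairBig P hP _ _ (hE _) (hE _) (hdvd _ _ hlt.le) b b' hp)]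
  · rw [if_neg hp]
    by_cases hg : gd (E x.2 / E x.1) b b'
    · rw [if_pos hg]; exact zero_le_one
    · rw [if_neg hg]

theorem sum_PP (f : Fin 4 → Fin 4 → ℝ) : ∑ x ∈ PP, f x.1 x.2 =
    f 0 1 + f 0 2 + f 0 3 + f 1 2 + f 1 3 + f 2 3 := by
  have h : PP = {(0, 1), (0, 2), (0, 3), (1, 2), (1, 3), (2, 3)} := by decide
  rw [h]
  rw [Finset.sum_insert (by decide), Finset.sum_insert (by decide), Finset.sum_insert (by decide),
    Finset.sum_insert (by decide), Finset.sum_insert (by decide), Finset.sum_singleton]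
  ring

theorem cnt_eq (P : ℕ) (hP : 0 < P) (v : ℤ) (D : ℕ) (c : ℤ) (A : ℕ) (hA : 0 < A) :
    (cnt P v D c A : ℝ) = rho P v D c A * ((A : ℝ) / P) := by
  have hA0 : (0 : ℝ) < A := by exact_mod_cast hA
  have hP0 : (0 : ℝ) < P := by exact_mod_cast hP
  unfold rho
  field_simp

/-- good pairs in a fixed set and a long window -/
theorem pq_window (P : ℕ) (hP : 0 < P) (D : ℕ) (u u' : ℤ) (X : Finset ℤ) (hX0 : X.Nonempty)
    (hX : ∀ b ∈ X, (P : ℤ) ∣ b - u) (η : ℝ) (hη : 0 < η) : ∃ L : ℕ, ∀ A : ℕ, L ≤ A → ∀ c : ℤ,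
      pq X (Cl P u' c A) (gd D) ≤ rho P (u' - D * u) D c A + η := by
  classical
  obtain ⟨H, hH⟩ : ∃ H : ℕ, ∀ b ∈ X, b.natAbs ≤ H := by
    refine ⟨∑ b ∈ X, b.natAbs, fun b hb => ?_⟩
    exact Finset.single_le_sum (f := fun b : ℤ => b.natAbs) (fun _ _ => Nat.zero_le _) hb
  have hP0 : (0 : ℝ) < P := by exact_mod_cast hP
  obtain ⟨L, hL⟩ : ∃ L : ℕ, (P : ℝ) * ((2 + D * H) / η + 1) ≤ L := exists_nat_ge _
  refine ⟨max L (P + 1), fun A hA c => ?_⟩
  have hA1 : P ≤ A := by omega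
  have hA2 : L ≤ A := by omega
  have hA0 : 0 < A := by omega
  have hX0' : (0 : ℝ) < X.card := by exact_mod_cast hX0.card_pos
  obtain ⟨V, hV⟩ : ∃ V : ℝ, V = ((Cl P u' c A).card : ℝ) := ⟨_, rfl⟩
  have hVl := (card_Cl P hP u' c A).1
  rw [← hV] at hVl
  have hAL : (P : ℝ) * ((2 + D * H) / η + 1) ≤ A := hL.trans (by exact_mod_cast hA2)
  have hVbig : (2 + D * H) / η ≤ V := by
    have h1 : (2 + D * H) / η + 1 ≤ (A : ℝ) / P := by
      rw [le_div_iff₀ hP0]; linarith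
    linarith
  have hVpos : 0 < V := lt_of_lt_of_le (by positivity) hVbig
  have hVη : 2 + (D : ℝ) * H ≤ η * V := by
    rw [div_le_iff₀ hη] at hVbig
    linarith
  have hR0 := rho_nonneg P (u' - D * u) D c A
  have hR2 := rho_le P hP (u' - D * u) D c A hA1
  obtain ⟨R, hR⟩ : ∃ R : ℝ, R = rho P (u' - D * u) D c A := ⟨_, rfl⟩
  have hone : ∀ b ∈ X, ∑ b' ∈ Cl P u' c A, 1 / (X.card : ℝ) * (1 / ((Cl P u' c A).card : ℝ)) *
      (if gd D b b' then (1 : ℝ) else 0) ≤ 1 / (X.card : ℝ) * (R + η) := by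
    intro b hb
    rw [← Finset.mul_sum, mul_assoc]
    refine mul_le_mul_of_nonneg_left ?_ (by positivity)
    rw [Finset.sum_boole, one_div, ← hV, inv_mul_le_iff₀ hVpos]
    have h1 := gd_count P u u' b (hX b hb) D c A
    have h2 : (((Cl P u' c A).filter (fun b' => gd D b b')).card : ℝ) ≤
        (cnt P (u' - D * u) D c A : ℝ) + (D : ℝ) * (b.natAbs : ℝ) := by exact_mod_cast h1
    refine h2.trans ?_
    rw [cnt_eq P hP _ D c A hA0, ← hR]
    have h3 : (b.natAbs : ℝ) ≤ H := by exact_mod_cast hH b hb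
    have h4 : (D : ℝ) * (b.natAbs : ℝ) ≤ D * H := mul_le_mul_of_nonneg_left h3 (Nat.cast_nonneg _)
    have h5 : (A : ℝ) / P ≤ V + 1 := by linarith
    have h6 : R * ((A : ℝ) / P) ≤ R * (V + 1) := mul_le_mul_of_nonneg_left h5 (by rw [hR]; exact hR0)
    have h7 : R ≤ 2 := by rw [hR]; exact hR2
    nlinarith
  unfold pq
  refine (Finset.sum_le_sum hone).trans ?_
  rw [Finset.sum_const, nsmul_eq_mul, ← mul_assoc, mul_one_div_cancel hX0'.ne', one_mul, hR]

/-- the translate of a set -/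
noncomputable def tr (Y : Finset ℤ) (t : ℤ) : Finset ℤ := Y.image (fun b => b + t)

theorem card_tr (Y : Finset ℤ) (t : ℤ) : (tr Y t).card = Y.card :=
  Finset.card_image_of_injective _ (add_left_injective t)

theorem pq_tr (X Y : Finset ℤ) (t : ℤ) (R : ℤ → ℤ → Prop) :
    pq X (tr Y t) R = pq X Y (fun b b' => R b (b' + t)) := by
  classical
  unfold pq
  rw [card_tr]
  refine Finset.sum_congr rfl fun b _ => ?_
  unfold tr
  rw [Finset.sum_image (fun a _ b _ h => add_left_injective t h)]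

/-- good pairs of two fixed sets, the second translated, on average over the translations -/
theorem pq_shift (P : ℕ) (hP : 0 < P) (D : ℕ) (u u' : ℤ) (X Y : Finset ℤ) (hX0 : X.Nonempty)
    (hY0 : Y.Nonempty) (hX : ∀ b ∈ X, (P : ℤ) ∣ b - u) (hY : ∀ b ∈ Y, (P : ℤ) ∣ b - u')
    (η : ℝ) (hη : 0 < η) : ∃ L : ℕ, ∀ A : ℕ, L ≤ A → ∀ c : ℤ,
      ∑ t ∈ Cl P 0 c A, pq X (tr Y t) (gd D) ≤
        ((Cl P 0 c A).card : ℝ) * (rho P (u' - D * u) D c A + η) := by
  classical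
  obtain ⟨H, hH⟩ : ∃ H : ℕ, ∀ b ∈ X, ∀ b' ∈ Y, D * b.natAbs + b'.natAbs ≤ H := by
    refine ⟨∑ b ∈ X, D * b.natAbs + ∑ b ∈ Y, b.natAbs, fun b hb b' hb' => ?_⟩
    exact Nat.add_le_add
      (Finset.single_le_sum (f := fun b : ℤ => D * b.natAbs) (fun _ _ => Nat.zero_le _) hb)
      (Finset.single_le_sum (f := fun b : ℤ => b.natAbs) (fun _ _ => Nat.zero_le _) hb')
  have hP0 : (0 : ℝ) < P := by exact_mod_cast hP
  obtain ⟨L, hL⟩ : ∃ L : ℕ, (P : ℝ) * ((2 + H) / η + 1) ≤ L := exists_nat_ge _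
  refine ⟨max L (P + 1), fun A hA c => ?_⟩
  have hA1 : P ≤ A := by omega
  have hA2 : L ≤ A := by omega
  have hA0 : 0 < A := by omega
  have hX0' : (0 : ℝ) < X.card := by exact_mod_cast hX0.card_pos
  have hY0' : (0 : ℝ) < Y.card := by exact_mod_cast hY0.card_pos
  obtain ⟨V, hV⟩ : ∃ V : ℝ, V = ((Cl P 0 c A).card : ℝ) := ⟨_, rfl⟩
  have hVl := (card_Cl P hP 0 c A).1
  rw [← hV] at hVl
  have hAL : (P : ℝ) * ((2 + H) / η + 1) ≤ A := hL.trans (by exact_mod_cast hA2)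
  have hVbig : (2 + H) / η ≤ V := by
    have h1 : (2 + H) / η + 1 ≤ (A : ℝ) / P := by
      rw [le_div_iff₀ hP0]; linarith
    linarith
  have hVη : 2 + (H : ℝ) ≤ η * V := by
    rw [div_le_iff₀ hη] at hVbig
    linarith
  have hR0 := rho_nonneg P (u' - D * u) D c A
  have hR2 := rho_le P hP (u' - D * u) D c A hA1
  obtain ⟨R, hR⟩ : ∃ R : ℝ, R = rho P (u' - D * u) D c A := ⟨_, rfl⟩
  have h1 : ∀ t ∈ Cl P 0 c A, pq X (tr Y t) (gd D) = ∑ b ∈ X, ∑ b' ∈ Y,
      1 / (X.card : ℝ) * (1 / (Y.card : ℝ)) * (if gd D b (b' + t) then 1 else 0) := by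
    intro t _
    rw [pq_tr]
    rfl
  rw [Finset.sum_congr rfl h1, Finset.sum_comm]
  have h2 : ∀ b ∈ X, ∑ t ∈ Cl P 0 c A, ∑ b' ∈ Y, 1 / (X.card : ℝ) * (1 / (Y.card : ℝ)) *
      (if gd D b (b' + t) then (1 : ℝ) else 0) ≤
      ∑ b' ∈ Y, 1 / (X.card : ℝ) * (1 / (Y.card : ℝ)) * (V * (R + η)) := by
    intro b hb
    rw [Finset.sum_comm]
    refine Finset.sum_le_sum fun b' hb' => ?_
    rw [← Finset.mul_sum]
    refine mul_le_mul_of_nonneg_left ?_ (by positivity)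
    rw [Finset.sum_boole]
    have h3 := gd_count_shift P u u' b b' (hX b hb) (hY b' hb') D c A
    have h4 := h3.trans (Nat.add_le_add_left (hH b hb b' hb') _)
    have h5 : (((Cl P 0 c A).filter (fun t => gd D b (b' + t))).card : ℝ) ≤
        (cnt P (u' - D * u) D c A : ℝ) + (H : ℝ) := by exact_mod_cast h4
    refine h5.trans ?_
    rw [cnt_eq P hP _ D c A hA0, ← hR]
    have h6 : (A : ℝ) / P ≤ V + 1 := by linarith
    have h7 : R * ((A : ℝ) / P) ≤ R * (V + 1) := mul_le_mul_of_nonneg_left h6 (by rw [hR]; exact hR0)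
    have h8 : R ≤ 2 := by rw [hR]; exact hR2
    nlinarith
  refine (Finset.sum_le_sum h2).trans ?_
  rw [Finset.sum_const, Finset.sum_const, nsmul_eq_mul, nsmul_eq_mul, ← hV, hR]
  refine le_of_eq ?_
  field_simp

end Pool.Agent.Y863.TP
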