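import Pool.Agent.Y863.TP.Box1
import Pool.Agent.TH880.GPe

/-! Boxes of bad constants for the quotients of a chain of slopes: extension of the boxes. -/

set_option autoImplicit false

namespace Pool.Agent.Y863.TP

open Finset Filter
open Pool.Agent.H732R3.BigQ
open Pool.Agent.TH899.UG
open Pool.Agent.H362R2.CM

/-- two sets of `K` constants without good pairs -/
def Bx2 (P : ℕ) (u v : ℤ) (D K : ℕ) : Prop :=
  ∃ X Y : Finset ℤ, K ≤ X.card ∧ K ≤ Y.card ∧ (∀ b ∈ X, (P : ℤ) ∣ b - u) ∧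
    (∀ b ∈ Y, (P : ℤ) ∣ b - v) ∧ ∀ b ∈ X, ∀ b' ∈ Y, ¬ gd D b b'

/-- three sets of `K` constants without good pairs -/
def Bx3 (P : ℕ) (u v w : ℤ) (D D' D'' K : ℕ) : Prop :=
  ∃ X Y Z : Finset ℤ, K ≤ X.card ∧ K ≤ Y.card ∧ K ≤ Z.card ∧ (∀ b ∈ X, (P : ℤ) ∣ b - u) ∧
    (∀ b ∈ Y, (P : ℤ) ∣ b - v) ∧ (∀ b ∈ Z, (P : ℤ) ∣ b - w) ∧ (∀ b ∈ X, ∀ b' ∈ Y, ¬ gd D b b') ∧
    (∀ b ∈ X, ∀ b' ∈ Z, ¬ gd D' b b') ∧ ∀ b ∈ Y, ∀ b' ∈ Z, ¬ gd D'' b b'

theorem large_Cl (P : ℕ) (hP : 0 < P) (M : ℝ) : ∃ L : ℕ, ∀ A : ℕ, L ≤ A → ∀ (v c : ℤ),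
    M ≤ ((Cl P v c A).card : ℝ) := by
  have hP0 : (0 : ℝ) < P := by exact_mod_cast hP
  obtain ⟨L, hL⟩ : ∃ L : ℕ, (P : ℝ) * (M + 1) ≤ L := exists_nat_ge _
  refine ⟨L, fun A hA v c => ?_⟩
  have h1 := (card_Cl P hP v c A).1
  have h2 : (P : ℝ) * (M + 1) ≤ A := hL.trans (by exact_mod_cast hA)
  have h3 : M + 1 ≤ (A : ℝ) / P := by
    rw [le_div_iff₀ hP0]; linarith
  linarith

theorem mem_Cl (P : ℕ) (v c : ℤ) (A : ℕ) (b : ℤ) (hb : b ∈ Cl P v c A) : (P : ℤ) ∣ b - v := by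
  unfold Cl at hb
  exact (Finset.mem_filter.1 hb).2

open Classical in
theorem pq_eq (X Y : Finset ℤ) (R : ℤ → ℤ → Prop) :
    pq X Y R = 1 / (Y.card : ℝ) * ∑ z ∈ Y, ((X.filter (fun b => R b z)).card : ℝ) / X.card := by
  unfold pq
  rw [Finset.sum_comm, Finset.mul_sum]
  refine Finset.sum_congr rfl fun z _ => ?_
  rw [← Finset.mul_sum, Finset.sum_boole]
  ring

theorem ext2 (P : ℕ) (hP : 0 < P) (u v w : ℤ) (D D' D'' : ℕ) (h : ∀ K, Bx2 P u v D K) (ε : ℝ)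
    (hε : 0 < ε) (hbad : ∀ L : ℕ, ∃ A : ℕ, L ≤ A ∧ ∃ c : ℤ,
      rho P (w - D' * u) D' c A + rho P (w - D'' * v) D'' c A < 1 - ε) :
    ∀ K, Bx3 P u v w D D' D'' K := by
  classical
  intro K
  obtain ⟨e, he⟩ : ∃ e : ℝ, e = min ε 1 / 4 := ⟨_, rfl⟩
  have he0 : 0 < e := by rw [he]; have := lt_min hε one_pos; linarith
  have he1 : e ≤ 1 / 4 := by rw [he]; have := min_le_right ε 1; linarith
  have heε : 4 * e ≤ ε := by rw [he]; have := min_le_left ε 1; linarith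
  obtain ⟨K1, hK1⟩ : ∃ K1 : ℕ, ((K : ℝ) + 1) / e ≤ K1 := exists_nat_ge _
  have hK1' : (K : ℝ) + 1 ≤ e * K1 := by
    rw [div_le_iff₀ he0] at hK1; linarith
  have hK10 : (0 : ℝ) < K1 := by
    have : (0 : ℝ) < (K : ℝ) + 1 := by positivity
    by_contra hcon
    push Not at hcon
    have := mul_nonpos_of_nonneg_of_nonpos he0.le hcon
    linarith
  obtain ⟨X, Y, hXc, hYc, hX, hY, hXY⟩ := h K1
  have hXr : (K1 : ℝ) ≤ X.card := by exact_mod_cast hXc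
  have hYr : (K1 : ℝ) ≤ Y.card := by exact_mod_cast hYc
  have hX0 : (0 : ℝ) < X.card := by linarith
  have hY0 : (0 : ℝ) < Y.card := by linarith
  have hXn : X.Nonempty := Finset.card_pos.1 (by exact_mod_cast hX0)
  have hYn : Y.Nonempty := Finset.card_pos.1 (by exact_mod_cast hY0)
  obtain ⟨L1, hL1⟩ := pq_window P hP D' u w X hXn hX e he0
  obtain ⟨L2, hL2⟩ := pq_window P hP D'' v w Y hYn hY e he0
  obtain ⟨L3, hL3⟩ := large_Cl P hP
    (((((X.powerset ×ˢ Y.powerset).card * K : ℕ) : ℝ) + 1) / e)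
  obtain ⟨A, hA, c, hc⟩ := hbad (L1 + L2 + L3)
  have h1 := hL1 A (by omega) c
  have h2 := hL2 A (by omega) c
  have h3 := hL3 A (by omega) w c
  obtain ⟨T, hT⟩ : ∃ T : Finset ℤ, T = Cl P w c A := ⟨_, rfl⟩
  rw [← hT] at h1 h2 h3
  have hT0 : (0 : ℝ) < T.card := lt_of_lt_of_le (by positivity) h3
  have hTbig : (((X.powerset ×ˢ Y.powerset).card * K : ℕ) : ℝ) + 1 ≤ e * T.card := by
    rw [div_le_iff₀ he0] at h3; linarith
  obtain ⟨g, hg⟩ : ∃ g : ℤ → ℝ, ∀ z, g z = ((X.filter (fun b => gd D' b z)).card : ℝ) / X.card +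
      ((Y.filter (fun b => gd D'' b z)).card : ℝ) / Y.card := ⟨_, fun _ => rfl⟩
  have hgsum : ∑ z ∈ T, g z ≤ (T.card : ℝ) * (1 - 2 * e) := by
    have h4 : pq X T (gd D') + pq Y T (gd D'') = 1 / (T.card : ℝ) * ∑ z ∈ T, g z := by
      rw [pq_eq, pq_eq, ← mul_add, ← Finset.sum_add_distrib]
      congr 1
      exact Finset.sum_congr rfl fun z _ => (hg z).symm
    have h5 : 1 / (T.card : ℝ) * ∑ z ∈ T, g z ≤ 1 - 2 * e := by
      rw [← h4]; linarith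
    rw [one_div, inv_mul_le_iff₀ hT0] at h5
    exact h5
  have hg0 : ∀ z, 0 ≤ g z := by
    intro z; rw [hg]; positivity
  obtain ⟨S, hS⟩ : ∃ S : Finset ℤ, S = T.filter (fun z => g z ≤ 1 - e) := ⟨_, rfl⟩
  have hScard : e * T.card ≤ S.card := by
    have h4 : ∑ z ∈ T.filter (fun z => ¬ g z ≤ 1 - e), (1 - e) ≤ ∑ z ∈ T, g z := by
      refine le_trans (Finset.sum_le_sum (g := g) fun z hz => ?_)
        (Finset.sum_le_sum_of_subset_of_nonneg (Finset.filter_subset _ _) fun z _ _ => hg0 z)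
      have := (Finset.mem_filter.1 hz).2
      push Not at this
      exact this.le
    rw [Finset.sum_const, nsmul_eq_mul] at h4
    have h5 := Finset.card_filter_add_card_filter_not (s := T) (fun z => g z ≤ 1 - e)
    rw [← hS] at h5
    have h6 : ((S.card : ℝ)) + ((T.filter (fun z => ¬ g z ≤ 1 - e)).card : ℝ) = T.card := by
      exact_mod_cast h5
    have h7 : ((T.card : ℝ) - S.card) * (1 - e) ≤ (T.card : ℝ) * (1 - 2 * e) := by
      rw [← h6]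
      have e1 : ((S.card : ℝ) + ((T.filter (fun z => ¬ g z ≤ 1 - e)).card : ℝ) - S.card) =
        ((T.filter (fun z => ¬ g z ≤ 1 - e)).card : ℝ) := by ring
      rw [e1, h6]
      exact h4.trans hgsum
    have h8 : (0 : ℝ) ≤ S.card := Nat.cast_nonneg _
    nlinarith
  -- pigeonhole
  obtain ⟨f, hf⟩ : ∃ f : ℤ → Finset ℤ × Finset ℤ, ∀ z, f z =
      (X.filter (fun b => ¬ gd D' b z), Y.filter (fun b => ¬ gd D'' b z)) := ⟨_, fun _ => rfl⟩
  have hmaps : ∀ z ∈ S, f z ∈ X.powerset ×ˢ Y.powerset := by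
    intro z _
    rw [hf, Finset.mem_product, Finset.mem_powerset, Finset.mem_powerset]
    exact ⟨Finset.filter_subset _ _, Finset.filter_subset _ _⟩
  have hlt : (X.powerset ×ˢ Y.powerset).card * K < S.card := by
    have h4 : (((X.powerset ×ˢ Y.powerset).card * K : ℕ) : ℝ) < (S.card : ℝ) := by linarith
    exact_mod_cast h4
  obtain ⟨y, _, hy⟩ := Finset.exists_lt_card_fiber_of_mul_lt_card_of_maps_to hmaps hlt
  obtain ⟨z0, hz0⟩ : ({z ∈ S | f z = y}).Nonempty := Finset.card_pos.1 (by omega)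
  have hz0' := Finset.mem_filter.1 hz0
  have hz0S : g z0 ≤ 1 - e := by
    have := hz0'.1
    rw [hS] at this
    exact (Finset.mem_filter.1 this).2
  have hsize : ∀ (Z : Finset ℤ) (R : ℤ → Prop), (K1 : ℝ) ≤ Z.card →
      ((Z.filter R).card : ℝ) / Z.card ≤ 1 - e → K ≤ (Z.filter (fun b => ¬ R b)).card := by
    intro Z R hZ hR
    have hZ0 : (0 : ℝ) < Z.card := by linarith
    have h5 := Finset.card_filter_add_card_filter_not (s := Z) R
    have h6 : ((Z.filter R).card : ℝ) + ((Z.filter (fun b => ¬ R b)).card : ℝ) = Z.card := by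
      exact_mod_cast h5
    rw [div_le_iff₀ hZ0] at hR
    have h7 : (K : ℝ) ≤ ((Z.filter (fun b => ¬ R b)).card : ℝ) := by
      have : e * K1 ≤ e * Z.card := mul_le_mul_of_nonneg_left hZ he0.le
      nlinarith
    exact_mod_cast h7
  have hgx : ((X.filter (fun b => gd D' b z0)).card : ℝ) / X.card ≤ 1 - e := by
    have : 0 ≤ ((Y.filter (fun b => gd D'' b z0)).card : ℝ) / Y.card := by positivity
    rw [hg] at hz0S; linarith
  have hgy : ((Y.filter (fun b => gd D'' b z0)).card : ℝ) / Y.card ≤ 1 - e := by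
    have : 0 ≤ ((X.filter (fun b => gd D' b z0)).card : ℝ) / X.card := by positivity
    rw [hg] at hz0S; linarith
  have hKx := hsize X (fun b => gd D' b z0) hXr hgx
  have hKy := hsize Y (fun b => gd D'' b z0) hYr hgy
  have hy1 : y.1 = X.filter (fun b => ¬ gd D' b z0) := by rw [← hz0'.2, hf]
  have hy2 : y.2 = Y.filter (fun b => ¬ gd D'' b z0) := by rw [← hz0'.2, hf]
  refine ⟨y.1, y.2, {z ∈ S | f z = y}, ?_, ?_, hy.le, ?_, ?_, ?_, ?_, ?_, ?_⟩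
  · rw [hy1]; exact hKx
  · rw [hy2]; exact hKy
  · intro b hb
    rw [hy1] at hb
    exact hX b (Finset.mem_filter.1 hb).1
  · intro b hb
    rw [hy2] at hb
    exact hY b (Finset.mem_filter.1 hb).1
  · intro b hb
    have h4 := (Finset.mem_filter.1 hb).1
    rw [hS, hT] at h4
    exact mem_Cl _ _ _ _ _ (Finset.mem_filter.1 h4).1
  · intro b hb b' hb'
    rw [hy1] at hb
    rw [hy2] at hb'
    exact hXY b (Finset.mem_filter.1 hb).1 b' (Finset.mem_filter.1 hb').1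
  · intro b hb z hz
    have h4 := (Finset.mem_filter.1 hz).2
    rw [← h4, hf] at hb
    exact (Finset.mem_filter.1 hb).2
  · intro b hb z hz
    have h4 := (Finset.mem_filter.1 hz).2
    rw [← h4, hf] at hb
    exact (Finset.mem_filter.1 hb).2

theorem ext3 (E : Fin 4 → ℕ) (hE : ∀ i, 0 < E i) (hdvd : ∀ i j, i ≤ j → E i ∣ E j) (P : ℕ)
    (hP : 0 < P) (h6 : 6 ∣ P) (hEP : ∀ p : ℕ, p.Prime → ∀ i, p ∣ E i → p ∣ P) (u : Fin 4 → ℤ)
    (hu : ∀ i, Int.gcd (u i) P = 1)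
    (h : ∀ K, Bx3 P (u 0) (u 1) (u 2) (E 1 / E 0) (E 2 / E 0) (E 2 / E 1) K) (ε : ℝ) (hε : 0 < ε) :
    ∃ L : ℕ, ∀ A : ℕ, L ≤ A → ∀ c : ℤ, 1 - ε ≤
      rho P (u 3 - (E 3 / E 0 : ℕ) * u 0) (E 3 / E 0) c A +
      rho P (u 3 - (E 3 / E 1 : ℕ) * u 1) (E 3 / E 1) c A +
      rho P (u 3 - (E 3 / E 2 : ℕ) * u 2) (E 3 / E 2) c A := by
  classical
  obtain ⟨C, δ, hC, hδ, H4⟩ := four_sets
  obtain ⟨N, hN1, hN⟩ := small_pow C δ (ε / 2) hδ (by linarith)
  obtain ⟨X, Y, Z, hXc, hYc, hZc, hX, hY, hZ, h01, h02, h12⟩ := h N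
  have hXn : X.Nonempty := Finset.card_pos.1 (by omega)
  have hYn : Y.Nonempty := Finset.card_pos.1 (by omega)
  have hZn : Z.Nonempty := Finset.card_pos.1 (by omega)
  obtain ⟨L0, hL0⟩ := pq_window P hP (E 3 / E 0) (u 0) (u 3) X hXn hX (ε / 6) (by linarith)
  obtain ⟨L1, hL1⟩ := pq_window P hP (E 3 / E 1) (u 1) (u 3) Y hYn hY (ε / 6) (by linarith)
  obtain ⟨L2, hL2⟩ := pq_window P hP (E 3 / E 2) (u 2) (u 3) Z hZn hZ (ε / 6) (by linarith)
  obtain ⟨L3, hL3⟩ := large_Cl P hP (N : ℝ)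
  refine ⟨L0 + L1 + L2 + L3, fun A hA c => ?_⟩
  have h0 := hL0 A (by omega) c
  have h1 := hL1 A (by omega) c
  have h2 := hL2 A (by omega) c
  have h3 : N ≤ (Cl P (u 3) c A).card := by exact_mod_cast hL3 A (by omega) (u 3) c
  have hmain := H4 E hE hdvd P hP h6 hEP u hu N hN1 ![X, Y, Z, Cl P (u 3) c A]
    (by
      intro i
      fin_cases i
      · exact hX
      · exact hY
      · exact hZ
      · exact fun b hb => mem_Cl _ _ _ _ _ hb)
    (by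
      intro i
      fin_cases i
      · exact hXc
      · exact hYc
      · exact hZc
      · exact h3)
  rw [sum_PP (fun i j => pq ((![X, Y, Z, Cl P (u 3) c A] : Fin 4 → Finset ℤ) i)
    ((![X, Y, Z, Cl P (u 3) c A] : Fin 4 → Finset ℤ) j) (gd (E j / E i)))] at hmain
  have e01 : pq X Y (gd (E 1 / E 0)) = 0 := pq_zero _ _ _ h01
  have e02 : pq X Z (gd (E 2 / E 0)) = 0 := pq_zero _ _ _ h02
  have e12 : pq Y Z (gd (E 2 / E 1)) = 0 := pq_zero _ _ _ h12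
  have hmain' : 1 - C * (N : ℝ) ^ (-δ) ≤ pq X Y (gd (E 1 / E 0)) + pq X Z (gd (E 2 / E 0)) +
      pq X (Cl P (u 3) c A) (gd (E 3 / E 0)) + pq Y Z (gd (E 2 / E 1)) +
      pq Y (Cl P (u 3) c A) (gd (E 3 / E 1)) + pq Z (Cl P (u 3) c A) (gd (E 3 / E 2)) := hmain
  rw [e01, e02, e12] at hmain'
  linarith

theorem ext22 (E : Fin 4 → ℕ) (hE : ∀ i, 0 < E i) (hdvd : ∀ i j, i ≤ j → E i ∣ E j) (P : ℕ)
    (hP : 0 < P) (h6 : 6 ∣ P) (hEP : ∀ p : ℕ, p.Prime → ∀ i, p ∣ E i → p ∣ P) (u : Fin 4 → ℤ)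
    (hu : ∀ i, Int.gcd (u i) P = 1) (h23 : E 2 = E 3)
    (h : ∀ K, Bx2 P (u 0) (u 1) (E 1 / E 0) K) (h' : ∀ K, Bx2 P (u 2) (u 3) (E 3 / E 2) K)
    (ε : ℝ) (hε : 0 < ε) :
    ∃ L : ℕ, ∀ A : ℕ, L ≤ A → ∀ c : ℤ, 1 - ε ≤
      rho P (u 2 - (E 2 / E 0 : ℕ) * u 0) (E 2 / E 0) c A +
      rho P (u 3 - (E 3 / E 0 : ℕ) * u 0) (E 3 / E 0) c A +
      rho P (u 2 - (E 2 / E 1 : ℕ) * u 1) (E 2 / E 1) c A +
      rho P (u 3 - (E 3 / E 1 : ℕ) * u 1) (E 3 / E 1) c A := by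
  classical
  have hone : E 3 / E 2 = 1 := by rw [h23]; exact Nat.div_self (hE 3)
  obtain ⟨C, δ, hC, hδ, H4⟩ := four_sets
  obtain ⟨N, hN1, hN⟩ := small_pow C δ (ε / 2) hδ (by linarith)
  obtain ⟨X, Y, hXc, hYc, hX, hY, h01⟩ := h N
  obtain ⟨Z, W, hZc, hWc, hZ, hW, h2'⟩ := h' N
  have hXn : X.Nonempty := Finset.card_pos.1 (by omega)
  have hYn : Y.Nonempty := Finset.card_pos.1 (by omega)
  have hZn : Z.Nonempty := Finset.card_pos.1 (by omega)
  have hWn : W.Nonempty := Finset.card_pos.1 (by omega)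
  obtain ⟨L0, hL0⟩ := pq_shift P hP (E 2 / E 0) (u 0) (u 2) X Z hXn hZn hX hZ (ε / 8) (by linarith)
  obtain ⟨L1, hL1⟩ := pq_shift P hP (E 3 / E 0) (u 0) (u 3) X W hXn hWn hX hW (ε / 8) (by linarith)
  obtain ⟨L2, hL2⟩ := pq_shift P hP (E 2 / E 1) (u 1) (u 2) Y Z hYn hZn hY hZ (ε / 8) (by linarith)
  obtain ⟨L3, hL3⟩ := pq_shift P hP (E 3 / E 1) (u 1) (u 3) Y W hYn hWn hY hW (ε / 8) (by linarith)
  obtain ⟨L4, hL4⟩ := large_Cl P hP 1
  refine ⟨L0 + L1 + L2 + L3 + L4, fun A hA c => ?_⟩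
  have h0 := hL0 A (by omega) c
  have h1 := hL1 A (by omega) c
  have h2 := hL2 A (by omega) c
  have h3 := hL3 A (by omega) c
  have h4 := hL4 A (by omega) 0 c
  have hT0 : (0 : ℝ) < ((Cl P 0 c A).card : ℝ) := by linarith
  have hclass : ∀ (V : Finset ℤ) (x t : ℤ), (∀ b ∈ V, (P : ℤ) ∣ b - x) → t ∈ Cl P 0 c A →
      ∀ b ∈ tr V t, (P : ℤ) ∣ b - x := by
    intro V x t hV ht b hb
    unfold tr at hb
    obtain ⟨b0, hb0, rfl⟩ := Finset.mem_image.1 hb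
    have h5 := mem_Cl _ _ _ _ _ ht
    have e : b0 + t - x = (b0 - x) + (t - 0) := by ring
    show (P : ℤ) ∣ b0 + t - x
    rw [e]
    exact dvd_add (hV b0 hb0) h5
  have key : ∀ t ∈ Cl P 0 c A, 1 - C * (N : ℝ) ^ (-δ) ≤ pq X (tr Z t) (gd (E 2 / E 0)) +
      pq X (tr W t) (gd (E 3 / E 0)) + pq Y (tr Z t) (gd (E 2 / E 1)) +
      pq Y (tr W t) (gd (E 3 / E 1)) := by
    intro t ht
    have hmain := H4 E hE hdvd P hP h6 hEP u hu N hN1 ![X, Y, tr Z t, tr W t]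
      (by
        intro i
        fin_cases i
        · exact hX
        · exact hY
        · exact hclass Z _ t hZ ht
        · exact hclass W _ t hW ht)
      (by
        intro i
        fin_cases i
        · exact hXc
        · exact hYc
        · show N ≤ (tr Z t).card
          rw [card_tr]; exact hZc
        · show N ≤ (tr W t).card
          rw [card_tr]; exact hWc)
    rw [sum_PP (fun i j => pq ((![X, Y, tr Z t, tr W t] : Fin 4 → Finset ℤ) i)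
      ((![X, Y, tr Z t, tr W t] : Fin 4 → Finset ℤ) j) (gd (E j / E i)))] at hmain
    have e01 : pq X Y (gd (E 1 / E 0)) = 0 := pq_zero _ _ _ h01
    have e23 : pq (tr Z t) (tr W t) (gd (E 3 / E 2)) = 0 := by
      refine pq_zero _ _ _ ?_
      intro b hb b' hb' hgd
      unfold tr at hb hb'
      obtain ⟨b0, hb0, rfl⟩ := Finset.mem_image.1 hb
      obtain ⟨b0', hb0', rfl⟩ := Finset.mem_image.1 hb'
      refine h2' b0 hb0 b0' hb0' ?_
      rw [hone] at hgd ⊢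
      unfold gd at hgd ⊢
      have e : b0' + t - ((1 : ℕ) : ℤ) * (b0 + t) = b0' - ((1 : ℕ) : ℤ) * b0 := by
        push_cast; ring
      rw [← e]
      exact hgd
    have hmain' : 1 - C * (N : ℝ) ^ (-δ) ≤ pq X Y (gd (E 1 / E 0)) +
        pq X (tr Z t) (gd (E 2 / E 0)) + pq X (tr W t) (gd (E 3 / E 0)) +
        pq Y (tr Z t) (gd (E 2 / E 1)) + pq Y (tr W t) (gd (E 3 / E 1)) +
        pq (tr Z t) (tr W t) (gd (E 3 / E 2)) := hmain
    rw [e01, e23] at hmain'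
    linarith
  have hsum := Finset.sum_le_sum key
  rw [Finset.sum_const, nsmul_eq_mul, Finset.sum_add_distrib, Finset.sum_add_distrib,
    Finset.sum_add_distrib] at hsum
  have h5 : ((Cl P 0 c A).card : ℝ) * (1 - C * (N : ℝ) ^ (-δ)) ≤ ((Cl P 0 c A).card : ℝ) *
      (rho P (u 2 - (E 2 / E 0 : ℕ) * u 0) (E 2 / E 0) c A +
      rho P (u 3 - (E 3 / E 0 : ℕ) * u 0) (E 3 / E 0) c A +
      rho P (u 2 - (E 2 / E 1 : ℕ) * u 1) (E 2 / E 1) c A +
      rho P (u 3 - (E 3 / E 1 : ℕ) * u 1) (E 3 / E 1) c A + ε / 2) := by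
    refine hsum.trans ?_
    have e : ((Cl P 0 c A).card : ℝ) *
      (rho P (u 2 - (E 2 / E 0 : ℕ) * u 0) (E 2 / E 0) c A +
      rho P (u 3 - (E 3 / E 0 : ℕ) * u 0) (E 3 / E 0) c A +
      rho P (u 2 - (E 2 / E 1 : ℕ) * u 1) (E 2 / E 1) c A +
      rho P (u 3 - (E 3 / E 1 : ℕ) * u 1) (E 3 / E 1) c A + ε / 2) =
      ((Cl P 0 c A).card : ℝ) * (rho P (u 2 - (E 2 / E 0 : ℕ) * u 0) (E 2 / E 0) c A + ε / 8) +
      ((Cl P 0 c A).card : ℝ) * (rho P (u 3 - (E 3 / E 0 : ℕ) * u 0) (E 3 / E 0) c A + ε / 8) +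
      ((Cl P 0 c A).card : ℝ) * (rho P (u 2 - (E 2 / E 1 : ℕ) * u 1) (E 2 / E 1) c A + ε / 8) +
      ((Cl P 0 c A).card : ℝ) * (rho P (u 3 - (E 3 / E 1 : ℕ) * u 1) (E 3 / E 1) c A + ε / 8) := by
      ring
    rw [e]
    exact add_le_add (add_le_add (add_le_add h0 h1) h2) h3
  have h6' := le_of_mul_le_mul_left h5 hT0
  linarith

/-- no boxes: the bad constants are sparse -/
theorem sparse_of (P : ℕ) (hP : 0 < P) (u v : ℤ) (D : ℕ) (hD : 0 < D) (K : ℕ)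
    (hK : ¬ Bx2 P u v D K) : ∃ M : ℕ, 1 ≤ M ∧ (∀ X Y : Finset ℤ, M ≤ X.card → M ≤ Y.card →
      ∃ x ∈ X, ∃ y ∈ Y, GoodP ((v - D * u) + P * (x + y)) D) ∧
      ∀ (z : ℤ) (L : ℕ), 1 ≤ L → ({k : ℤ | z < k ∧ k ≤ z + L ∧
        ¬ GoodP ((v - D * u) + P * k) D}.ncard : ℝ) ≤ 8 * M * (L : ℝ) ^ (1 - 1 / (M : ℝ)) := by
  classical
  have hDz : (0 : ℤ) < D := by exact_mod_cast hD
  have hPz : (0 : ℤ) < P := by exact_mod_cast hP
  have hbox : ∀ X Y : Finset ℤ, D * (K + 1) ≤ X.card → D * (K + 1) ≤ Y.card →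
      ∃ x ∈ X, ∃ y ∈ Y, GoodP ((v - D * u) + P * (x + y)) D := by
    intro X Y hX hY
    -- one class modulo `D`
    obtain ⟨r, hr⟩ : ∃ r : ℤ, K + 1 ≤ (X.filter (fun x => x % D = r)).card := by
      have hmaps : ∀ x ∈ X, x % (D : ℤ) ∈ Finset.Ico (0 : ℤ) D := fun x _ =>
        Finset.mem_Ico.2 ⟨Int.emod_nonneg _ hDz.ne', Int.emod_lt_of_pos _ hDz⟩
      have hcard : (Finset.Ico (0 : ℤ) D).card * (K + 1) ≤ X.card := by
        rw [Int.card_Ico, sub_zero, Int.toNat_natCast]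
        exact hX
      obtain ⟨r, _, hr⟩ := Finset.exists_le_card_fiber_of_mul_le_card_of_maps_to hmaps
        ⟨0, Finset.mem_Ico.2 ⟨le_rfl, hDz⟩⟩ hcard
      exact ⟨r, hr⟩
    by_contra hcon
    push Not at hcon
    apply hK
    refine ⟨(X.filter (fun x => x % D = r)).image (fun x => u - P * ((x - r) / D)),
      Y.image (fun y => v + P * (y + r)), ?_, ?_, ?_, ?_, ?_⟩
    · rw [Finset.card_image_of_injOn]
      · omega
      · intro x hx x' hx' hxx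
        have h1 := (Finset.mem_filter.1 (Finset.mem_coe.1 hx)).2
        have h2 := (Finset.mem_filter.1 (Finset.mem_coe.1 hx')).2
        have h3 : u - P * ((x - r) / D) = u - P * ((x' - r) / D) := hxx
        have h4 : (x - r) / D = (x' - r) / D := by
          have h5 : (P : ℤ) * ((x - r) / D) = P * ((x' - r) / D) := by linarith
          exact mul_left_cancel₀ hPz.ne' h5
        have h6 : (D : ℤ) ∣ x - r := by rw [← h1]; exact Int.dvd_self_sub_emod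
        have h7 : (D : ℤ) ∣ x' - r := by rw [← h2]; exact Int.dvd_self_sub_emod
        have h8 := Int.ediv_mul_cancel h6
        have h9 := Int.ediv_mul_cancel h7
        rw [h4] at h8
        linarith
    · rw [Finset.card_image_of_injective]
      · have : K + 1 ≤ D * (K + 1) := Nat.le_mul_of_pos_left _ hD
        omega
      · intro y y' hyy
        have h3 : v + P * (y + r) = v + P * (y' + r) := hyy
        have h5 : (P : ℤ) * (y + r) = P * (y' + r) := by linarith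
        have h6 := mul_left_cancel₀ hPz.ne' h5
        linarith
    · intro b hb
      obtain ⟨x, _, rfl⟩ := Finset.mem_image.1 hb
      exact ⟨-((x - r) / D), by ring⟩
    · intro b hb
      obtain ⟨y, _, rfl⟩ := Finset.mem_image.1 hb
      exact ⟨y + r, by ring⟩
    · intro b hb b' hb' hgd
      obtain ⟨x, hx, rfl⟩ := Finset.mem_image.1 hb
      obtain ⟨y, hy, rfl⟩ := Finset.mem_image.1 hb'
      have hx' := Finset.mem_filter.1 hx
      refine hcon x hx'.1 y hy ?_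
      unfold gd at hgd
      have h6 : (D : ℤ) ∣ x - r := by rw [← hx'.2]; exact Int.dvd_self_sub_emod
      have h8 := Int.ediv_mul_cancel h6
      have e : v + P * (y + r) - D * (u - P * ((x - r) / D)) = (v - D * u) + P * (x + y) := by
        linear_combination (P : ℤ) * h8
      rw [e] at hgd
      exact hgd
  refine ⟨D * (K + 1), Nat.mul_pos hD (Nat.succ_pos _), hbox, ?_⟩
  intro z L hL
  have hfin : {k : ℤ | z < k ∧ k ≤ z + L ∧ ¬ GoodP ((v - D * u) + P * k) D} =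
      (((Finset.Ioc z (z + L)).filter (fun k => ¬ GoodP ((v - D * u) + P * k) D) : Finset ℤ) : Set ℤ) := by
    ext k
    rw [Finset.coe_filter, Set.mem_ofPred_eq, Set.mem_ofPred_eq, Finset.mem_Ioc, and_assoc]
  rw [hfin, Set.ncard_coe_finset]
  refine Pool.Agent.TH880.GP.kst (D * (K + 1)) (Nat.mul_pos hD (Nat.succ_pos _))
    {k : ℤ | ¬ GoodP ((v - D * u) + P * k) D} ?_ z L hL _ ?_
  · intro X Y hX hY
    obtain ⟨x, hx, y, hy, hxy⟩ := hbox X Y hX hY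
    refine ⟨x, hx, y, hy, ?_⟩
    rw [Set.mem_ofPred_eq, not_not]
    exact hxy
  · intro k hk
    rw [Finset.mem_filter, Finset.mem_Ioc] at hk
    exact ⟨hk.2, hk.1.1, hk.1.2⟩

end Pool.Agent.Y863.TP
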