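import Pool.Agent.Y863.TP.Box2

/-! Boxes of bad constants for the quotients of a chain of slopes: pairs of boxes, the theorem. -/

set_option autoImplicit false

namespace Pool.Agent.Y863.TP

open Finset Filter
open Pool.Agent.H732R3.BigQ
open Pool.Agent.TH899.UG
open Pool.Agent.H362R2.CM

/-- two sets of `K` constants without good pairs, classes modulo `P` and `Q` -/
def Bxm (P Q : ℕ) (u v : ℤ) (D K : ℕ) : Prop :=
  ∃ X Y : Finset ℤ, K ≤ X.card ∧ K ≤ Y.card ∧ (∀ b ∈ X, (P : ℤ) ∣ b - u) ∧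
    (∀ b ∈ Y, (Q : ℤ) ∣ b - v) ∧ ∀ b ∈ X, ∀ b' ∈ Y, ¬ gd D b b'

open Classical in
theorem gd_count_scale (P e : ℕ) (u u' b b' : ℤ) (hb : (P : ℤ) ∣ b - u)
    (hb' : ((e * P : ℕ) : ℤ) ∣ b' - u') (D : ℕ) (he : 0 < e) (heD : e ∣ D) (c : ℤ) (A : ℕ) :
    ((Cl P 0 c A).filter (fun t => gd D b (b' + e * t))).card ≤
      cnt (e * P) (u' - D * u) D (e * c) (e * A) + (D * b.natAbs + b'.natAbs) := by
  have hez : (0 : ℤ) < e := by exact_mod_cast he
  refine le_trans ?_ ((cnt_shift (e * P) (u' - D * u) D (e * c) ((D : ℤ) * b - b') (e * A)).trans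
    (Nat.add_le_add_left ?_ _))
  · unfold cnt
    refine Finset.card_le_card_of_injOn (fun t => b' + e * t - (D : ℤ) * b) ?_ ?_
    · intro t ht
      rw [Finset.mem_coe, Finset.mem_filter] at ht
      have h1 := ht.1
      unfold Cl at h1
      rw [Finset.mem_filter, Finset.mem_Ico] at h1
      rw [Finset.mem_coe, Finset.mem_filter, Finset.mem_Ico]
      have h2 : (e : ℤ) * c ≤ e * t := mul_le_mul_of_nonneg_left h1.1.1 hez.le
      have h3 : (e : ℤ) * t < e * (c + A) := mul_lt_mul_of_pos_left h1.1.2 hez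
      have h4 : (e : ℤ) * (c + A) = e * c + ((e * A : ℕ) : ℤ) := by push_cast; ring
      rw [h4] at h3
      refine ⟨⟨by linarith, by linarith⟩, ?_, ht.2⟩
      obtain ⟨D', rfl⟩ := heD
      have e1 : b' + e * t - ((e * D' : ℕ) : ℤ) * b - (u' - ((e * D' : ℕ) : ℤ) * u) =
          (b' - u') - (D' : ℤ) * (e * (b - u)) + e * (t - 0) := by
        push_cast; ring
      rw [e1]
      have hePz : ((e * P : ℕ) : ℤ) = (e : ℤ) * P := by push_cast; ring
      refine dvd_add (dvd_sub hb' (Dvd.dvd.mul_left ?_ _)) ?_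
      · rw [hePz]; exact mul_dvd_mul_left _ hb
      · rw [hePz]; exact mul_dvd_mul_left _ h1.2
    · intro t _ t' _ h
      have h : b' + e * t - (D : ℤ) * b = b' + e * t' - (D : ℤ) * b := h
      have h2 : (e : ℤ) * t = e * t' := by linarith
      exact mul_left_cancel₀ hez.ne' h2
  · have h1 : ((D : ℤ) * b).natAbs = D * b.natAbs := by
      rw [Int.natAbs_mul, Int.natAbs_natCast]
    rw [← h1]
    exact Int.natAbs_sub_le _ _

/-- good pairs of two fixed sets, the second translated by `e t`, on average over `t` -/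
theorem pq_scale (P : ℕ) (hP : 0 < P) (e : ℕ) (he : 0 < e) (D : ℕ) (heD : e ∣ D) (u u' : ℤ)
    (X Y : Finset ℤ) (hX0 : X.Nonempty)
    (hY0 : Y.Nonempty) (hX : ∀ b ∈ X, (P : ℤ) ∣ b - u) (hY : ∀ b ∈ Y, ((e * P : ℕ) : ℤ) ∣ b - u')
    (η : ℝ) (hη : 0 < η) : ∃ L : ℕ, ∀ A : ℕ, L ≤ A → ∀ c : ℤ,
      ∑ t ∈ Cl P 0 c A, pq X (tr Y (e * t)) (gd D) ≤
        ((Cl P 0 c A).card : ℝ) * (rho (e * P) (u' - D * u) D (e * c) (e * A) + η) := by
  classical
  obtain ⟨H, hH⟩ : ∃ H : ℕ, ∀ b ∈ X, ∀ b' ∈ Y, D * b.natAbs + b'.natAbs ≤ H := by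
    refine ⟨∑ b ∈ X, D * b.natAbs + ∑ b ∈ Y, b.natAbs, fun b hb b' hb' => ?_⟩
    exact Nat.add_le_add
      (Finset.single_le_sum (f := fun b : ℤ => D * b.natAbs) (fun _ _ => Nat.zero_le _) hb)
      (Finset.single_le_sum (f := fun b : ℤ => b.natAbs) (fun _ _ => Nat.zero_le _) hb')
  have hP0 : (0 : ℝ) < P := by exact_mod_cast hP
  have he0 : (0 : ℝ) < e := by exact_mod_cast he
  obtain ⟨L, hL⟩ : ∃ L : ℕ, (P : ℝ) * ((2 + H) / η + 1) ≤ L := exists_nat_ge _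
  refine ⟨max L (P + 1), fun A hA c => ?_⟩
  have hA1 : P ≤ A := by omega
  have hA2 : L ≤ A := by omega
  have hA0 : 0 < A := by omega
  have hX0' : (0 : ℝ) < X.card := by exact_mod_cast hX0.card_pos
  have hY0' : (0 : ℝ) < Y.card := by exact_mod_cast hY0.card_pos
  obtain ⟨V, hV⟩ : ∃ V : ℝ, V = ((Cl P 0 c A).card : ℝ) := ⟨_, rfl⟩
  have hVl := (card_Cl P hP 0 c A).1
  rw [← hV] at hVl
  have hAL : (P : ℝ) * ((2 + H) / η + 1) ≤ A := hL.trans (by exact_mod_cast hA2)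
  have hVbig : (2 + H) / η ≤ V := by
    have h1 : (2 + H) / η + 1 ≤ (A : ℝ) / P := by
      rw [le_div_iff₀ hP0]; linarith
    linarith
  have hVη : 2 + (H : ℝ) ≤ η * V := by
    rw [div_le_iff₀ hη] at hVbig
    linarith
  have hR0 := rho_nonneg (e * P) (u' - D * u) D (e * c) (e * A)
  have hR2 := rho_le (e * P) (Nat.mul_pos he hP) (u' - D * u) D (e * c) (e * A)
    (Nat.mul_le_mul_left e hA1)
  have hcnt := cnt_eq (e * P) (Nat.mul_pos he hP) (u' - D * u) D (e * c) (e * A)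
    (Nat.mul_pos he hA0)
  have hquot : ((e * A : ℕ) : ℝ) / ((e * P : ℕ) : ℝ) = (A : ℝ) / P := by
    push_cast
    field_simp
  rw [hquot] at hcnt
  obtain ⟨R, hR⟩ : ∃ R : ℝ, R = rho (e * P) (u' - D * u) D (e * c) (e * A) := ⟨_, rfl⟩
  have h1 : ∀ t ∈ Cl P 0 c A, pq X (tr Y (e * t)) (gd D) = ∑ b ∈ X, ∑ b' ∈ Y,
      1 / (X.card : ℝ) * (1 / (Y.card : ℝ)) * (if gd D b (b' + e * t) then 1 else 0) := by
    intro t _
    rw [pq_tr]
    rfl
  rw [Finset.sum_congr rfl h1, Finset.sum_comm]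
  have h2 : ∀ b ∈ X, ∑ t ∈ Cl P 0 c A, ∑ b' ∈ Y, 1 / (X.card : ℝ) * (1 / (Y.card : ℝ)) *
      (if gd D b (b' + e * t) then (1 : ℝ) else 0) ≤
      ∑ b' ∈ Y, 1 / (X.card : ℝ) * (1 / (Y.card : ℝ)) * (V * (R + η)) := by
    intro b hb
    rw [Finset.sum_comm]
    refine Finset.sum_le_sum fun b' hb' => ?_
    rw [← Finset.mul_sum]
    refine mul_le_mul_of_nonneg_left ?_ (by positivity)
    rw [Finset.sum_boole]
    have h3 := gd_count_scale P e u u' b b' (hX b hb) (hY b' hb') D he heD c A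
    have h4 := h3.trans (Nat.add_le_add_left (hH b hb b' hb') _)
    have h5 : (((Cl P 0 c A).filter (fun t => gd D b (b' + e * t))).card : ℝ) ≤
        (cnt (e * P) (u' - D * u) D (e * c) (e * A) : ℝ) + (H : ℝ) := by exact_mod_cast h4
    refine h5.trans ?_
    rw [hcnt, ← hR]
    have h6 : (A : ℝ) / P ≤ V + 1 := by linarith
    have h7 : R * ((A : ℝ) / P) ≤ R * (V + 1) := mul_le_mul_of_nonneg_left h6 (by rw [hR]; exact hR0)
    have h8 : R ≤ 2 := by rw [hR]; exact hR2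
    nlinarith
  refine (Finset.sum_le_sum h2).trans ?_
  rw [Finset.sum_const, Finset.sum_const, nsmul_eq_mul, nsmul_eq_mul, ← hV, hR]
  refine le_of_eq ?_
  field_simp

theorem ext22s (E : Fin 4 → ℕ) (hE : ∀ i, 0 < E i) (hdvd : ∀ i j, i ≤ j → E i ∣ E j) (P : ℕ)
    (hP : 0 < P) (h6 : 6 ∣ P) (hEP : ∀ p : ℕ, p.Prime → ∀ i, p ∣ E i → p ∣ P) (u : Fin 4 → ℤ)
    (hu : ∀ i, Int.gcd (u i) P = 1)
    (h : ∀ K, Bx2 P (u 0) (u 1) (E 1 / E 0) K)
    (h' : ∀ K, Bxm P (E 3 / E 2 * P) (u 2) (u 3) (E 3 / E 2) K)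
    (ε : ℝ) (hε : 0 < ε) :
    ∃ L : ℕ, ∀ A : ℕ, L ≤ A → ∀ c : ℤ, 1 - ε ≤
      rho P (u 2 - (E 2 / E 0 : ℕ) * u 0) (E 2 / E 0) c A +
      rho P (u 2 - (E 2 / E 1 : ℕ) * u 1) (E 2 / E 1) c A +
      rho (E 3 / E 2 * P) (u 3 - (E 3 / E 0 : ℕ) * u 0) (E 3 / E 0) ((E 3 / E 2 : ℕ) * c)
        (E 3 / E 2 * A) +
      rho (E 3 / E 2 * P) (u 3 - (E 3 / E 1 : ℕ) * u 1) (E 3 / E 1) ((E 3 / E 2 : ℕ) * c)
        (E 3 / E 2 * A) := by
  classical
  obtain ⟨e, he⟩ : ∃ e : ℕ, e = E 3 / E 2 := ⟨_, rfl⟩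
  rw [← he] at h' ⊢
  have hd23 : E 2 ∣ E 3 := hdvd 2 3 (by decide)
  have he3 : E 3 = E 2 * e := by rw [he]; exact (Nat.mul_div_cancel' hd23).symm
  have he0 : 0 < e := by
    rw [he]; exact Nat.div_pos (Nat.le_of_dvd (hE 3) hd23) (hE 2)
  have hq : ∀ i : Fin 4, i ≤ 2 → E 3 / E i = e * (E 2 / E i) := by
    intro i hi
    obtain ⟨r, hr⟩ := hdvd i 2 hi
    rw [he3, hr, Nat.mul_div_cancel_left _ (hE i), mul_assoc, Nat.mul_div_cancel_left _ (hE i),
      mul_comm]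
  obtain ⟨C, δ, hC, hδ, H4⟩ := four_sets
  obtain ⟨N, hN1, hN⟩ := small_pow C δ (ε / 2) hδ (by linarith)
  obtain ⟨X, Y, hXc, hYc, hX, hY, h01⟩ := h N
  obtain ⟨Z, W, hZc, hWc, hZ, hW, h2'⟩ := h' N
  have hXn : X.Nonempty := Finset.card_pos.1 (by omega)
  have hYn : Y.Nonempty := Finset.card_pos.1 (by omega)
  have hZn : Z.Nonempty := Finset.card_pos.1 (by omega)
  have hWn : W.Nonempty := Finset.card_pos.1 (by omega)
  obtain ⟨L0, hL0⟩ := pq_shift P hP (E 2 / E 0) (u 0) (u 2) X Z hXn hZn hX hZ (ε / 8) (by linarith)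
  obtain ⟨L1, hL1⟩ := pq_shift P hP (E 2 / E 1) (u 1) (u 2) Y Z hYn hZn hY hZ (ε / 8) (by linarith)
  obtain ⟨L2, hL2⟩ := pq_scale P hP e he0 (E 3 / E 0)
    (by rw [hq 0 (by decide)]; exact dvd_mul_right _ _) (u 0) (u 3) X W hXn hWn hX hW (ε / 8)
    (by linarith)
  obtain ⟨L3, hL3⟩ := pq_scale P hP e he0 (E 3 / E 1)
    (by rw [hq 1 (by decide)]; exact dvd_mul_right _ _) (u 1) (u 3) Y W hYn hWn hY hW (ε / 8)
    (by linarith)
  obtain ⟨L4, hL4⟩ := large_Cl P hP 1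
  refine ⟨L0 + L1 + L2 + L3 + L4, fun A hA c => ?_⟩
  have h0 := hL0 A (by omega) c
  have h1 := hL1 A (by omega) c
  have h2 := hL2 A (by omega) c
  have h3 := hL3 A (by omega) c
  have h4 := hL4 A (by omega) 0 c
  have hT0 : (0 : ℝ) < ((Cl P 0 c A).card : ℝ) := by linarith
  have key : ∀ t ∈ Cl P 0 c A, 1 - C * (N : ℝ) ^ (-δ) ≤ pq X (tr Z t) (gd (E 2 / E 0)) +
      pq Y (tr Z t) (gd (E 2 / E 1)) + pq X (tr W (e * t)) (gd (E 3 / E 0)) +
      pq Y (tr W (e * t)) (gd (E 3 / E 1)) := by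
    intro t ht
    have htP : (P : ℤ) ∣ t - 0 := mem_Cl _ _ _ _ _ ht
    rw [sub_zero] at htP
    have hmain := H4 E hE hdvd P hP h6 hEP u hu N hN1 ![X, Y, tr Z t, tr W (e * t)]
      (by
        intro i
        fin_cases i
        · exact hX
        · exact hY
        · intro b hb
          have hb : b ∈ tr Z t := hb
          unfold tr at hb
          obtain ⟨b0, hb0, rfl⟩ := Finset.mem_image.1 hb
          show (P : ℤ) ∣ b0 + t - u 2
          have e1 : b0 + t - u 2 = (b0 - u 2) + t := by ring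
          rw [e1]
          exact dvd_add (hZ b0 hb0) htP
        · intro b hb
          have hb : b ∈ tr W (e * t) := hb
          unfold tr at hb
          obtain ⟨b0, hb0, rfl⟩ := Finset.mem_image.1 hb
          show (P : ℤ) ∣ b0 + e * t - u 3
          have e1 : b0 + e * t - u 3 = (b0 - u 3) + e * t := by ring
          rw [e1]
          refine dvd_add (dvd_trans ?_ (hW b0 hb0)) (Dvd.dvd.mul_left htP _)
          push_cast
          exact dvd_mul_left _ _)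
      (by
        intro i
        fin_cases i
        · exact hXc
        · exact hYc
        · show N ≤ (tr Z t).card
          rw [card_tr]; exact hZc
        · show N ≤ (tr W (e * t)).card
          rw [card_tr]; exact hWc)
    rw [sum_PP (fun i j => pq ((![X, Y, tr Z t, tr W (e * t)] : Fin 4 → Finset ℤ) i)
      ((![X, Y, tr Z t, tr W (e * t)] : Fin 4 → Finset ℤ) j) (gd (E j / E i)))] at hmain
    have e01 : pq X Y (gd (E 1 / E 0)) = 0 := pq_zero _ _ _ h01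
    have e23 : pq (tr Z t) (tr W (e * t)) (gd (E 3 / E 2)) = 0 := by
      rw [← he]
      refine pq_zero _ _ _ ?_
      intro b hb b' hb' hgd
      unfold tr at hb hb'
      obtain ⟨b0, hb0, rfl⟩ := Finset.mem_image.1 hb
      obtain ⟨b0', hb0', rfl⟩ := Finset.mem_image.1 hb'
      refine h2' b0 hb0 b0' hb0' ?_
      unfold gd at hgd ⊢
      have e1 : b0' + e * t - (e : ℤ) * (b0 + t) = b0' - (e : ℤ) * b0 := by ring
      rw [← e1]
      exact hgd
    have hmain' : 1 - C * (N : ℝ) ^ (-δ) ≤ pq X Y (gd (E 1 / E 0)) +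
        pq X (tr Z t) (gd (E 2 / E 0)) + pq X (tr W (e * t)) (gd (E 3 / E 0)) +
        pq Y (tr Z t) (gd (E 2 / E 1)) + pq Y (tr W (e * t)) (gd (E 3 / E 1)) +
        pq (tr Z t) (tr W (e * t)) (gd (E 3 / E 2)) := hmain
    rw [e01, e23] at hmain'
    linarith
  have hsum := Finset.sum_le_sum key
  rw [Finset.sum_const, nsmul_eq_mul, Finset.sum_add_distrib, Finset.sum_add_distrib,
    Finset.sum_add_distrib] at hsum
  have h5 : ((Cl P 0 c A).card : ℝ) * (1 - C * (N : ℝ) ^ (-δ)) ≤ ((Cl P 0 c A).card : ℝ) *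
      (rho P (u 2 - (E 2 / E 0 : ℕ) * u 0) (E 2 / E 0) c A +
      rho P (u 2 - (E 2 / E 1 : ℕ) * u 1) (E 2 / E 1) c A +
      rho (e * P) (u 3 - (E 3 / E 0 : ℕ) * u 0) (E 3 / E 0) (e * c) (e * A) +
      rho (e * P) (u 3 - (E 3 / E 1 : ℕ) * u 1) (E 3 / E 1) (e * c) (e * A) + ε / 2) := by
    refine hsum.trans ?_
    have e1 : ((Cl P 0 c A).card : ℝ) *
      (rho P (u 2 - (E 2 / E 0 : ℕ) * u 0) (E 2 / E 0) c A +
      rho P (u 2 - (E 2 / E 1 : ℕ) * u 1) (E 2 / E 1) c A +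
      rho (e * P) (u 3 - (E 3 / E 0 : ℕ) * u 0) (E 3 / E 0) (e * c) (e * A) +
      rho (e * P) (u 3 - (E 3 / E 1 : ℕ) * u 1) (E 3 / E 1) (e * c) (e * A) + ε / 2) =
      ((Cl P 0 c A).card : ℝ) * (rho P (u 2 - (E 2 / E 0 : ℕ) * u 0) (E 2 / E 0) c A + ε / 8) +
      ((Cl P 0 c A).card : ℝ) * (rho P (u 2 - (E 2 / E 1 : ℕ) * u 1) (E 2 / E 1) c A + ε / 8) +
      ((Cl P 0 c A).card : ℝ) *
        (rho (e * P) (u 3 - (E 3 / E 0 : ℕ) * u 0) (E 3 / E 0) (e * c) (e * A) + ε / 8) +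
      ((Cl P 0 c A).card : ℝ) *
        (rho (e * P) (u 3 - (E 3 / E 1 : ℕ) * u 1) (E 3 / E 1) (e * c) (e * A) + ε / 8) := by
      ring
    rw [e1]
    exact add_le_add (add_le_add (add_le_add h0 h1) h2) h3
  have h6' := le_of_mul_le_mul_left h5 hT0
  linarith

/-- no boxes: the bad constants are sparse -/
theorem sparse_m (P : ℕ) (hP : 0 < P) (u v : ℤ) (D : ℕ) (hD : 0 < D) (K : ℕ)
    (hK : ¬ Bxm P (D * P) u v D K) : ∃ M : ℕ, 1 ≤ M ∧ (∀ X Y : Finset ℤ, M ≤ X.card → M ≤ Y.card →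
      ∃ x ∈ X, ∃ y ∈ Y, GoodP ((v - D * u) + (D * P : ℕ) * (x + y)) D) ∧
      ∀ (z : ℤ) (L : ℕ), 1 ≤ L → ({k : ℤ | z < k ∧ k ≤ z + L ∧
        ¬ GoodP ((v - D * u) + (D * P : ℕ) * k) D}.ncard : ℝ) ≤
          8 * M * (L : ℝ) ^ (1 - 1 / (M : ℝ)) := by
  classical
  have hDz : (0 : ℤ) < D := by exact_mod_cast hD
  have hPz : (0 : ℤ) < P := by exact_mod_cast hP
  have hbox : ∀ X Y : Finset ℤ, K + 1 ≤ X.card → K + 1 ≤ Y.card →
      ∃ x ∈ X, ∃ y ∈ Y, GoodP ((v - D * u) + (D * P : ℕ) * (x + y)) D := by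
    intro X Y hX hY
    by_contra hcon
    push Not at hcon
    apply hK
    refine ⟨X.image (fun x => u - P * x), Y.image (fun y => v + (D * P : ℕ) * y),
      ?_, ?_, ?_, ?_, ?_⟩
    · rw [Finset.card_image_of_injective]
      · omega
      · intro x x' hxx
        have h3 : u - P * x = u - P * x' := hxx
        have h5 : (P : ℤ) * x = P * x' := by linarith
        exact mul_left_cancel₀ hPz.ne' h5
    · rw [Finset.card_image_of_injective]
      · omega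
      · intro y y' hyy
        have h3 : v + ((D * P : ℕ) : ℤ) * y = v + ((D * P : ℕ) : ℤ) * y' := hyy
        have h5 : ((D * P : ℕ) : ℤ) * y = ((D * P : ℕ) : ℤ) * y' := by linarith
        refine mul_left_cancel₀ ?_ h5
        push_cast
        exact (mul_pos hDz hPz).ne'
    · intro b hb
      obtain ⟨x, _, rfl⟩ := Finset.mem_image.1 hb
      exact ⟨-x, by ring⟩
    · intro b hb
      obtain ⟨y, _, rfl⟩ := Finset.mem_image.1 hb
      exact ⟨y, by ring⟩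
    · intro b hb b' hb' hgd
      obtain ⟨x, hx, rfl⟩ := Finset.mem_image.1 hb
      obtain ⟨y, hy, rfl⟩ := Finset.mem_image.1 hb'
      refine hcon x hx y hy ?_
      unfold gd at hgd
      have e : v + ((D * P : ℕ) : ℤ) * y - D * (u - P * x) =
          (v - D * u) + ((D * P : ℕ) : ℤ) * (x + y) := by
        push_cast; ring
      rw [e] at hgd
      exact hgd
  refine ⟨K + 1, Nat.succ_pos _, hbox, ?_⟩
  intro z L hL
  have hfin : {k : ℤ | z < k ∧ k ≤ z + L ∧ ¬ GoodP ((v - D * u) + (D * P : ℕ) * k) D} =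
      (((Finset.Ioc z (z + L)).filter
        (fun k => ¬ GoodP ((v - D * u) + (D * P : ℕ) * k) D) : Finset ℤ) : Set ℤ) := by
    ext k
    rw [Finset.coe_filter, Set.mem_ofPred_eq, Set.mem_ofPred_eq, Finset.mem_Ioc, and_assoc]
  rw [hfin, Set.ncard_coe_finset]
  refine Pool.Agent.TH880.GP.kst (K + 1) (Nat.succ_pos _)
    {k : ℤ | ¬ GoodP ((v - D * u) + (D * P : ℕ) * k) D} ?_ z L hL _ ?_
  · intro X Y hX hY
    obtain ⟨x, hx, y, hy, hxy⟩ := hbox X Y hX hY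
    refine ⟨x, hx, y, hy, ?_⟩
    rw [Set.mem_ofPred_eq, not_not]
    exact hxy
  · intro k hk
    rw [Finset.mem_filter, Finset.mem_Ioc] at hk
    exact ⟨hk.2, hk.1.1, hk.1.2⟩

end Pool.Agent.Y863.TP
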