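import Pool.Agent.Y863.TP.Final

/-! Every slope has a multiple with many good constants. -/

set_option autoImplicit false

namespace Pool.Agent.Y863.TP

open Finset

/-- the nonzero natural numbers -/
def posS : Submonoid ℕ where
  carrier := {n | n ≠ 0}
  mul_mem' := fun ha hb => mul_ne_zero ha hb
  one_mem' := one_ne_zero

theorem mem_posS (n : ℕ) : n ∈ posS ↔ n ≠ 0 := Iff.rfl

theorem card_div_pow (W N : ℕ) (hW : W ≠ 0) :
    (W ^ N).divisors.card = ∏ p ∈ W.primeFactors, (N * W.factorization p + 1) := by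
  rcases Nat.eq_zero_or_pos N with h | h
  · subst h
    simp
  · rw [Nat.card_divisors (pow_ne_zero _ hW), Nat.primeFactors_pow _ h.ne']
    refine Finset.prod_congr rfl fun p _ => ?_
    rw [Nat.factorization_pow]
    simp

theorem div_ratio (W N : ℕ) (hW : W ≠ 0) :
    (1 - (W.primeFactors.card : ℝ) / ((N : ℝ) + 1)) * ((W ^ (N + 1)).divisors.card : ℝ) ≤
      ((W ^ N).divisors.card : ℝ) := by
  rw [card_div_pow W N hW, card_div_pow W (N + 1) hW]
  push_cast
  obtain ⟨x, hx⟩ : ∃ x : ℝ, x = 1 - 1 / ((N : ℝ) + 1) := ⟨_, rfl⟩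
  have hN : (0 : ℝ) < (N : ℝ) + 1 := by positivity
  have hx0 : 0 ≤ x := by
    rw [hx, sub_nonneg, div_le_one hN]
    have : (0 : ℝ) ≤ N := by positivity
    linarith
  have h1 : ∀ p ∈ W.primeFactors, x * (((N : ℝ) + 1) * (W.factorization p : ℝ) + 1) ≤
      (N : ℝ) * (W.factorization p : ℝ) + 1 := by
    intro p _
    rw [hx]
    have h2 : (1 - 1 / ((N : ℝ) + 1)) * (((N : ℝ) + 1) * (W.factorization p : ℝ) + 1) =
        (N : ℝ) * (W.factorization p : ℝ) + 1 - 1 / ((N : ℝ) + 1) := by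
      field_simp
      ring
    rw [h2]
    have : 0 ≤ 1 / ((N : ℝ) + 1) := by positivity
    linarith
  have h2 : x ^ W.primeFactors.card * ∏ p ∈ W.primeFactors, (((N : ℝ) + 1) * (W.factorization p : ℝ) + 1) ≤
      ∏ p ∈ W.primeFactors, ((N : ℝ) * (W.factorization p : ℝ) + 1) := by
    rw [← Finset.prod_const, ← Finset.prod_mul_distrib]
    exact Finset.prod_le_prod (fun p _ => mul_nonneg hx0 (by positivity)) h1
  refine le_trans ?_ h2
  refine mul_le_mul_of_nonneg_right ?_ (Finset.prod_nonneg fun p _ => by positivity)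
  have h3 := one_add_mul_le_pow (a := -(1 / ((N : ℝ) + 1))) (by
    have : 1 / ((N : ℝ) + 1) ≤ 1 := by
      rw [div_le_one hN]
      have : (0 : ℝ) ≤ N := by positivity
      linarith
    linarith) W.primeFactors.card
  have h4 : (1 : ℝ) + -(1 / ((N : ℝ) + 1)) = x := by rw [hx]; ring
  rw [h4] at h3
  refine le_trans (le_of_eq ?_) h3
  ring

/-- sets of slopes which are almost invariant -/
theorem inv_div (K N : ℕ) (κ : ℝ) (hκ : ((K.factorial).primeFactors.card : ℝ) / ((N : ℝ) + 1) ≤ κ)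
    (d : ℕ) (hd : 1 ≤ d) :
    Inv posS (((K.factorial) ^ (N + 1)).divisors.image (fun D => d * D)) K κ := by
  classical
  intro m hm hmK
  have hm0 : m ≠ 0 := hm
  have hinj : Function.Injective (fun D : ℕ => d * D) := fun a b h =>
    Nat.eq_of_mul_eq_mul_left hd h
  rw [Finset.card_image_of_injective _ hinj]
  have hW : K.factorial ≠ 0 := Nat.factorial_ne_zero K
  have h1 : ((K.factorial) ^ N).divisors.card ≤
      ((((K.factorial) ^ (N + 1)).divisors.image (fun D => d * D)).filter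
        (fun D => m * D ∈ ((K.factorial) ^ (N + 1)).divisors.image (fun D => d * D))).card := by
    refine Finset.card_le_card_of_injOn (fun D => d * D) ?_ (hinj.injOn)
    intro D hD
    rw [Finset.mem_coe, Nat.mem_divisors] at hD
    rw [Finset.mem_coe, Finset.mem_filter, Finset.mem_image, Finset.mem_image]
    refine ⟨⟨D, ?_, rfl⟩, m * D, ?_, by ring⟩
    · rw [Nat.mem_divisors]
      exact ⟨hD.1.trans (pow_dvd_pow _ (Nat.le_succ _)), pow_ne_zero _ hW⟩
    · rw [Nat.mem_divisors]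
      refine ⟨?_, pow_ne_zero _ hW⟩
      rw [pow_succ, mul_comm m D]
      exact Nat.mul_dvd_mul hD.1 (Nat.dvd_factorial (Nat.pos_of_ne_zero hm0) hmK)
  have h2 := div_ratio K.factorial N hW
  have h3 : (0 : ℝ) ≤ (((K.factorial) ^ (N + 1)).divisors.card : ℝ) := by positivity
  calc (1 - κ) * (((K.factorial) ^ (N + 1)).divisors.card : ℝ) ≤
      (1 - ((K.factorial).primeFactors.card : ℝ) / ((N : ℝ) + 1)) *
        (((K.factorial) ^ (N + 1)).divisors.card : ℝ) :=
        mul_le_mul_of_nonneg_right (by linarith) h3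
    _ ≤ (((K.factorial) ^ N).divisors.card : ℝ) := h2
    _ ≤ _ := by exact_mod_cast h1

/-- a multiple `d m`, `m ≤ C`, of every slope `d` -/
theorem multiples (G : ℤ → ℕ → Prop) (ε : ℝ)
    (H : ∃ K : ℕ, ∃ κ : ℝ, 0 < κ ∧ ∀ F : Finset ℕ, F.Nonempty → (∀ D ∈ F, D ∈ posS) → Inv posS F K κ →
      ∃ A₀ : ℕ, ∀ A : ℕ, A₀ ≤ A → ∀ c : ℤ, (1 / 3 - ε) * (F.card : ℝ) ≤ avg 1 G F c A) :
    ∃ C : ℕ, ∀ d : ℕ, 1 ≤ d → ∃ A₀ : ℕ, ∀ A : ℕ, A₀ ≤ A → ∀ c : ℤ, ∃ m : ℕ, 1 ≤ m ∧ m ≤ C ∧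
      (1 / 3 - ε) ≤ (open Classical in
        ((((Finset.Ico c (c + A)).filter (fun a => ((1 : ℕ) : ℤ) ∣ a ∧ G a (d * m))).card : ℝ) /
        ((Us 1 (d * m) c A).card : ℝ))) := by
  classical
  obtain ⟨K, κ, hκ, H⟩ := H
  obtain ⟨N, hN⟩ : ∃ N : ℕ, ((K.factorial).primeFactors.card : ℝ) / κ ≤ N := exists_nat_ge _
  have hN' : ((K.factorial).primeFactors.card : ℝ) / ((N : ℝ) + 1) ≤ κ := by
    rw [div_le_iff₀ hκ] at hN
    rw [div_le_iff₀ (by positivity)]
    nlinarith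
  have hW : K.factorial ≠ 0 := Nat.factorial_ne_zero K
  refine ⟨(K.factorial) ^ (N + 1), fun d hd => ?_⟩
  have hne : (((K.factorial) ^ (N + 1)).divisors.image (fun D => d * D)).Nonempty := by
    refine ⟨d * 1, Finset.mem_image.2 ⟨1, ?_, rfl⟩⟩
    rw [Nat.mem_divisors]
    exact ⟨one_dvd _, pow_ne_zero _ hW⟩
  obtain ⟨A₀, hA₀⟩ := H (((K.factorial) ^ (N + 1)).divisors.image (fun D => d * D)) hne
    (by
      intro D hD
      obtain ⟨D', hD', rfl⟩ := Finset.mem_image.1 hD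
      rw [mem_posS]
      exact mul_ne_zero (by omega) (Nat.pos_of_mem_divisors hD').ne')
    (inv_div K N κ hN' d hd)
  refine ⟨A₀, fun A hA c => ?_⟩
  have h1 := hA₀ A hA c
  unfold avg at h1
  have h2 : ∑ D ∈ ((K.factorial) ^ (N + 1)).divisors.image (fun D => d * D), (1 / 3 - ε) ≤
      ∑ D ∈ ((K.factorial) ^ (N + 1)).divisors.image (fun D => d * D),
        (((Finset.Ico c (c + A)).filter (fun a => ((1 : ℕ) : ℤ) ∣ a ∧ G a D)).card : ℝ) /
        ((Us 1 D c A).card : ℝ) := by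
    rw [Finset.sum_const, nsmul_eq_mul, mul_comm]
    exact h1
  obtain ⟨D, hD, hD2⟩ := Finset.exists_le_of_sum_le hne h2
  obtain ⟨m, hm, rfl⟩ := Finset.mem_image.1 hD
  refine ⟨m, Nat.pos_of_mem_divisors hm, Nat.divisor_le hm, hD2⟩

end Pool.Agent.Y863.TP
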