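import Pool.Agent.Y863.TP.Bridge0
import Pool.Agent.Y863.TP.Fol
import Pool.Agent.TH899.UG.PairsP
import Pool.Agent.H361R2.Density

/-! Good pairs from the starting theorem on pairs of linear forms. -/

set_option autoImplicit false

namespace Pool.Agent.Y863.TP

open Finset Filter
open Pool.Agent.H732R3.BigQ
open Pool.Agent.TH899.UG

/-- for many primes `q` the number `a + q D` is a prime -/
def GoodB (a : ℤ) (D : ℕ) : Prop :=
  Big {q : ℕ | q.Prime ∧ ∃ p : ℕ, p.Prime ∧ a + q * (D : ℤ) = p}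

theorem good_of_pairBig (D D' : ℕ) (b b' : ℤ) (hD : 0 < D) (hdvd : D ∣ D')
    (h : PairBig ((D : ℤ), b) ((D' : ℤ), b')) : GoodB (b' - (D' / D : ℕ) * b) (D' / D) := by
  obtain ⟨t, rfl⟩ := hdvd
  rw [Nat.mul_div_cancel_left _ hD]
  unfold PairBig at h
  refine Big.affine h D b hD (fun n => ((D : ℤ) * n + b).toNat) ?_ ?_
  · rintro n ⟨⟨h1, _⟩, _⟩
    exact Int.toNat_of_nonneg h1.le
  · rintro n ⟨⟨h1, h2⟩, h3, h4⟩
    have e1 : ((((D : ℤ) * n + b).toNat : ℕ) : ℤ) = (D : ℤ) * n + b := Int.toNat_of_nonneg h1.le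
    have e2 : ((((D * t : ℕ) : ℤ) * n + b').toNat : ℤ) = ((D * t : ℕ) : ℤ) * n + b' :=
      Int.toNat_of_nonneg h3.le
    refine ⟨?_, (((D * t : ℕ) : ℤ) * n + b').toNat, ?_, ?_⟩
    · rw [Nat.prime_iff_prime_int, e1]
      exact h2
    · rw [Nat.prime_iff_prime_int, e2]
      exact h4
    · show b' - (t : ℤ) * b + ((((D : ℤ) * n + b).toNat : ℕ) : ℤ) * t = _
      rw [e1, e2]
      push_cast
      ring

theorem det (r : ℕ) (ε : ℝ) (hε : 0 < ε) :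
    ∃ T : ℕ, 1 ≤ T ∧ Det r GoodB T ((1 / 3 - ε / 4) * (T : ℝ) ^ 2 / 2) := by
  obtain ⟨C, δ, hδ, H⟩ := pairs_third
  exact det_of_pairs PairBig (fun f g h => h.symm) GoodB
    (fun D D' b b' hD hdvd h => good_of_pairBig D D' b b' hD hdvd h) C δ hδ
    (fun V hV hA => H V hV (fun f hf => hA f hf)) r ε hε

/-- the pair `(a, d)` satisfies the hypotheses and the conclusion of the question -/
def GoodP (a d : ℤ) : Prop :=
  Int.gcd a d = 1 ∧ 2 ∣ a * d ∧ {q : ℕ | q.Prime ∧ ∃ p : ℕ, p.Prime ∧ a + q * d = p}.Infinite ∧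
    ∀ η : ℝ, 0 < η → ∃ᶠ x : ℝ in atTop, x ^ (1 - η) ≤
      ({q : ℕ | (q.Prime ∧ ∃ p : ℕ, p.Prime ∧ a + q * d = p) ∧ (q : ℝ) ≤ x}.ncard : ℝ)

theorem goodP_of (a : ℤ) (D : ℕ) (hD : 0 < D) (h : GoodB a D) : GoodP a D := by
  have hinf := h.infinite
  have hpos : (0 : ℤ) < (D : ℤ) := by exact_mod_cast hD
  exact ⟨Pool.Agent.H361R2.good_gcd hpos hinf, Pool.Agent.H361R2.good_parity hpos hinf, hinf, h⟩

/-- number of good constants in an interval -/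
noncomputable def numG (r D : ℕ) (c : ℤ) (A : ℕ) : ℝ :=
  ({a : ℤ | c ≤ a ∧ a < c + A ∧ (r : ℤ) ∣ a ∧ GoodP a D}.ncard : ℝ)

/-- number of admissible constants in an interval -/
noncomputable def numA (r D : ℕ) (c : ℤ) (A : ℕ) : ℝ :=
  ({a : ℤ | c ≤ a ∧ a < c + A ∧ (r : ℤ) ∣ a ∧ Int.gcd a D = 1 ∧ (2 : ℤ) ∣ a * D}.ncard : ℝ)

theorem numA_eq (r D : ℕ) (c : ℤ) (A : ℕ) : numA r D c A = ((Us r D c A).card : ℝ) := by
  unfold numA
  rw [← Set.ncard_coe_finset]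
  congr 2
  ext a
  unfold Us
  rw [Finset.coe_filter, Set.mem_ofPred_eq, Set.mem_ofPred_eq, Finset.mem_Ico]
  tauto

open Classical in
theorem le_numG (r D : ℕ) (hD : 0 < D) (c : ℤ) (A : ℕ) :
    (((Finset.Ico c (c + A)).filter (fun a => (r : ℤ) ∣ a ∧ GoodB a D)).card : ℝ) ≤ numG r D c A := by
  unfold numG
  rw [Nat.cast_le, ← Set.ncard_coe_finset]
  refine Set.ncard_le_ncard ?_ ((Set.finite_Ico c (c + A)).subset fun a ha => ⟨ha.1, ha.2.1⟩)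
  intro a ha
  rw [Finset.coe_filter, Set.mem_ofPred_eq, Finset.mem_Ico] at ha
  exact ⟨ha.1.1, ha.1.2, ha.2.1, goodP_of a D hD ha.2.2⟩

theorem folner {S : Submonoid ℕ} (h0 : (0 : ℕ) ∉ S) (r : ℕ) (hr : 0 < r)
    (hrS : ∀ m ∈ S, Nat.Coprime r m) (s0 : ℕ) (hs0 : s0 ∈ S) (h6 : 6 ∣ r * s0)
    (ε : ℝ) (hε : 0 < ε) :
    ∃ K : ℕ, ∃ κ : ℝ, 0 < κ ∧ ∀ F : Finset ℕ, F.Nonempty → (∀ D ∈ F, D ∈ S) → Inv S F K κ →
      ∃ A₀ : ℕ, ∀ A : ℕ, A₀ ≤ A → ∀ c : ℤ, (1 / 3 - ε) * (F.card : ℝ) ≤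
        ∑ D ∈ F, numG r D c A / numA r D c A := by
  classical
  have hpos : ∀ m ∈ S, 0 < m := fun m hm => Nat.pos_of_ne_zero (fun h => h0 (h ▸ hm))
  rcases lt_or_ge ε (1 / 3) with h | h
  · obtain ⟨T, hT, hdet⟩ := det r ε hε
    obtain ⟨K, κ, hκ, H⟩ := abstract_bound h0 r hr hrS s0 hs0 h6 GoodB ε hε h T hT hdet
    refine ⟨K, κ, hκ, fun F hF hFS hI => ?_⟩
    obtain ⟨A₀, hA₀⟩ := H F hF hFS hI
    refine ⟨A₀, fun A hA c => (hA₀ A hA c).trans ?_⟩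
    unfold avg
    refine Finset.sum_le_sum fun D hD => ?_
    rw [numA_eq]
    exact div_le_div_of_nonneg_right (le_numG r D (hpos D (hFS D hD)) c A) (Nat.cast_nonneg _)
  · refine ⟨0, 1, one_pos, fun F _ _ _ => ⟨0, fun A _ c => ?_⟩⟩
    have h1 : (1 / 3 - ε) * (F.card : ℝ) ≤ 0 :=
      mul_nonpos_of_nonpos_of_nonneg (by linarith) (Nat.cast_nonneg _)
    refine h1.trans (Finset.sum_nonneg fun D _ => ?_)
    unfold numG numA
    positivity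

theorem multiple (ε : ℝ) (hε : 0 < ε) :
    ∃ C : ℕ, ∀ d : ℕ, 1 ≤ d → ∃ A₀ : ℕ, ∀ A : ℕ, A₀ ≤ A → ∀ c : ℤ, ∃ m : ℕ, 1 ≤ m ∧ m ≤ C ∧
      (1 / 3 - ε) * numA 1 (d * m) c A ≤ numG 1 (d * m) c A := by
  classical
  rcases lt_or_ge ε (1 / 3) with h | h
  · obtain ⟨T, hT, hdet⟩ := det 1 ε hε
    have H := abstract_bound (S := posS) (by rw [mem_posS]; simp) 1 one_pos
      (fun m _ => Nat.coprime_one_left m) 6 (by rw [mem_posS]; norm_num) (by norm_num) GoodB ε hε h T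
      hT hdet
    obtain ⟨C, hC⟩ := multiples GoodB ε H
    refine ⟨C, fun d hd => ?_⟩
    obtain ⟨A₀, hA₀⟩ := hC d hd
    refine ⟨A₀, fun A hA c => ?_⟩
    obtain ⟨m, hm1, hm2, hm⟩ := hA₀ A hA c
    refine ⟨m, hm1, hm2, ?_⟩
    rw [numA_eq]
    have h2 := le_numG 1 (d * m) (Nat.mul_pos hd hm1) c A
    rcases Nat.eq_zero_or_pos (Us 1 (d * m) c A).card with h3 | h3
    · rw [h3, Nat.cast_zero, mul_zero]
      unfold numG
      positivity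
    · have h4 : (0 : ℝ) < (Us 1 (d * m) c A).card := by exact_mod_cast h3
      rw [le_div_iff₀ h4] at hm
      exact hm.trans h2
  · refine ⟨1, fun d hd => ⟨0, fun A _ c => ⟨1, le_rfl, le_rfl, ?_⟩⟩⟩
    unfold numG numA
    exact (mul_nonpos_of_nonpos_of_nonneg (by linarith) (Nat.cast_nonneg _)).trans (Nat.cast_nonneg _)

end Pool.Agent.Y863.TP
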