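import Pool.Agent.Y863.TP.Final

/-! From a count of good pairs of linear forms to the deterministic bound. -/

set_option autoImplicit false

namespace Pool.Agent.Y863.TP

open Finset Filter

/-- a residue avoided by at most four forms modulo a prime `p ≥ 5` -/
theorem avoid_five (p : ℕ) (hp : p.Prime) (hp5 : 5 ≤ p) (D b : Fin 4 → ℤ)
    (h : ∀ i, (p : ℤ) ∣ D i → ¬ (p : ℤ) ∣ b i) : ∃ n : ℤ, ∀ i, ¬ (p : ℤ) ∣ D i * n + b i := by
  classical
  by_contra hcon
  push Not at hcon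
  have hpz : Prime (p : ℤ) := Nat.prime_iff_prime_int.1 hp
  have h1 : ∀ i, ((Finset.range p).filter (fun n : ℕ => (p : ℤ) ∣ D i * n + b i)).card ≤ 1 := by
    intro i
    rw [Finset.card_le_one]
    intro n hn m hm
    rw [Finset.mem_filter, Finset.mem_range] at hn hm
    have h2 : (p : ℤ) ∣ D i * ((n : ℤ) - m) := by
      have h3 := dvd_sub hn.2 hm.2
      have e : D i * (n : ℤ) + b i - (D i * m + b i) = D i * ((n : ℤ) - m) := by ring
      rwa [e] at h3
    rcases hpz.dvd_or_dvd h2 with h3 | h3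
    · exfalso
      refine h i h3 ?_
      have h4 := dvd_sub hn.2 (Dvd.dvd.mul_right h3 (n : ℤ))
      have e : D i * (n : ℤ) + b i - D i * n = b i := by ring
      rwa [e] at h4
    · obtain ⟨t, ht⟩ := h3
      have hn1 : (n : ℤ) < p := by exact_mod_cast hn.1
      have hm1 : (m : ℤ) < p := by exact_mod_cast hm.1
      have hn0 : (0 : ℤ) ≤ n := by positivity
      have hm0 : (0 : ℤ) ≤ m := by positivity
      have ht0 : t = 0 := by
        by_contra hne
        rcases lt_or_gt_of_ne hne with ht1 | ht1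
        · nlinarith
        · nlinarith
      rw [ht0] at ht
      omega
  have h2 : (Finset.range p) ⊆ (univ : Finset (Fin 4)).biUnion
      (fun i => (Finset.range p).filter (fun n : ℕ => (p : ℤ) ∣ D i * n + b i)) := by
    intro n hn
    obtain ⟨i, hi⟩ := hcon n
    rw [Finset.mem_biUnion]
    exact ⟨i, Finset.mem_univ _, Finset.mem_filter.2 ⟨hn, hi⟩⟩
  have h3 := (Finset.card_le_card h2).trans Finset.card_biUnion_le
  have h4 : ∑ i : Fin 4, ((Finset.range p).filter (fun n : ℕ => (p : ℤ) ∣ D i * n + b i)).card ≤ 4 := by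
    calc ∑ i : Fin 4, ((Finset.range p).filter (fun n : ℕ => (p : ℤ) ∣ D i * n + b i)).card ≤
        ∑ i : Fin 4, 1 := Finset.sum_le_sum (fun i _ => h1 i)
      _ = 4 := by simp
  rw [Finset.card_range] at h3
  omega

/-- all the tuples of four of the forms are admissible -/
theorem adm_four {T : ℕ} (hT : 2 ≤ T) (r : ℕ) (ω : Fin T → ℕ × ℤ)
    (h1 : ∀ k, 0 < (ω k).1 ∧ Nat.Coprime r (ω k).1 ∧ (r : ℤ) ∣ (ω k).2 ∧ Int.gcd (ω k).2 (ω k).1 = 1)
    (h2 : ∀ i j, i < j → (ω i).1 ∣ (ω j).1 ∧ 6 ∣ r * (ω i).1 ∧ 6 ∣ r * (ω j).1 ∧ ω i ≠ ω j)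
    (f : Fin 4 → Fin T) (p : ℕ) (hp : p.Prime) :
    ∃ n : ℤ, ∀ i, ¬ (p : ℤ) ∣ ((ω (f i)).1 : ℤ) * n + (ω (f i)).2 := by
  have h6 : ∀ k, 6 ∣ r * (ω k).1 := by
    intro k
    rcases Nat.eq_zero_or_pos (k : ℕ) with hk | hk
    · have := (h2 k ⟨1, by omega⟩ (by rw [Fin.lt_def]; simp [hk])).2.1
      exact this
    · have := (h2 ⟨0, by omega⟩ k (by rw [Fin.lt_def]; simpa using hk)).2.2.1
      exact this
  have hcop : ∀ k, ¬ ((p : ℤ) ∣ ((ω k).1 : ℤ) ∧ (p : ℤ) ∣ (ω k).2) := by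
    rintro k ⟨ha, hb⟩
    have h3 := Int.dvd_coe_gcd hb ha
    rw [(h1 k).2.2.2] at h3
    have h4 : p ∣ 1 := by exact_mod_cast h3
    exact hp.one_lt.ne' (Nat.dvd_one.1 h4)
  by_cases hp6 : p ∣ 6
  · refine ⟨1, fun i hdiv => ?_⟩
    have h3 : p ∣ r * (ω (f i)).1 := hp6.trans (h6 _)
    rw [mul_one] at hdiv
    rcases hp.dvd_mul.1 h3 with h4 | h4
    · have h5 : (p : ℤ) ∣ (ω (f i)).2 := (Int.natCast_dvd_natCast.2 h4).trans (h1 _).2.2.1
      have h6 : (p : ℤ) ∣ ((ω (f i)).1 : ℤ) := (dvd_add_left h5).1 hdiv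
      exact hcop _ ⟨h6, h5⟩
    · have h5 : (p : ℤ) ∣ ((ω (f i)).1 : ℤ) := Int.natCast_dvd_natCast.2 h4
      have h6 : (p : ℤ) ∣ (ω (f i)).2 := (dvd_add_right h5).1 hdiv
      exact hcop _ ⟨h5, h6⟩
  · have hp5 : 5 ≤ p := by
      by_contra hlt
      push Not at hlt
      have := hp.two_le
      interval_cases p
      · exact hp6 (by norm_num)
      · exact hp6 (by norm_num)
      · exact absurd hp (by norm_num)
    exact avoid_five p hp hp5 (fun i => ((ω (f i)).1 : ℤ)) (fun i => (ω (f i)).2)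
      (fun i ha hb => hcop _ ⟨ha, hb⟩)

theorem large_T (C δ ε : ℝ) (hδ : 0 < δ) (hε : 0 < ε) :
    ∃ T : ℕ, 2 ≤ T ∧ C * (T : ℝ) ^ (2 - δ) + T ≤ ε / 4 * (T : ℝ) ^ 2 := by
  have h1 : Tendsto (fun x : ℝ => C * x ^ (-δ) + x⁻¹) atTop (nhds (C * 0 + 0)) :=
    ((tendsto_rpow_neg_atTop hδ).const_mul C).add tendsto_inv_atTop_zero
  rw [mul_zero, add_zero] at h1
  have h2 := h1.comp (tendsto_natCast_atTop_atTop (R := ℝ))
  have h3 := (h2.eventually (ge_mem_nhds (show (0 : ℝ) < ε / 4 by positivity))).and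
    (eventually_ge_atTop 2)
  obtain ⟨T, hT, hT2⟩ := h3.exists
  refine ⟨T, hT2, ?_⟩
  have hT0 : (0 : ℝ) < T := by
    have : 0 < T := by omega
    exact_mod_cast this
  have h4 : C * (T : ℝ) ^ (-δ) + (T : ℝ)⁻¹ ≤ ε / 4 := hT
  have h5 : (T : ℝ) ^ (2 - δ) = (T : ℝ) ^ (-δ) * (T : ℝ) ^ 2 := by
    have h6 : (2 : ℝ) - δ = -δ + 2 := by ring
    rw [h6, Real.rpow_add hT0]
    norm_num
  rw [h5]
  have h6 : C * ((T : ℝ) ^ (-δ) * (T : ℝ) ^ 2) + T = (C * (T : ℝ) ^ (-δ) + (T : ℝ)⁻¹) * (T : ℝ) ^ 2 := by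
    field_simp
  rw [h6]
  exact mul_le_mul_of_nonneg_right h4 (by positivity)

open Classical in
/-- the deterministic bound -/
theorem det_of_pairs (P : ℤ × ℤ → ℤ × ℤ → Prop) (hP : ∀ f g, P f g → P g f) (G : ℤ → ℕ → Prop)
    (HG : ∀ (D D' : ℕ) (b b' : ℤ), 0 < D → D ∣ D' → P ((D : ℤ), b) ((D' : ℤ), b') →
      G (b' - (D' / D : ℕ) * b) (D' / D)) (C δ : ℝ) (hδ : 0 < δ)
    (H : ∀ V : Finset (ℤ × ℤ), (∀ f ∈ V, 0 < f.1) →
      (∀ f : Fin 4 → ℤ × ℤ, (∀ i, f i ∈ V) →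
        ∀ p : ℕ, p.Prime → ∃ n : ℤ, ∀ i, ¬ ((p : ℤ) ∣ (f i).1 * n + (f i).2)) →
      1 / 3 * (V.card : ℝ) ^ 2 - C * (V.card : ℝ) ^ (2 - δ) ≤
        (((V ×ˢ V).filter (fun x => P x.1 x.2)).card : ℝ))
    (r : ℕ) (ε : ℝ) (hε : 0 < ε) :
    ∃ T : ℕ, 1 ≤ T ∧ Det r G T ((1 / 3 - ε / 4) * (T : ℝ) ^ 2 / 2) := by
  obtain ⟨T, hT2, hT⟩ := large_T C δ ε hδ hε
  refine ⟨T, by omega, ?_⟩
  intro ω h1 h2
  obtain ⟨v, hv⟩ : ∃ v : Fin T → ℤ × ℤ, ∀ k, v k = (((ω k).1 : ℤ), (ω k).2) := ⟨_, fun _ => rfl⟩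
  have hvinj : Function.Injective v := by
    intro i j hij
    rw [hv, hv, Prod.mk.injEq] at hij
    have h3 : ω i = ω j := by
      refine Prod.ext ?_ hij.2
      exact_mod_cast hij.1
    rcases lt_trichotomy i j with h4 | h4 | h4
    · exact absurd h3 (h2 i j h4).2.2.2
    · exact h4
    · exact absurd h3.symm (h2 j i h4).2.2.2
  have hcard : (univ.image v).card = T := by
    rw [Finset.card_image_of_injective _ hvinj, Finset.card_univ, Fintype.card_fin]
  have hH := H (univ.image v)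
    (by
      intro f hf
      obtain ⟨k, _, rfl⟩ := Finset.mem_image.1 hf
      rw [hv]
      exact Int.natCast_pos.2 (h1 k).1)
    (by
      intro f hf p hp
      have h3 : ∀ i, ∃ k, v k = f i := fun i => by
        obtain ⟨k, _, hk⟩ := Finset.mem_image.1 (hf i)
        exact ⟨k, hk⟩
      choose g hg using h3
      obtain ⟨n, hn⟩ := adm_four hT2 r ω h1 h2 g p hp
      refine ⟨n, fun i => ?_⟩
      rw [← hg i, hv]
      exact hn i)
  rw [hcard] at hH
  -- count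
  obtain ⟨N, hN⟩ : ∃ N : ℕ, N = {x : Fin T × Fin T | x.1 < x.2 ∧
      G ((ω x.2).2 - ((ω x.2).1 / (ω x.1).1 : ℕ) * (ω x.1).2) ((ω x.2).1 / (ω x.1).1)}.ncard :=
    ⟨_, rfl⟩
  rw [← hN]
  have hcount : (((univ.image v) ×ˢ (univ.image v)).filter (fun x => P x.1 x.2)).card ≤ 2 * N + T := by
    obtain ⟨Q, hQ⟩ : ∃ Q : Finset (Fin T × Fin T), Q = (univ ×ˢ univ : Finset (Fin T × Fin T)).filter
      (fun x => P (v x.1) (v x.2)) := ⟨_, rfl⟩
    have h3 : (((univ.image v) ×ˢ (univ.image v)).filter (fun x => P x.1 x.2)).card ≤ Q.card := by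
      have h4 : (((univ.image v) ×ˢ (univ.image v)).filter (fun x => P x.1 x.2)) ⊆
          Q.image (fun x => (v x.1, v x.2)) := by
        intro x hx
        rw [Finset.mem_filter, Finset.mem_product] at hx
        obtain ⟨⟨hx1, hx2⟩, hx3⟩ := hx
        obtain ⟨i, _, hi⟩ := Finset.mem_image.1 hx1
        obtain ⟨j, _, hj⟩ := Finset.mem_image.1 hx2
        rw [Finset.mem_image]
        refine ⟨(i, j), ?_, ?_⟩
        · rw [hQ, Finset.mem_filter]
          refine ⟨Finset.mem_product.2 ⟨Finset.mem_univ _, Finset.mem_univ _⟩, ?_⟩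
          show P (v i) (v j)
          rw [hi, hj]
          exact hx3
        · show (v i, v j) = x
          rw [hi, hj]
      exact (Finset.card_le_card h4).trans Finset.card_image_le
    have h4 : Q ⊆ ((univ ×ˢ univ : Finset (Fin T × Fin T)).filter (fun x => x.1 = x.2)) ∪
        (Q.filter (fun x => x.1 < x.2) ∪ Q.filter (fun x => x.2 < x.1)) := by
      intro x hx
      rw [Finset.mem_union, Finset.mem_union, Finset.mem_filter, Finset.mem_filter,
        Finset.mem_filter]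
      rcases lt_trichotomy x.1 x.2 with h5 | h5 | h5
      · right; left; exact ⟨hx, h5⟩
      · left; exact ⟨Finset.mem_product.2 ⟨Finset.mem_univ _, Finset.mem_univ _⟩, h5⟩
      · right; right; exact ⟨hx, h5⟩
    have h5 : ((univ ×ˢ univ : Finset (Fin T × Fin T)).filter (fun x => x.1 = x.2)).card ≤ T := by
      calc ((univ ×ˢ univ : Finset (Fin T × Fin T)).filter (fun x => x.1 = x.2)).card ≤
          (univ : Finset (Fin T)).card := by
            refine Finset.card_le_card_of_injOn Prod.fst (fun _ _ => Finset.mem_coe.2 (Finset.mem_univ _)) ?_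
            intro x hx y hy hxy
            rw [Finset.mem_coe, Finset.mem_filter] at hx hy
            exact Prod.ext hxy (by rw [← hx.2, ← hy.2]; exact hxy)
        _ = T := by rw [Finset.card_univ, Fintype.card_fin]
    have h6 : (Q.filter (fun x => x.1 < x.2)).card ≤ N := by
      rw [hN, ← Set.ncard_coe_finset]
      refine Set.ncard_le_ncard ?_ (Set.toFinite _)
      intro x hx
      rw [Finset.mem_coe, Finset.mem_filter, hQ, Finset.mem_filter] at hx
      refine ⟨hx.2, ?_⟩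
      have h7 := hx.1.2
      rw [hv, hv] at h7
      exact HG _ _ _ _ (h1 _).1 (h2 _ _ hx.2).1 h7
    have h7 : (Q.filter (fun x => x.2 < x.1)).card ≤ (Q.filter (fun x => x.1 < x.2)).card := by
      refine Finset.card_le_card_of_injOn Prod.swap ?_ (Prod.swap_injective.injOn)
      intro x hx
      rw [Finset.mem_coe, Finset.mem_filter, hQ, Finset.mem_filter] at hx
      rw [Finset.mem_coe, Finset.mem_filter, hQ, Finset.mem_filter]
      exact ⟨⟨Finset.mem_product.2 ⟨Finset.mem_univ _, Finset.mem_univ _⟩, hP _ _ hx.1.2⟩, hx.2⟩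
    have h8 := (Finset.card_le_card h4).trans (Finset.card_union_le _ _)
    have h9 := Finset.card_union_le (Q.filter (fun x => x.1 < x.2)) (Q.filter (fun x => x.2 < x.1))
    omega
  have h3 : ((((univ.image v) ×ˢ (univ.image v)).filter (fun x => P x.1 x.2)).card : ℝ) ≤
      2 * N + T := by exact_mod_cast hcount
  have h4 := hH.trans h3
  nlinarith

end Pool.Agent.Y863.TP
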