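import Mathlib

/-! Counting the admissible constants of a slope in an interval. -/

set_option autoImplicit false

namespace Pool.Agent.Y863.TP

open Finset

/-- the admissible constants, divisible by `r`, of the slope `D` in `[c, c + A)` -/
noncomputable def Us (r D : ℕ) (c : ℤ) (A : ℕ) : Finset ℤ :=
  (Finset.Ico c (c + A)).filter (fun a => (r : ℤ) ∣ a ∧ Int.gcd a D = 1 ∧ (2 : ℤ) ∣ a * D)

/-- an admissible residue -/
theorem exists_res (r D : ℕ) (hrD : Nat.Coprime r D) :
    ∃ u : ℤ, (r : ℤ) ∣ u ∧ Int.gcd u D = 1 ∧ (2 : ℤ) ∣ u * D := by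
  by_cases h2 : 2 ∣ D
  · refine ⟨r, dvd_rfl, ?_, ?_⟩
    · rw [Int.gcd_natCast_natCast]; exact hrD
    · exact Dvd.dvd.mul_left (by exact_mod_cast h2) _
  · refine ⟨((2 * r : ℕ) : ℤ), ?_, ?_, ?_⟩
    · exact_mod_cast Dvd.intro_left 2 rfl
    · rw [Int.gcd_natCast_natCast]
      exact Nat.Coprime.mul_left ((Nat.Prime.coprime_iff_not_dvd Nat.prime_two).2 h2) hrD
    · exact ⟨r * D, by push_cast; ring⟩

/-- many admissible constants in long intervals -/
theorem card_Us_ge (r D : ℕ) (hr0 : 0 < r) (hD : 0 < D) (hrD : Nat.Coprime r D) (c : ℤ) (A n : ℕ)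
    (hA : 2 * r * D * n ≤ A) : n ≤ (Us r D c A).card := by
  obtain ⟨u, hu1, hu2, hu3⟩ := exists_res r D hrD
  set m : ℕ := 2 * r * D with hm
  have hm0 : 0 < m := by positivity
  have hmz : (0 : ℤ) < m := by exact_mod_cast hm0
  set c' : ℤ := c + (u - c) % m with hc'
  have hc1 : c ≤ c' := by have := Int.emod_nonneg (u - c) hmz.ne'; omega
  have hc2 : c' < c + m := by have := Int.emod_lt_of_pos (u - c) hmz; omega
  have hc3 : (m : ℤ) ∣ c' - u := by
    have h1 := Int.emod_add_mul_ediv (u - c) m
    refine ⟨-((u - c) / m), ?_⟩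
    rw [hc']
    linarith
  have hinj : Set.InjOn (fun k : ℕ => c' + m * (k : ℤ)) (Finset.range n : Set ℕ) := by
    intro k _ l _ h
    have h1 : (m : ℤ) * k = m * l := by
      have : c' + m * (k : ℤ) = c' + m * (l : ℤ) := h
      linarith
    exact_mod_cast mul_left_cancel₀ hmz.ne' h1
  calc n = (Finset.range n).card := (Finset.card_range n).symm
    _ = ((Finset.range n).image (fun k : ℕ => c' + m * (k : ℤ))).card :=
        (Finset.card_image_of_injOn hinj).symm
    _ ≤ (Us r D c A).card := Finset.card_le_card ?_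
  intro b hb
  obtain ⟨k, hk, rfl⟩ := Finset.mem_image.1 hb
  rw [Finset.mem_range] at hk
  have hk' : (k : ℤ) + 1 ≤ n := by exact_mod_cast hk
  have hAz : (m : ℤ) * n ≤ A := by exact_mod_cast hA
  obtain ⟨t, ht⟩ := hc3
  have hb' : c' + m * (k : ℤ) = u + m * (t + k) := by linarith
  unfold Us
  rw [Finset.mem_filter, Finset.mem_Ico]
  refine ⟨⟨?_, ?_⟩, ?_, ?_, ?_⟩
  · have : 0 ≤ (m : ℤ) * k := by positivity
    linarith
  · have : (m : ℤ) * (k + 1) ≤ m * n := mul_le_mul_of_nonneg_left hk' hmz.le
    linarith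
  · show (r : ℤ) ∣ c' + m * (k : ℤ)
    rw [hb']
    refine dvd_add hu1 (Dvd.dvd.mul_right ?_ _)
    rw [hm]; push_cast
    exact ⟨2 * D, by ring⟩
  · show Int.gcd (c' + m * (k : ℤ)) D = 1
    rw [hb']
    have h1 : u + (m : ℤ) * (t + k) = u + (2 * r * (t + k)) * (D : ℤ) := by rw [hm]; push_cast; ring
    rw [h1, Int.gcd_add_mul_right_left]
    exact hu2
  · show (2 : ℤ) ∣ (c' + m * (k : ℤ)) * D
    rw [hb', add_mul]
    refine dvd_add hu3 ?_
    rw [hm]; push_cast
    exact ⟨r * D * (t + k) * D, by ring⟩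

/-- a translation changes the number of the elements of an interval with a property only a little -/
theorem shift_count (P : ℤ → Prop) [DecidablePred P] (c : ℤ) (A : ℕ) (v : ℤ) :
    (((Finset.Ico c (c + A)).filter (fun b => P (b - v))).card : ℝ) ≤
      ((Finset.Ico c (c + A)).filter P).card + |(v : ℝ)| := by
  classical
  have h1 : ((Finset.Ico c (c + A)).filter (fun b => P (b - v))).card ≤
      (((Finset.Ico c (c + A)).filter P) ∪ (Finset.Ico (c - v) (c + A - v) \ Finset.Ico c (c + A))).card := by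
    refine Finset.card_le_card_of_injOn (fun b => b - v) ?_ ?_
    · intro b hb
      rw [Finset.mem_coe, Finset.mem_filter, Finset.mem_Ico] at hb
      rw [Finset.mem_coe, Finset.mem_union]
      by_cases hc : b - v ∈ Finset.Ico c (c + A)
      · left
        rw [Finset.mem_filter]
        exact ⟨hc, hb.2⟩
      · right
        rw [Finset.mem_sdiff, Finset.mem_Ico]
        refine ⟨⟨?_, ?_⟩, hc⟩
        · show c - v ≤ b - v
          omega
        · show b - v < c + A - v
          omega
    · intro b _ b' _ h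
      have : b - v = b' - v := h
      omega
  have h2 : (Finset.Ico (c - v) (c + A - v) \ Finset.Ico c (c + A)).card ≤ v.natAbs := by
    rcases le_total 0 v with hv | hv
    · have : (Finset.Ico (c - v) (c + A - v) \ Finset.Ico c (c + A)) ⊆ Finset.Ico (c - v) c := by
        intro b hb
        rw [Finset.mem_sdiff, Finset.mem_Ico, Finset.mem_Ico] at hb
        rw [Finset.mem_Ico]
        omega
      refine (Finset.card_le_card this).trans ?_
      rw [Int.card_Ico]
      omega
    · have : (Finset.Ico (c - v) (c + A - v) \ Finset.Ico c (c + A)) ⊆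
          Finset.Ico (c + A) (c + A - v) := by
        intro b hb
        rw [Finset.mem_sdiff, Finset.mem_Ico, Finset.mem_Ico] at hb
        rw [Finset.mem_Ico]
        omega
      refine (Finset.card_le_card this).trans ?_
      rw [Int.card_Ico]
      omega
  have h3 := h1.trans (Finset.card_union_le _ _)
  have h4 : ((Finset.Ico c (c + A)).filter (fun b => P (b - v))).card ≤
      ((Finset.Ico c (c + A)).filter P).card + v.natAbs := by omega
  have h5 : ((v.natAbs : ℕ) : ℝ) = |(v : ℝ)| := by
    rw [Nat.cast_natAbs]; push_cast; rfl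
  rw [← h5]
  exact_mod_cast h4

end Pool.Agent.Y863.TP
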