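import Pool.Agent.Y863.TP.Prob

/-! Folner sets of slopes: the contradiction. -/

set_option autoImplicit false

namespace Pool.Agent.Y863.TP

open Finset

theorem card_lt_le (T : ℕ) :
    2 * ((univ ×ˢ univ : Finset (Fin T × Fin T)).filter (fun x => x.1 < x.2)).card ≤ T ^ 2 := by
  classical
  set P := (univ ×ˢ univ : Finset (Fin T × Fin T)).filter (fun x => x.1 < x.2) with hP
  set Q := (univ ×ˢ univ : Finset (Fin T × Fin T)).filter (fun x => x.2 < x.1) with hQ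
  have h1 : P.card ≤ Q.card := by
    refine Finset.card_le_card_of_injOn Prod.swap ?_ (Prod.swap_injective.injOn)
    intro x hx
    rw [Finset.mem_coe, hP, Finset.mem_filter] at hx
    rw [Finset.mem_coe, hQ, Finset.mem_filter]
    exact ⟨Finset.mem_product.2 ⟨Finset.mem_univ _, Finset.mem_univ _⟩, hx.2⟩
  have h2 : Disjoint P Q := by
    rw [Finset.disjoint_left]
    intro x hx hx'
    rw [hP, Finset.mem_filter] at hx
    rw [hQ, Finset.mem_filter] at hx'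
    exact lt_asymm hx.2 hx'.2
  have h3 : P.card + Q.card ≤ T ^ 2 := by
    rw [← Finset.card_union_of_disjoint h2]
    refine (Finset.card_le_univ _).trans ?_
    rw [Fintype.card_prod, Fintype.card_fin, sq]
  omega

/-- intervals with many admissible constants -/
theorem exists_len (r : ℕ) (hr : 0 < r) (F : Finset ℕ) (hF : ∀ D ∈ F, 0 < D ∧ Nat.Coprime r D)
    (κ : ℝ) (hκ : 0 < κ) (B : ℕ) : ∃ A₀ : ℕ, ∀ A : ℕ, A₀ ≤ A → ∀ c : ℤ, ∀ D ∈ F,
      ((B : ℝ) * D + 1) ≤ κ * ((Us r D c A).card : ℝ) := by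
  refine ⟨∑ D ∈ F, 2 * r * D * ⌈((B : ℝ) * D + 1) / κ⌉₊, fun A hA c D hD => ?_⟩
  have h1 : 2 * r * D * ⌈((B : ℝ) * D + 1) / κ⌉₊ ≤ A :=
    (Finset.single_le_sum (f := fun D : ℕ => 2 * r * D * ⌈((B : ℝ) * D + 1) / κ⌉₊)
      (fun _ _ => Nat.zero_le _) hD).trans hA
  have h2 := card_Us_ge r D hr (hF D hD).1 (hF D hD).2 c A _ h1
  have h3 : ((B : ℝ) * D + 1) / κ ≤ ((Us r D c A).card : ℝ) :=
    (Nat.le_ceil _).trans (by exact_mod_cast h2)
  rw [div_le_iff₀ hκ] at h3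
  linarith

theorem final_arith (T : ℕ) (hT : 1 ≤ T) (ε : ℝ) (hε : 0 < ε) (hε' : ε < 1 / 3) (N : ℝ)
    (hN : 2 * N ≤ (T : ℝ) ^ 2)
    (h : (1 / 3 - ε / 4) * (T : ℝ) ^ 2 / 2 ≤ N * (((1 / 3 - ε) + ε / (4 * (T : ℝ) ^ 2)) +
      (1 / 3 - ε / 4) * (T : ℝ) ^ 2 / 2 * (4 * (ε / (4 * (T : ℝ) ^ 2))))) : False := by
  have hT' : (1 : ℝ) ≤ T := by exact_mod_cast hT
  have hT2 : (1 : ℝ) ≤ (T : ℝ) ^ 2 := by nlinarith
  have h1 : ε / (4 * (T : ℝ) ^ 2) ≤ ε / 4 := by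
    rw [div_le_div_iff₀ (by positivity) (by norm_num)]
    nlinarith
  have h2 : (1 / 3 - ε / 4) * (T : ℝ) ^ 2 / 2 * (4 * (ε / (4 * (T : ℝ) ^ 2))) =
      (1 / 3 - ε / 4) * ε / 2 := by
    field_simp
  rw [h2] at h
  have h3 : (1 / 3 - ε / 4) * ε / 2 ≤ ε / 6 := by nlinarith
  have h4 : ((1 / 3 - ε) + ε / (4 * (T : ℝ) ^ 2)) + (1 / 3 - ε / 4) * ε / 2 ≤ 1 / 3 - ε / 2 := by
    linarith
  have h5 : 0 ≤ ((1 / 3 - ε) + ε / (4 * (T : ℝ) ^ 2)) + (1 / 3 - ε / 4) * ε / 2 := by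
    have : 0 ≤ ε / (4 * (T : ℝ) ^ 2) := by positivity
    nlinarith
  have h6 : N * (((1 / 3 - ε) + ε / (4 * (T : ℝ) ^ 2)) + (1 / 3 - ε / 4) * ε / 2) ≤
      (T : ℝ) ^ 2 / 2 * (1 / 3 - ε / 2) := by
    calc N * (((1 / 3 - ε) + ε / (4 * (T : ℝ) ^ 2)) + (1 / 3 - ε / 4) * ε / 2) ≤
        (T : ℝ) ^ 2 / 2 * (((1 / 3 - ε) + ε / (4 * (T : ℝ) ^ 2)) + (1 / 3 - ε / 4) * ε / 2) :=
          mul_le_mul_of_nonneg_right (by linarith) h5
      _ ≤ _ := mul_le_mul_of_nonneg_left h4 (by positivity)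
  nlinarith

/-- the abstract bound -/
theorem abstract_bound {S : Submonoid ℕ} (h0 : (0 : ℕ) ∉ S) (r : ℕ) (hr : 0 < r)
    (hrS : ∀ m ∈ S, Nat.Coprime r m) (s0 : ℕ) (hs0 : s0 ∈ S) (h6 : 6 ∣ r * s0)
    (G : ℤ → ℕ → Prop) (ε : ℝ) (hε : 0 < ε) (hε' : ε < 1 / 3) (T : ℕ) (hT : 1 ≤ T)
    (hdet : Det r G T ((1 / 3 - ε / 4) * (T : ℝ) ^ 2 / 2)) :
    ∃ K : ℕ, ∃ κ : ℝ, 0 < κ ∧ ∀ F : Finset ℕ, F.Nonempty → (∀ D ∈ F, D ∈ S) → Inv S F K κ →
      ∃ A₀ : ℕ, ∀ A : ℕ, A₀ ≤ A → ∀ c : ℤ, (1 / 3 - ε) * (F.card : ℝ) ≤ avg r G F c A := by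
  classical
  by_contra hcon
  push Not at hcon
  have hpos : ∀ m ∈ S, 0 < m := fun m hm => Nat.pos_of_ne_zero (fun h => h0 (h ▸ hm))
  have hT' : (1 : ℝ) ≤ T := by exact_mod_cast hT
  obtain ⟨κ, hκ⟩ : ∃ κ : ℝ, κ = ε / (4 * (T : ℝ) ^ 2) := ⟨_, rfl⟩
  have hκ0 : 0 < κ := by rw [hκ]; positivity
  -- the choice at every bound
  have hstep : ∀ B : ℕ, ∃ F : Finset ℕ, ∃ A : ℕ, ∃ c : ℤ, F.Nonempty ∧ (∀ D ∈ F, D ∈ S) ∧
      Inv S F (B * B * s0 + s0) κ ∧ (∀ D ∈ F, ((B : ℝ) * D + 1) ≤ κ * ((Us r D c A).card : ℝ)) ∧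
      avg r G F c A < (1 / 3 - ε) * (F.card : ℝ) := by
    intro B
    obtain ⟨F, hF, hFS, hI, hbad⟩ := hcon (B * B * s0 + s0) κ hκ0
    obtain ⟨A₀, hA₀⟩ := exists_len r hr F (fun D hD => ⟨hpos D (hFS D hD), hrS D (hFS D hD)⟩) κ hκ0 B
    obtain ⟨A, hA, c, hc⟩ := hbad A₀
    exact ⟨F, A, c, hF, hFS, hI, hA₀ A hA c, hc⟩
  choose F A c hF hFS hI hU hbad using hstep
  -- the bounds
  obtain ⟨Bd, hBd⟩ : ∃ Bd : ℕ → ℕ, ∀ n, Bd (n + 1) =
      Bd n + (∑ D ∈ F (Bd n), D) + (c (Bd n)).natAbs + A (Bd n) := by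
    refine ⟨fun n => Nat.rec (motive := fun _ => ℕ) 0
      (fun _ B => B + (∑ D ∈ F B, D) + (c B).natAbs + A B) n, fun n => rfl⟩
  have hmono : Monotone Bd := monotone_nat_of_le_succ (fun n => by rw [hBd]; omega)
  have hFle : ∀ i j : ℕ, i < j → ∀ D ∈ F (Bd i), D ≤ Bd j := by
    intro i j hij D hD
    refine le_trans ?_ (hmono (Nat.succ_le_of_lt hij))
    show D ≤ Bd (i + 1)
    rw [hBd]
    have : D ≤ ∑ D ∈ F (Bd i), D := Finset.single_le_sum (f := fun D : ℕ => D) (fun _ _ => Nat.zero_le _) hD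
    omega
  have hble : ∀ i j : ℕ, i < j → ∀ b ∈ Finset.Ico (c (Bd i)) (c (Bd i) + A (Bd i)), |b| ≤ Bd j := by
    intro i j hij b hb
    have h1 : |b| ≤ (Bd (i + 1) : ℤ) := by
      rw [hBd]
      rw [Finset.mem_Ico] at hb
      push_cast
      have h2 : (0 : ℤ) ≤ Bd i := by positivity
      have h3 : (0 : ℤ) ≤ ∑ D ∈ F (Bd i), (D : ℤ) := Finset.sum_nonneg (fun _ _ => by positivity)
      rw [abs_le]
      have h4 : -|c (Bd i)| ≤ c (Bd i) := neg_abs_le _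
      have h5 : c (Bd i) ≤ |c (Bd i)| := le_abs_self _
      have h6 : (0 : ℤ) ≤ A (Bd i) := by positivity
      constructor <;> linarith
    refine h1.trans ?_
    exact_mod_cast hmono (Nat.succ_le_of_lt hij)
  have hUpos : ∀ B : ℕ, ∀ D ∈ F B, 0 < (Us r D (c B) (A B)).card := by
    intro B D hD
    have h1 := hU B D hD
    have h2 : (0 : ℝ) ≤ (B : ℝ) * D := by positivity
    rcases Nat.eq_zero_or_pos (Us r D (c B) (A B)).card with h | h
    · rw [h] at h1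
      norm_num at h1
      linarith
    · exact h
  have hav := averaging (T := T) (fun k => Om r (F (Bd k)) (c (Bd k)) (A (Bd k)))
    (fun k => wt r (F (Bd k)) (c (Bd k)) (A (Bd k)))
    (fun k x _ => wt_nonneg _ _ _ _ _)
    (fun k => sum_wt (hF _) (hUpos _))
    (fun i j x y => Reg r (F (Bd j)) x y)
    (fun i j x y => G (y.2 - (y.1 / x.1 : ℕ) * x.2) (y.1 / x.1))
    ((1 / 3 - ε / 4) * (T : ℝ) ^ 2 / 2) ((1 / 3 - ε) + κ) (4 * κ)
    (by
      have : 0 ≤ (1 / 3 - ε / 4) := by linarith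
      positivity)
    (by
      intro i j hij
      have h1 := prob_good r G (κ := κ) (F (Bd i)) (F (Bd j)) (hF _) (hF _)
        (fun D hD => hpos D (hFS _ D hD)) (c (Bd i)) (c (Bd j)) (A (Bd i)) (A (Bd j)) (Bd j)
        (hble i j hij) (hUpos _) (hUpos _)
        (fun D hD => by have := hU (Bd j) D hD; linarith)
      refine le_trans (le_of_eq ?_) (h1.trans ?_)
      · refine Finset.sum_congr rfl fun x _ => Finset.sum_congr rfl fun y _ => ?_
        by_cases h : Reg r (F (Bd j)) x y ∧ G (y.2 - (y.1 / x.1 : ℕ) * x.2) (y.1 / x.1)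
        · rw [if_pos h]
        · rw [if_neg h]
      · have h2 : (0 : ℝ) < (F (Bd j)).card := by exact_mod_cast (hF (Bd j)).card_pos
        have h3 := hbad (Bd j)
        have h4 : avg r G (F (Bd j)) (c (Bd j)) (A (Bd j)) / (F (Bd j)).card ≤ 1 / 3 - ε := by
          rw [div_le_iff₀ h2]
          exact h3.le
        linarith)
    (by
      intro i j hij
      have h1 := prob_irreg h0 r s0 hs0 h6 (κ := κ) (F (Bd i)) (F (Bd j)) (hF _) (hF _)
        (hFS _) (Bd i * Bd i * s0 + s0) (Bd j * Bd j * s0 + s0) (hI _) (hI _) (Nat.le_add_left _ _)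
        (fun D hD => by
          have h2 := hFle i j hij D hD
          have h3 : D * D * s0 ≤ Bd j * Bd j * s0 :=
            Nat.mul_le_mul_right _ (Nat.mul_le_mul h2 h2)
          omega) (c (Bd i)) (c (Bd j)) (A (Bd i)) (A (Bd j)) (hUpos _)
        (fun D hD => by
          have h2 := hU (Bd j) D hD
          have h3 : (0 : ℝ) ≤ (Bd j : ℝ) * D := by positivity
          linarith)
      refine le_trans (le_of_eq ?_) h1
      refine Finset.sum_congr rfl fun x _ => Finset.sum_congr rfl fun y _ => ?_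
      by_cases h : Reg r (F (Bd j)) x y
      · rw [if_pos h]
      · rw [if_neg h])
    (by
      intro ω hω _ hE
      rw [Fintype.mem_piFinset] at hω
      have hmem := fun k => (mem_Om (ω k)).1 (hω k)
      have h1 := hdet ω
        (fun k => by
          have h2 := hmem k
          have h3 := h2.2
          unfold Us at h3
          rw [Finset.mem_filter] at h3
          exact ⟨hpos _ (hFS _ _ h2.1), hrS _ (hFS _ _ h2.1), h3.2.1, h3.2.2.1⟩)
        (fun i j hij => by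
          have h2 := hE i j hij
          exact ⟨dvd_trans (Dvd.intro _ rfl) h2.1, h2.2.2.1, h2.2.2.2.1, h2.2.2.2.2⟩)
      refine h1.trans ?_
      rw [Nat.cast_le]
      have h2 : {x : Fin T × Fin T | x.1 < x.2 ∧
          G ((ω x.2).2 - ((ω x.2).1 / (ω x.1).1 : ℕ) * (ω x.1).2) ((ω x.2).1 / (ω x.1).1)} =
          (((univ ×ˢ univ : Finset (Fin T × Fin T)).filter (fun x => x.1 < x.2 ∧
            G ((ω x.2).2 - ((ω x.2).1 / (ω x.1).1 : ℕ) * (ω x.1).2) ((ω x.2).1 / (ω x.1).1)) :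
            Finset (Fin T × Fin T)) : Set (Fin T × Fin T)) := by
        ext x
        simp only [Set.mem_ofPred_eq, Finset.coe_filter, Finset.mem_product, Finset.mem_univ,
          true_and]
      rw [h2, Set.ncard_coe_finset])
  refine final_arith T hT ε hε hε' _ ?_ (hκ ▸ hav)
  have h1 := card_lt_le T
  exact_mod_cast h1

end Pool.Agent.Y863.TP
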