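import Pool.Agent.Y863.TP.Avg
import Pool.Agent.Y863.TP.Dens

/-! Folner sets of slopes: the contradiction argument. -/

set_option autoImplicit false

namespace Pool.Agent.Y863.TP

open Finset

/-- deterministic lower bound for the number of good pairs in chains of `T` forms -/
def Det (r : ℕ) (G : ℤ → ℕ → Prop) (T : ℕ) (s : ℝ) : Prop :=
  ∀ ω : Fin T → ℕ × ℤ,
    (∀ k, 0 < (ω k).1 ∧ Nat.Coprime r (ω k).1 ∧ (r : ℤ) ∣ (ω k).2 ∧ Int.gcd (ω k).2 (ω k).1 = 1) →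
    (∀ i j, i < j → (ω i).1 ∣ (ω j).1 ∧ 6 ∣ r * (ω i).1 ∧ 6 ∣ r * (ω j).1 ∧ ω i ≠ ω j) →
    s ≤ ({x : Fin T × Fin T | x.1 < x.2 ∧
      G ((ω x.2).2 - ((ω x.2).1 / (ω x.1).1 : ℕ) * (ω x.1).2) ((ω x.2).1 / (ω x.1).1)}.ncard : ℝ)

/-- approximate invariance under multiplication -/
def Inv (S : Submonoid ℕ) (F : Finset ℕ) (K : ℕ) (κ : ℝ) : Prop :=
  ∀ m ∈ S, m ≤ K → (1 - κ) * (F.card : ℝ) ≤ ((F.filter (fun D => m * D ∈ F)).card : ℝ)

/-- the average over `D` in `F` of the proportion of the good constants among the admissible ones -/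
noncomputable def avg (r : ℕ) (G : ℤ → ℕ → Prop) (F : Finset ℕ) (c : ℤ) (A : ℕ) : ℝ :=
  open Classical in
  ∑ D ∈ F, (((Finset.Ico c (c + A)).filter (fun a => (r : ℤ) ∣ a ∧ G a D)).card : ℝ) /
    ((Us r D c A).card : ℝ)

/-- the sample space of one form -/
noncomputable def Om (r : ℕ) (F : Finset ℕ) (c : ℤ) (A : ℕ) : Finset (ℕ × ℤ) :=
  (F ×ˢ Finset.Ico c (c + A)).filter (fun x => x.2 ∈ Us r x.1 c A)

theorem mem_Om {r : ℕ} {F : Finset ℕ} {c : ℤ} {A : ℕ} (p : ℕ × ℤ) :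
    p ∈ Om r F c A ↔ p.1 ∈ F ∧ p.2 ∈ Us r p.1 c A := by
  unfold Om
  rw [Finset.mem_filter, Finset.mem_product]
  constructor
  · rintro ⟨⟨h1, _⟩, h2⟩; exact ⟨h1, h2⟩
  · rintro ⟨h1, h2⟩
    refine ⟨⟨h1, ?_⟩, h2⟩
    unfold Us at h2
    exact (Finset.mem_filter.1 h2).1

theorem sum_Om {r : ℕ} {F : Finset ℕ} {c : ℤ} {A : ℕ} (f : ℕ × ℤ → ℝ) :
    ∑ p ∈ Om r F c A, f p = ∑ D ∈ F, ∑ b ∈ Us r D c A, f (D, b) :=
  Finset.sum_finset_product _ _ _ (fun p => mem_Om p)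

/-- the weights -/
noncomputable def wt (r : ℕ) (F : Finset ℕ) (c : ℤ) (A : ℕ) (x : ℕ × ℤ) : ℝ :=
  1 / ((F.card : ℝ) * ((Us r x.1 c A).card : ℝ))

theorem wt_nonneg (r : ℕ) (F : Finset ℕ) (c : ℤ) (A : ℕ) (x : ℕ × ℤ) : 0 ≤ wt r F c A x := by
  unfold wt; positivity

theorem sum_wt {r : ℕ} {F : Finset ℕ} {c : ℤ} {A : ℕ} (hF : F.Nonempty)
    (hU : ∀ D ∈ F, 0 < (Us r D c A).card) : ∑ x ∈ Om r F c A, wt r F c A x = 1 := by
  rw [sum_Om]
  have h1 : ∀ D ∈ F, ∑ b ∈ Us r D c A, wt r F c A (D, b) = 1 / (F.card : ℝ) := by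
    intro D hD
    have h2 : ((Us r D c A).card : ℝ) ≠ 0 := by exact_mod_cast (hU D hD).ne'
    simp only [wt, Finset.sum_const, nsmul_eq_mul]
    field_simp
  rw [Finset.sum_congr rfl h1, Finset.sum_const, nsmul_eq_mul]
  have h3 : (F.card : ℝ) ≠ 0 := by exact_mod_cast hF.card_pos.ne'
  field_simp

/-- regular pairs of forms -/
def Reg (r : ℕ) (F : Finset ℕ) (x y : ℕ × ℤ) : Prop :=
  x.1 * x.1 ∣ y.1 ∧ y.1 / x.1 ∈ F ∧ 6 ∣ r * x.1 ∧ 6 ∣ r * y.1 ∧ x ≠ y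

/-- few elements of `F` outside `m F` -/
theorem few_outside {S : Submonoid ℕ} {F : Finset ℕ} {K : ℕ} {κ : ℝ} (h : Inv S F K κ) {m : ℕ}
    (hm : m ∈ S) (hmK : m ≤ K) (hm0 : 0 < m) :
    ((F.filter (fun D => ¬ ∃ D' ∈ F, D = m * D')).card : ℝ) ≤ κ * F.card := by
  classical
  have h1 := h m hm hmK
  have h2 : (F.filter (fun D => m * D ∈ F)).card ≤ (F.filter (fun D => ∃ D' ∈ F, D = m * D')).card := by
    refine Finset.card_le_card_of_injOn (fun D => m * D) ?_ ?_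
    · intro D hD
      rw [Finset.mem_coe, Finset.mem_filter] at hD
      rw [Finset.mem_coe, Finset.mem_filter]
      exact ⟨hD.2, D, hD.1, rfl⟩
    · intro D _ D' _ hDD
      exact Nat.eq_of_mul_eq_mul_left hm0 hDD
  have h3 := Finset.card_filter_add_card_filter_not (s := F) (fun D => ∃ D' ∈ F, D = m * D')
  have h4 : ((F.filter (fun D => m * D ∈ F)).card : ℝ) ≤
      ((F.filter (fun D => ∃ D' ∈ F, D = m * D')).card : ℝ) := by exact_mod_cast h2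
  have h5 : ((F.filter (fun D => ∃ D' ∈ F, D = m * D')).card : ℝ) +
      ((F.filter (fun D => ¬ ∃ D' ∈ F, D = m * D')).card : ℝ) = F.card := by exact_mod_cast h3
  nlinarith

theorem Us_mul (r D D' : ℕ) (h : D ∣ D') (c : ℤ) (A : ℕ) : Us r (D * D') c A = Us r D' c A := by
  unfold Us
  refine Finset.filter_congr fun a _ => ?_
  have h1 : Int.gcd a ((D * D' : ℕ) : ℤ) = 1 ↔ Int.gcd a (D' : ℤ) = 1 := by
    rw [← Int.isCoprime_iff_gcd_eq_one, ← Int.isCoprime_iff_gcd_eq_one]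
    push_cast
    rw [IsCoprime.mul_right_iff]
    refine ⟨fun h => h.2, fun h' => ⟨?_, h'⟩⟩
    exact h'.of_isCoprime_of_dvd_right (by exact_mod_cast h)
  have h2 : (2 : ℤ) ∣ a * ((D * D' : ℕ) : ℤ) ↔ (2 : ℤ) ∣ a * (D' : ℤ) := by
    push_cast
    constructor
    · intro h3
      rcases (Int.prime_two.dvd_mul).1 h3 with h4 | h4
      · exact Dvd.dvd.mul_right h4 _
      · rcases (Int.prime_two.dvd_mul).1 h4 with h5 | h5
        · exact Dvd.dvd.mul_left (h5.trans (by exact_mod_cast h)) _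
        · exact Dvd.dvd.mul_left h5 _
    · intro h3
      have e : a * ((D : ℤ) * D') = D * (a * D') := by ring
      rw [e]
      exact Dvd.dvd.mul_left h3 _
  rw [h1, h2]

end Pool.Agent.Y863.TP
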