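import Pool.Agent.Y863.TP.Main

/-! Folner sets of slopes: the two probability bounds. -/

set_option autoImplicit false

namespace Pool.Agent.Y863.TP

open Finset

open Classical in
/-- probability that a pair is not regular -/
theorem prob_irreg {S : Submonoid ℕ} (h0 : (0 : ℕ) ∉ S) (r : ℕ) (s0 : ℕ) (hs0 : s0 ∈ S)
    (h6 : 6 ∣ r * s0) {κ : ℝ} (F₁ F₂ : Finset ℕ) (hF₁ : F₁.Nonempty) (hF₂ : F₂.Nonempty)
    (hS₁ : ∀ D ∈ F₁, D ∈ S) (K₁ K₂ : ℕ) (hI₁ : Inv S F₁ K₁ κ) (hI₂ : Inv S F₂ K₂ κ)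
    (hK₁ : s0 ≤ K₁) (hK₂ : ∀ D ∈ F₁, D * D * s0 ≤ K₂) (c₁ c₂ : ℤ) (A₁ A₂ : ℕ)
    (hU₁ : ∀ D ∈ F₁, 0 < (Us r D c₁ A₁).card)
    (hU₂ : ∀ D ∈ F₂, 1 ≤ κ * ((Us r D c₂ A₂).card : ℝ)) :
    ∑ x ∈ Om r F₁ c₁ A₁, ∑ y ∈ Om r F₂ c₂ A₂, wt r F₁ c₁ A₁ x * wt r F₂ c₂ A₂ y *
      (if Reg r F₂ x y then 0 else 1) ≤ 4 * κ := by
  have hpos : ∀ m ∈ S, 0 < m := fun m hm => Nat.pos_of_ne_zero (fun h => h0 (h ▸ hm))
  have hF₁c : (0 : ℝ) < F₁.card := by exact_mod_cast hF₁.card_pos
  have hF₂c : (0 : ℝ) < F₂.card := by exact_mod_cast hF₂.card_pos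
  have hUpos : ∀ D ∈ F₂, (0 : ℝ) < (Us r D c₂ A₂).card := by
    intro D hD
    have h1 := hU₂ D hD
    rcases Nat.eq_zero_or_pos (Us r D c₂ A₂).card with h | h
    · rw [h] at h1; norm_num at h1
    · exact_mod_cast h
  have hκ0 : 0 ≤ κ := by
    obtain ⟨D, hD⟩ := hF₂
    have h1 := hU₂ D hD
    have h2 := hUpos D hD
    by_contra hneg
    push Not at hneg
    nlinarith
  -- inner bound
  have hinner : ∀ x ∈ Om r F₁ c₁ A₁, ∑ y ∈ Om r F₂ c₂ A₂, wt r F₂ c₂ A₂ y *
      (if Reg r F₂ x y then (0 : ℝ) else 1) ≤ (if 6 ∣ r * x.1 then 0 else 1) + 3 * κ := by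
    intro x hx
    have hx1 : x.1 ∈ F₁ := ((mem_Om x).1 hx).1
    have hxS : x.1 ∈ S := hS₁ _ hx1
    have hm1 : x.1 * x.1 * s0 ∈ S := S.mul_mem (S.mul_mem hxS hxS) hs0
    set B₁ := F₂.filter (fun D => ¬ ∃ D' ∈ F₂, D = x.1 * x.1 * s0 * D') with hB₁
    set B₂ := F₂.filter (fun D => ¬ ∃ D' ∈ F₂, D = x.1 * D') with hB₂
    have hb1 : (B₁.card : ℝ) ≤ κ * F₂.card := few_outside hI₂ hm1 (hK₂ _ hx1) (hpos _ hm1)
    have hle : x.1 ≤ K₂ := by
      refine le_trans ?_ (hK₂ _ hx1)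
      have h1 := hpos _ hxS
      have h2 := hpos _ hs0
      calc x.1 = x.1 * 1 * 1 := by ring
        _ ≤ x.1 * x.1 * s0 := Nat.mul_le_mul (Nat.mul_le_mul_left _ h1) h2
    have hb2 : (B₂.card : ℝ) ≤ κ * F₂.card := few_outside hI₂ hxS hle (hpos _ hxS)
    -- pointwise
    have hpt : ∀ D ∈ F₂, ∑ b ∈ Us r D c₂ A₂, wt r F₂ c₂ A₂ (D, b) *
        (if Reg r F₂ x (D, b) then (0 : ℝ) else 1) ≤
        1 / F₂.card * ((if 6 ∣ r * x.1 then 0 else 1) + (if D ∈ B₁ then 1 else 0) +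
          (if D ∈ B₂ then 1 else 0) + κ) := by
      intro D hD
      have hUD := hUpos D hD
      have hsum1 : ∑ b ∈ Us r D c₂ A₂, wt r F₂ c₂ A₂ (D, b) = 1 / F₂.card := by
        simp only [wt, Finset.sum_const, nsmul_eq_mul]
        field_simp
      have hsum2 : ∑ b ∈ Us r D c₂ A₂, wt r F₂ c₂ A₂ (D, b) *
          (if Reg r F₂ x (D, b) then (0 : ℝ) else 1) ≤ 1 / F₂.card := by
        rw [← hsum1]
        refine Finset.sum_le_sum fun b _ => ?_
        refine mul_le_of_le_one_right (wt_nonneg _ _ _ _ _) ?_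
        split_ifs <;> norm_num
      by_cases hc6 : 6 ∣ r * x.1
      · by_cases hc1 : D ∈ B₁
        · refine hsum2.trans ?_
          rw [if_pos hc1, if_pos hc6]
          refine le_mul_of_one_le_right (by positivity) ?_
          have : (0 : ℝ) ≤ if D ∈ B₂ then 1 else 0 := by split_ifs <;> norm_num
          linarith
        · by_cases hc2 : D ∈ B₂
          · refine hsum2.trans ?_
            rw [if_pos hc2, if_pos hc6]
            refine le_mul_of_one_le_right (by positivity) ?_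
            have : (0 : ℝ) ≤ if D ∈ B₁ then 1 else 0 := by split_ifs <;> norm_num
            linarith
          · rw [if_neg hc1, if_neg hc2, if_pos hc6]
            have hc1' : ∃ D' ∈ F₂, D = x.1 * x.1 * s0 * D' := by
              by_contra h
              exact hc1 (Finset.mem_filter.2 ⟨hD, h⟩)
            have hc2' : ∃ D' ∈ F₂, D = x.1 * D' := by
              by_contra h
              exact hc2 (Finset.mem_filter.2 ⟨hD, h⟩)
            obtain ⟨D', hD', he'⟩ := hc1'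
            obtain ⟨D'', hD'', he''⟩ := hc2'
            have hreg : ∀ b ∈ Us r D c₂ A₂, wt r F₂ c₂ A₂ (D, b) *
                (if Reg r F₂ x (D, b) then (0 : ℝ) else 1) ≤
                if b = x.2 then 1 / (F₂.card * ((Us r D c₂ A₂).card : ℝ)) else 0 := by
              intro b _
              by_cases hb : b = x.2
              · rw [if_pos hb]
                refine (mul_le_of_le_one_right (wt_nonneg _ _ _ _ _) ?_).trans (le_of_eq rfl)
                split_ifs <;> norm_num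
              · rw [if_neg hb]
                have : Reg r F₂ x (D, b) := by
                  refine ⟨?_, ?_, hc6, ?_, ?_⟩
                  · show x.1 * x.1 ∣ D
                    rw [he']
                    exact ⟨s0 * D', by ring⟩
                  · show D / x.1 ∈ F₂
                    rw [he'', Nat.mul_div_cancel_left _ (hpos _ hxS)]
                    exact hD''
                  · show 6 ∣ r * D
                    rw [he']
                    have e : r * (x.1 * x.1 * s0 * D') = (r * s0) * (x.1 * x.1 * D') := by ring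
                    rw [e]
                    exact Dvd.dvd.mul_right h6 _
                  · intro h
                    apply hb
                    rw [h]
                rw [if_pos this, mul_zero]
            refine (Finset.sum_le_sum hreg).trans ?_
            have h1 : ∑ b ∈ Us r D c₂ A₂, (if b = x.2 then 1 / (F₂.card * ((Us r D c₂ A₂).card : ℝ)) else 0)
                ≤ 1 / (F₂.card * ((Us r D c₂ A₂).card : ℝ)) := by
              rw [Finset.sum_ite_eq']
              split_ifs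
              · exact le_rfl
              · positivity
            refine h1.trans ?_
            have h2 := hU₂ D hD
            rw [div_le_iff₀ (by positivity)]
            field_simp
            linarith
      · refine hsum2.trans ?_
        rw [if_neg hc6]
        refine le_mul_of_one_le_right (by positivity) ?_
        have h1 : (0 : ℝ) ≤ if D ∈ B₁ then 1 else 0 := by split_ifs <;> norm_num
        have h2 : (0 : ℝ) ≤ if D ∈ B₂ then 1 else 0 := by split_ifs <;> norm_num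
        linarith
    rw [sum_Om]
    refine (Finset.sum_le_sum hpt).trans ?_
    rw [← Finset.mul_sum, Finset.sum_add_distrib, Finset.sum_add_distrib, Finset.sum_add_distrib,
      Finset.sum_const, Finset.sum_const, nsmul_eq_mul, nsmul_eq_mul]
    have e1 : ∑ D ∈ F₂, (if D ∈ B₁ then (1 : ℝ) else 0) = B₁.card := by
      rw [Finset.sum_boole]
      congr 2
      ext D
      simp only [Finset.mem_filter]
      constructor
      · exact fun h => h.2
      · exact fun h => ⟨(Finset.mem_filter.1 h).1, h⟩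
    have e2 : ∑ D ∈ F₂, (if D ∈ B₂ then (1 : ℝ) else 0) = B₂.card := by
      rw [Finset.sum_boole]
      congr 2
      ext D
      simp only [Finset.mem_filter]
      constructor
      · exact fun h => h.2
      · exact fun h => ⟨(Finset.mem_filter.1 h).1, h⟩
    rw [e1, e2, one_div, inv_mul_le_iff₀ hF₂c]
    nlinarith
  -- outer bound
  have houter : ∑ x ∈ Om r F₁ c₁ A₁, wt r F₁ c₁ A₁ x * (if 6 ∣ r * x.1 then (0 : ℝ) else 1) ≤ κ := by
    rw [sum_Om]
    have h1 : ∀ D ∈ F₁, ∑ b ∈ Us r D c₁ A₁, wt r F₁ c₁ A₁ (D, b) *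
        (if 6 ∣ r * (D, b).1 then (0 : ℝ) else 1) ≤
        1 / F₁.card * (if D ∈ F₁.filter (fun D => ¬ ∃ D' ∈ F₁, D = s0 * D') then 1 else 0) := by
      intro D hD
      have hU : ((Us r D c₁ A₁).card : ℝ) ≠ 0 := by exact_mod_cast (hU₁ D hD).ne'
      by_cases h : 6 ∣ r * D
      · simp only [h, if_true, mul_zero, Finset.sum_const_zero]
        refine mul_nonneg (by positivity) ?_
        split_ifs <;> norm_num
      · have h2 : D ∈ F₁.filter (fun D => ¬ ∃ D' ∈ F₁, D = s0 * D') := by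
          rw [Finset.mem_filter]
          refine ⟨hD, ?_⟩
          rintro ⟨D', _, rfl⟩
          apply h
          have e : r * (s0 * D') = (r * s0) * D' := by ring
          rw [e]
          exact Dvd.dvd.mul_right h6 _
        rw [if_pos h2]
        simp only [h, if_false, mul_one, wt, Finset.sum_const, nsmul_eq_mul]
        apply le_of_eq
        field_simp
    refine (Finset.sum_le_sum h1).trans ?_
    rw [← Finset.mul_sum, Finset.sum_boole]
    have h2 : (F₁.filter (fun D => D ∈ F₁.filter (fun D => ¬ ∃ D' ∈ F₁, D = s0 * D'))).card ≤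
        (F₁.filter (fun D => ¬ ∃ D' ∈ F₁, D = s0 * D')).card := by
      refine Finset.card_le_card fun D hD => (Finset.mem_filter.1 hD).2
    have h3 := few_outside hI₁ hs0 hK₁ (hpos _ hs0)
    have h4 : ((F₁.filter (fun D => D ∈ F₁.filter (fun D => ¬ ∃ D' ∈ F₁, D = s0 * D'))).card : ℝ) ≤
        κ * F₁.card := le_trans (by exact_mod_cast h2) h3
    rw [one_div, inv_mul_le_iff₀ hF₁c]
    linarith
  have hfin : ∀ x ∈ Om r F₁ c₁ A₁, ∑ y ∈ Om r F₂ c₂ A₂, wt r F₁ c₁ A₁ x * wt r F₂ c₂ A₂ y *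
      (if Reg r F₂ x y then (0 : ℝ) else 1) ≤
      wt r F₁ c₁ A₁ x * (if 6 ∣ r * x.1 then (0 : ℝ) else 1) + wt r F₁ c₁ A₁ x * (3 * κ) := by
    intro x hx
    have h1 := hinner x hx
    have h2 := mul_le_mul_of_nonneg_left h1 (wt_nonneg r F₁ c₁ A₁ x)
    rw [Finset.mul_sum, mul_add] at h2
    refine le_trans (le_of_eq ?_) h2
    refine Finset.sum_congr rfl fun y _ => ?_
    ring
  refine (Finset.sum_le_sum hfin).trans ?_
  rw [Finset.sum_add_distrib, ← Finset.sum_mul, sum_wt hF₁ hU₁, one_mul]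
  linarith

theorem alg1 (f u X κ : ℝ) (hf : 0 < f) (hu : 0 < u) :
    1 / (f * u) * (X + κ * u) = 1 / f * (X / u + κ) := by
  field_simp

theorem alg2 (f S κ : ℝ) (hf : 0 < f) : 1 / f * (S + f * κ) = S / f + κ := by
  field_simp

theorem alg3 (a b : ℕ) : (0 : ℝ) ≤ 1 / ((a : ℝ) * (b : ℝ)) := by positivity

open Classical in
/-- probability that a pair is regular and good -/
theorem prob_good (r : ℕ) (G : ℤ → ℕ → Prop) {κ : ℝ} (F₁ F₂ : Finset ℕ) (hF₁ : F₁.Nonempty)
    (hF₂ : F₂.Nonempty) (hp₁ : ∀ D ∈ F₁, 0 < D) (c₁ c₂ : ℤ) (A₁ A₂ : ℕ) (B : ℕ)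
    (hB : ∀ b ∈ Finset.Ico c₁ (c₁ + A₁), |b| ≤ B)
    (hU₁ : ∀ D ∈ F₁, 0 < (Us r D c₁ A₁).card)
    (hU₂ : ∀ D ∈ F₂, 0 < (Us r D c₂ A₂).card)
    (hU₃ : ∀ D ∈ F₂, (B : ℝ) * D ≤ κ * ((Us r D c₂ A₂).card : ℝ)) :
    ∑ x ∈ Om r F₁ c₁ A₁, ∑ y ∈ Om r F₂ c₂ A₂, wt r F₁ c₁ A₁ x * wt r F₂ c₂ A₂ y *
      (if Reg r F₂ x y ∧ G (y.2 - (y.1 / x.1 : ℕ) * x.2) (y.1 / x.1) then 1 else 0) ≤
      avg r G F₂ c₂ A₂ / F₂.card + κ := by
  have hF₂c : (0 : ℝ) < F₂.card := by exact_mod_cast hF₂.card_pos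
  have hinner : ∀ x ∈ Om r F₁ c₁ A₁, ∑ y ∈ Om r F₂ c₂ A₂, wt r F₂ c₂ A₂ y *
      (if Reg r F₂ x y ∧ G (y.2 - (y.1 / x.1 : ℕ) * x.2) (y.1 / x.1) then (1 : ℝ) else 0) ≤
      avg r G F₂ c₂ A₂ / F₂.card + κ := by
    intro x hx
    obtain ⟨hx1, hx2⟩ := (mem_Om x).1 hx
    have hx0 : 0 < x.1 := hp₁ _ hx1
    have hx2' := hx2
    unfold Us at hx2'
    rw [Finset.mem_filter] at hx2'
    have hbB : |x.2| ≤ B := hB _ hx2'.1
    obtain ⟨h, hh⟩ : ∃ h : ℕ → ℝ, ∀ D', h D' = 1 / F₂.card *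
      ((((Finset.Ico c₂ (c₂ + A₂)).filter (fun a => (r : ℤ) ∣ a ∧ G a D')).card : ℝ) /
        ((Us r D' c₂ A₂).card : ℝ) + κ) := ⟨_, fun _ => rfl⟩
    have hκ0 : 0 ≤ κ := by
      obtain ⟨D, hD⟩ := hF₂
      have h1 := hU₃ D hD
      have h2 : (0 : ℝ) < (Us r D c₂ A₂).card := by exact_mod_cast hU₂ D hD
      have h3 : (0 : ℝ) ≤ (B : ℝ) * D := by positivity
      by_contra hneg
      push Not at hneg
      nlinarith
    have hh0 : ∀ D', 0 ≤ h D' := fun D' => by rw [hh]; positivity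
    rw [sum_Om]
    have hpt : ∀ D ∈ F₂, ∑ b ∈ Us r D c₂ A₂, wt r F₂ c₂ A₂ (D, b) *
        (if Reg r F₂ x (D, b) ∧ G ((D, b).2 - ((D, b).1 / x.1 : ℕ) * x.2) ((D, b).1 / x.1)
          then (1 : ℝ) else 0) ≤ if x.1 ∣ D ∧ D / x.1 ∈ F₂ then h (D / x.1) else 0 := by
      intro D hD
      by_cases hreg : x.1 * x.1 ∣ D ∧ D / x.1 ∈ F₂
      · obtain ⟨⟨t, ht⟩, hDF⟩ := hreg
        have hdvd : x.1 ∣ D := ⟨x.1 * t, by rw [ht]; ring⟩
        rw [if_pos ⟨hdvd, hDF⟩]
        obtain ⟨D', hD'⟩ : ∃ D', D' = D / x.1 := ⟨_, rfl⟩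
        have hDe : D = x.1 * D' := by rw [hD', Nat.mul_div_cancel' hdvd]
        have hxD' : x.1 ∣ D' := by
          refine ⟨t, ?_⟩
          have : x.1 * D' = x.1 * (x.1 * t) := by rw [← hDe, ht]; ring
          exact Nat.eq_of_mul_eq_mul_left hx0 this
        have hUs : Us r D c₂ A₂ = Us r D' c₂ A₂ := by rw [hDe]; exact Us_mul _ _ _ hxD' _ _
        rw [← hD'] at hDF
        have hUD' : (0 : ℝ) < (Us r D' c₂ A₂).card := by exact_mod_cast hU₂ D' hDF
        have h1 : ∀ b ∈ Us r D c₂ A₂, wt r F₂ c₂ A₂ (D, b) *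
            (if Reg r F₂ x (D, b) ∧ G ((D, b).2 - ((D, b).1 / x.1 : ℕ) * x.2) ((D, b).1 / x.1)
            then (1 : ℝ) else 0) ≤ 1 / (F₂.card * ((Us r D' c₂ A₂).card : ℝ)) *
            (if (r : ℤ) ∣ (b - D' * x.2) ∧ G (b - D' * x.2) D' then 1 else 0) := by
          intro b hb
          have hw : wt r F₂ c₂ A₂ (D, b) = 1 / (F₂.card * ((Us r D' c₂ A₂).card : ℝ)) := by
            unfold wt
            show 1 / ((F₂.card : ℝ) * ((Us r D c₂ A₂).card : ℝ)) = _
            rw [hUs]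
          rw [hw]
          refine mul_le_mul_of_nonneg_left ?_ (alg3 _ _)
          split_ifs with h2 h3
          · exact le_rfl
          · exfalso
            apply h3
            have hb' := hb
            unfold Us at hb'
            rw [Finset.mem_filter] at hb'
            refine ⟨dvd_sub hb'.2.1 (Dvd.dvd.mul_left hx2'.2.1 _), ?_⟩
            have h4 := h2.2
            rw [← hD'] at h4
            exact h4
          · norm_num
          · norm_num
        refine (Finset.sum_le_sum h1).trans ?_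
        rw [← Finset.mul_sum]
        have h2 : ∑ b ∈ Us r D c₂ A₂, (if (r : ℤ) ∣ (b - D' * x.2) ∧ G (b - D' * x.2) D' then (1 : ℝ) else 0)
            ≤ (((Finset.Ico c₂ (c₂ + A₂)).filter (fun a => (r : ℤ) ∣ a ∧ G a D')).card : ℝ) +
              κ * ((Us r D' c₂ A₂).card : ℝ) := by
          rw [Finset.sum_boole]
          have h3 := shift_count (fun a => (r : ℤ) ∣ a ∧ G a D') c₂ A₂ (D' * x.2)
          have h4 : (((Us r D c₂ A₂).filter
              (fun b => (r : ℤ) ∣ (b - D' * x.2) ∧ G (b - D' * x.2) D')).card : ℝ) ≤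
              (((Finset.Ico c₂ (c₂ + A₂)).filter
                (fun b => (r : ℤ) ∣ (b - D' * x.2) ∧ G (b - D' * x.2) D')).card : ℝ) := by
            rw [Nat.cast_le]
            refine Finset.card_le_card (Finset.filter_subset_filter _ ?_)
            unfold Us
            exact Finset.filter_subset _ _
          refine h4.trans (h3.trans ?_)
          have h5 : |(((D' : ℤ) * x.2 : ℤ) : ℝ)| ≤ (B : ℝ) * D' := by
            push_cast
            rw [abs_mul, abs_of_nonneg (Nat.cast_nonneg D' : (0 : ℝ) ≤ (D' : ℝ)), mul_comm]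
            refine mul_le_mul_of_nonneg_right ?_ (Nat.cast_nonneg D')
            exact_mod_cast hbB
          have h6 := hU₃ D' hDF
          linarith
        refine (mul_le_mul_of_nonneg_left h2 (alg3 _ _)).trans (le_of_eq ?_)
        rw [← hD', hh]
        exact alg1 _ _ _ _ hF₂c hUD'
      · have h1 : ∀ b ∈ Us r D c₂ A₂, wt r F₂ c₂ A₂ (D, b) *
            (if Reg r F₂ x (D, b) ∧ G ((D, b).2 - ((D, b).1 / x.1 : ℕ) * x.2) ((D, b).1 / x.1)
            then (1 : ℝ) else 0) = 0 := by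
          intro b _
          rw [if_neg (fun h => hreg ⟨h.1.1, h.1.2.1⟩), mul_zero]
        rw [Finset.sum_congr rfl h1, Finset.sum_const_zero]
        split_ifs
        · exact hh0 _
        · exact le_rfl
    refine (Finset.sum_le_sum hpt).trans ?_
    rw [← Finset.sum_filter]
    have hre : ∑ D ∈ F₂.filter (fun D => x.1 ∣ D ∧ D / x.1 ∈ F₂), h (D / x.1) ≤ ∑ D' ∈ F₂, h D' := by
      rw [← Finset.sum_image (f := h) (g := fun D => D / x.1) (s := F₂.filter (fun D => x.1 ∣ D ∧ D / x.1 ∈ F₂))]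
      · refine Finset.sum_le_sum_of_subset_of_nonneg ?_ (fun D' _ _ => hh0 D')
        intro D' hD'
        obtain ⟨D, hD, rfl⟩ := Finset.mem_image.1 hD'
        exact (Finset.mem_filter.1 hD).2.2
      · intro D hD D' hD' he
        rw [Finset.mem_coe, Finset.mem_filter] at hD hD'
        have he' : D / x.1 = D' / x.1 := he
        rw [← Nat.mul_div_cancel' hD.2.1, ← Nat.mul_div_cancel' hD'.2.1, he']
    refine hre.trans (le_of_eq ?_)
    rw [Finset.sum_congr rfl (fun D' _ => hh D'), ← Finset.mul_sum, Finset.sum_add_distrib,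
      Finset.sum_const, nsmul_eq_mul]
    unfold avg
    exact alg2 _ _ _ hF₂c
  have hfin : ∀ x ∈ Om r F₁ c₁ A₁, ∑ y ∈ Om r F₂ c₂ A₂, wt r F₁ c₁ A₁ x * wt r F₂ c₂ A₂ y *
      (if Reg r F₂ x y ∧ G (y.2 - (y.1 / x.1 : ℕ) * x.2) (y.1 / x.1) then (1 : ℝ) else 0) ≤
      wt r F₁ c₁ A₁ x * (avg r G F₂ c₂ A₂ / F₂.card + κ) := by
    intro x hx
    have h2 := mul_le_mul_of_nonneg_left (hinner x hx) (wt_nonneg r F₁ c₁ A₁ x)
    rw [Finset.mul_sum] at h2
    refine le_trans (le_of_eq ?_) h2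
    refine Finset.sum_congr rfl fun y _ => ?_
    ring
  refine (Finset.sum_le_sum hfin).trans ?_
  rw [← Finset.sum_mul, sum_wt hF₁ hU₁, one_mul]

end Pool.Agent.Y863.TP
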