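import Pool.Agent.Y863.TP.Bridge

/-! Almost invariant finite sets of affine maps. -/

set_option autoImplicit false

namespace Pool.Agent.Y863.TP

open Finset Filter
open Pool.Agent.H732R3.BigQ
open Pool.Agent.TH899.UG

/-- the composition `x ↦ g (f x)` of maps `x ↦ a + d x`, written as pairs `(a, d)` -/
def cmp (g f : ℤ × ℤ) : ℤ × ℤ := (g.1 + g.2 * f.1, g.2 * f.2)

theorem cmp_inj {g g' f : ℤ × ℤ} (hf : f.2 ≠ 0) (h : cmp g f = cmp g' f) : g = g' := by
  unfold cmp at h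
  rw [Prod.mk.injEq] at h
  have h2 : g.2 = g'.2 := mul_right_cancel₀ hf h.2
  refine Prod.ext ?_ h2
  have h1 := h.1
  rw [h2] at h1
  exact add_right_cancel h1

/-- both maps take prime values at many integers -/
def GPair (f g : ℤ × ℤ) : Prop := PairBig (f.2, f.1) (g.2, g.1)

theorem goodP_of_gpair {f g : ℤ × ℤ} (hf : 0 < f.2) (hg : 0 < g.2) (h : GPair f (cmp g f)) :
    GoodP g.1 g.2 := by
  obtain ⟨a, d⟩ := f
  obtain ⟨b, t⟩ := g
  simp only at hf hg
  obtain ⟨D, rfl⟩ := Int.eq_ofNat_of_zero_le hf.le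
  obtain ⟨m, rfl⟩ := Int.eq_ofNat_of_zero_le hg.le
  have hD : 0 < D := by exact_mod_cast hf
  have hm : 0 < m := by exact_mod_cast hg
  have h' : PairBig ((D : ℤ), a) (((m * D : ℕ) : ℤ), b + m * a) := by
    unfold GPair cmp at h
    simpa using h
  have h1 := good_of_pairBig D (m * D) a (b + m * a) hD (Dvd.intro_left m rfl) h'
  rw [Nat.mul_div_cancel _ hD] at h1
  have h2 : b + (m : ℤ) * a - m * a = b := by ring
  rw [h2] at h1
  exact goodP_of b m hm h1

open Classical in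
/-- the deterministic bound -/
theorem det_semi (ε : ℝ) (hε : 0 < ε) : ∃ T : ℕ, 1 ≤ T ∧ ∀ ω : Fin T → ℤ × ℤ,
    (∀ k, 0 < (ω k).2 ∧ Int.gcd (ω k).1 (ω k).2 = 1) →
    (∃ n : ℤ, ∀ k, ¬ (2 : ℤ) ∣ (ω k).1 + (ω k).2 * n) →
    (∃ n : ℤ, ∀ k, ¬ (3 : ℤ) ∣ (ω k).1 + (ω k).2 * n) →
    Function.Injective ω →
    (1 / 3 - ε / 4) * (T : ℝ) ^ 2 / 2 ≤ (((univ ×ˢ univ : Finset (Fin T × Fin T)).filter
      (fun x => x.1 < x.2 ∧ GPair (ω x.1) (ω x.2))).card : ℝ) := by
  obtain ⟨C, δ, hδ, H⟩ := pairs_third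
  obtain ⟨T, hT2, hT⟩ := large_T C δ ε hδ hε
  refine ⟨T, by omega, ?_⟩
  intro ω h1 ha2 ha3 hinj
  obtain ⟨v, hv⟩ : ∃ v : Fin T → ℤ × ℤ, ∀ k, v k = ((ω k).2, (ω k).1) := ⟨_, fun _ => rfl⟩
  have hvinj : Function.Injective v := by
    intro i j hij
    rw [hv, hv, Prod.mk.injEq] at hij
    exact hinj (Prod.ext hij.2 hij.1)
  have hcard : (univ.image v).card = T := by
    rw [Finset.card_image_of_injective _ hvinj, Finset.card_univ, Fintype.card_fin]
  have hH := H (univ.image v)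
    (by
      intro f hf
      obtain ⟨k, _, rfl⟩ := Finset.mem_image.1 hf
      rw [hv]
      exact (h1 k).1)
    (by
      intro f hf p hp
      have h3 : ∀ i, ∃ k, v k = f i := fun i => by
        obtain ⟨k, _, hk⟩ := Finset.mem_image.1 (hf i)
        exact ⟨k, hk⟩
      choose g hg using h3
      have h4 : ∃ n : ℤ, ∀ i, ¬ (p : ℤ) ∣ (ω (g i)).2 * n + (ω (g i)).1 := by
        by_cases hp2 : p = 2
        · subst hp2
          obtain ⟨n, hn⟩ := ha2
          refine ⟨n, fun i hd => hn (g i) ?_⟩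
          rw [add_comm] at hd
          exact_mod_cast hd
        by_cases hp3 : p = 3
        · subst hp3
          obtain ⟨n, hn⟩ := ha3
          refine ⟨n, fun i hd => hn (g i) ?_⟩
          rw [add_comm] at hd
          exact_mod_cast hd
        have hp5 : 5 ≤ p := by
          by_contra hlt
          push Not at hlt
          have := hp.two_le
          interval_cases p
          · exact hp2 rfl
          · exact hp3 rfl
          · exact absurd hp (by norm_num)
        refine avoid_five p hp hp5 (fun i => (ω (g i)).2) (fun i => (ω (g i)).1) ?_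
        intro i hd1 hd2
        have h5 := Int.dvd_coe_gcd hd2 hd1
        rw [(h1 (g i)).2] at h5
        have h6 : p ∣ 1 := by exact_mod_cast h5
        exact hp.one_lt.ne' (Nat.dvd_one.1 h6)
      obtain ⟨n, hn⟩ := h4
      refine ⟨n, fun i => ?_⟩
      rw [← hg i, hv]
      exact hn i)
  rw [hcard] at hH
  obtain ⟨N, hN⟩ : ∃ N : ℕ, N = ((univ ×ˢ univ : Finset (Fin T × Fin T)).filter
      (fun x => x.1 < x.2 ∧ GPair (ω x.1) (ω x.2))).card := ⟨_, rfl⟩
  rw [← hN]
  have hcount : (((univ.image v) ×ˢ (univ.image v)).filter (fun x => PairBig x.1 x.2)).card ≤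
      2 * N + T := by
    obtain ⟨Q, hQ⟩ : ∃ Q : Finset (Fin T × Fin T), Q = (univ ×ˢ univ : Finset (Fin T × Fin T)).filter
      (fun x => PairBig (v x.1) (v x.2)) := ⟨_, rfl⟩
    have h3 : (((univ.image v) ×ˢ (univ.image v)).filter (fun x => PairBig x.1 x.2)).card ≤ Q.card := by
      have h4 : (((univ.image v) ×ˢ (univ.image v)).filter (fun x => PairBig x.1 x.2)) ⊆
          Q.image (fun x => (v x.1, v x.2)) := by
        intro x hx
        rw [Finset.mem_filter, Finset.mem_product] at hx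
        obtain ⟨⟨hx1, hx2⟩, hx3⟩ := hx
        obtain ⟨i, _, hi⟩ := Finset.mem_image.1 hx1
        obtain ⟨j, _, hj⟩ := Finset.mem_image.1 hx2
        rw [Finset.mem_image]
        refine ⟨(i, j), ?_, ?_⟩
        · rw [hQ, Finset.mem_filter]
          refine ⟨Finset.mem_product.2 ⟨Finset.mem_univ _, Finset.mem_univ _⟩, ?_⟩
          show PairBig (v i) (v j)
          rw [hi, hj]
          exact hx3
        · show (v i, v j) = x
          rw [hi, hj]
      exact (Finset.card_le_card h4).trans Finset.card_image_le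
    have h4 : Q ⊆ ((univ ×ˢ univ : Finset (Fin T × Fin T)).filter (fun x => x.1 = x.2)) ∪
        (Q.filter (fun x => x.1 < x.2) ∪ Q.filter (fun x => x.2 < x.1)) := by
      intro x hx
      rw [Finset.mem_union, Finset.mem_union, Finset.mem_filter, Finset.mem_filter,
        Finset.mem_filter]
      rcases lt_trichotomy x.1 x.2 with h5 | h5 | h5
      · right; left; exact ⟨hx, h5⟩
      · left; exact ⟨Finset.mem_product.2 ⟨Finset.mem_univ _, Finset.mem_univ _⟩, h5⟩
      · right; right; exact ⟨hx, h5⟩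
    have h5 : ((univ ×ˢ univ : Finset (Fin T × Fin T)).filter (fun x => x.1 = x.2)).card ≤ T := by
      calc ((univ ×ˢ univ : Finset (Fin T × Fin T)).filter (fun x => x.1 = x.2)).card ≤
          (univ : Finset (Fin T)).card := by
            refine Finset.card_le_card_of_injOn Prod.fst (fun _ _ => Finset.mem_coe.2 (Finset.mem_univ _)) ?_
            intro x hx y hy hxy
            rw [Finset.mem_coe, Finset.mem_filter] at hx hy
            exact Prod.ext hxy (by rw [← hx.2, ← hy.2]; exact hxy)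
        _ = T := by rw [Finset.card_univ, Fintype.card_fin]
    have h6 : (Q.filter (fun x => x.1 < x.2)).card ≤ N := by
      rw [hN]
      refine Finset.card_le_card ?_
      intro x hx
      rw [Finset.mem_filter, hQ, Finset.mem_filter] at hx
      rw [Finset.mem_filter]
      refine ⟨hx.1.1, hx.2, ?_⟩
      have h7 := hx.1.2
      rw [hv, hv] at h7
      exact h7
    have h7 : (Q.filter (fun x => x.2 < x.1)).card ≤ (Q.filter (fun x => x.1 < x.2)).card := by
      refine Finset.card_le_card_of_injOn Prod.swap ?_ (Prod.swap_injective.injOn)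
      intro x hx
      rw [Finset.mem_coe, Finset.mem_filter, hQ, Finset.mem_filter] at hx
      rw [Finset.mem_coe, Finset.mem_filter, hQ, Finset.mem_filter]
      exact ⟨⟨Finset.mem_product.2 ⟨Finset.mem_univ _, Finset.mem_univ _⟩, hx.1.2.symm⟩, hx.2⟩
    have h8 := (Finset.card_le_card h4).trans (Finset.card_union_le _ _)
    have h9 := Finset.card_union_le (Q.filter (fun x => x.1 < x.2)) (Q.filter (fun x => x.2 < x.1))
    omega
  have h3 : ((((univ.image v) ×ˢ (univ.image v)).filter (fun x => PairBig x.1 x.2)).card : ℝ) ≤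
      2 * N + T := by exact_mod_cast hcount
  have h4 := hH.trans h3
  nlinarith

/-- almost invariant sets are large -/
theorem card_large (Φ : Finset (ℤ × ℤ)) (hΦ : Φ.Nonempty) (hpos : ∀ g ∈ Φ, 0 < g.2) (f : ℤ × ℤ)
    (hf0 : 0 < f.2) (hf : f ≠ (0, 1)) (κ : ℝ)
    (h : (1 - κ) * (Φ.card : ℝ) ≤ ((Φ.filter (fun g => cmp g f ∈ Φ)).card : ℝ)) :
    1 ≤ κ * (Φ.card : ℝ) := by
  classical
  by_contra hcon
  push Not at hcon
  have h1 : (Φ.card : ℝ) - 1 < ((Φ.filter (fun g => cmp g f ∈ Φ)).card : ℝ) := by linarith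
  have h2 : Φ.card ≤ (Φ.filter (fun g => cmp g f ∈ Φ)).card := by
    have h3 : (Φ.card : ℝ) < ((Φ.filter (fun g => cmp g f ∈ Φ)).card : ℝ) + 1 := by linarith
    have h4 : Φ.card < (Φ.filter (fun g => cmp g f ∈ Φ)).card + 1 := by exact_mod_cast h3
    omega
  have h3 : Φ.filter (fun g => cmp g f ∈ Φ) = Φ :=
    Finset.eq_of_subset_of_card_le (Finset.filter_subset _ _) h2
  have h4 : ∀ g ∈ Φ, cmp g f ∈ Φ := by
    intro g hg
    rw [← h3] at hg
    exact (Finset.mem_filter.1 hg).2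
  have hinj : Set.InjOn (fun g => cmp g f) (Φ : Set (ℤ × ℤ)) := fun g _ g' _ hgg =>
    cmp_inj hf0.ne' hgg
  have h5 : Φ.image (fun g => cmp g f) = Φ := by
    refine Finset.eq_of_subset_of_card_le ?_ ?_
    · intro x hx
      obtain ⟨g, hg, rfl⟩ := Finset.mem_image.1 hx
      exact h4 g hg
    · rw [Finset.card_image_of_injOn hinj]
  have h6 : ∀ u : ℤ × ℤ → ℤ, ∑ g ∈ Φ, u (cmp g f) = ∑ g ∈ Φ, u g := by
    intro u
    have h7 : ∑ x ∈ Φ.image (fun g => cmp g f), u x = ∑ g ∈ Φ, u (cmp g f) := Finset.sum_image hinj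
    rw [h5] at h7
    exact h7.symm
  have h7 := h6 (fun g => g.2)
  have h8 : 0 < ∑ g ∈ Φ, g.2 := Finset.sum_pos hpos hΦ
  have h9 : f.2 = 1 := by
    simp only [cmp] at h7
    rw [← Finset.sum_mul] at h7
    have h10 : (∑ g ∈ Φ, g.2) * (f.2 - 1) = 0 := by linarith
    rcases mul_eq_zero.1 h10 with h11 | h11
    · omega
    · omega
  have h10 := h6 (fun g => g.1)
  simp only [cmp] at h10
  rw [Finset.sum_add_distrib, ← Finset.sum_mul] at h10
  have h11 : (∑ g ∈ Φ, g.2) * f.1 = 0 := by linarith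
  rcases mul_eq_zero.1 h11 with h12 | h12
  · omega
  · exact hf (Prod.ext h12 h9)

open Classical in
/-- the main theorem on almost invariant sets of maps -/
theorem semi (Γ : Set (ℤ × ℤ)) (hΓ : ∀ f ∈ Γ, 1 ≤ f.2 ∧ Int.gcd f.1 f.2 = 1)
    (h2 : ∃ n : ℤ, ∀ f ∈ Γ, ¬ (2 : ℤ) ∣ f.1 + f.2 * n)
    (h3 : ∃ n : ℤ, ∀ f ∈ Γ, ¬ (3 : ℤ) ∣ f.1 + f.2 * n)
    (hne : ∃ f ∈ Γ, f ≠ (0, 1)) (ε : ℝ) (hε : 0 < ε) (hε' : ε < 1 / 3) :
    ∃ K : ℕ, ∃ κ : ℝ, 0 < κ ∧ ∀ Φ : Finset (ℤ × ℤ), Φ.Nonempty → (∀ g ∈ Φ, g ∈ Γ) →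
      (∀ f ∈ Γ, |f.1| ≤ K → f.2 ≤ K →
        (1 - κ) * (Φ.card : ℝ) ≤ ((Φ.filter (fun g => cmp g f ∈ Φ)).card : ℝ)) →
      (1 / 3 - ε) * (Φ.card : ℝ) ≤ ((Φ.filter (fun g => GoodP g.1 g.2)).card : ℝ) := by
  by_contra hcon
  push Not at hcon
  obtain ⟨f0, hf0, hf01⟩ := hne
  obtain ⟨T, hT, hdet⟩ := det_semi ε hε
  have hT' : (1 : ℝ) ≤ T := by exact_mod_cast hT
  obtain ⟨κ, hκ⟩ : ∃ κ : ℝ, κ = ε / (4 * (T : ℝ) ^ 2) := ⟨_, rfl⟩
  have hκ0 : 0 < κ := by rw [hκ]; positivity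
  have hstep : ∀ B : ℕ, ∃ Φ : Finset (ℤ × ℤ), Φ.Nonempty ∧ (∀ g ∈ Φ, g ∈ Γ) ∧
      (∀ f ∈ Γ, |f.1| ≤ B → f.2 ≤ B →
        (1 - κ) * (Φ.card : ℝ) ≤ ((Φ.filter (fun g => cmp g f ∈ Φ)).card : ℝ)) ∧
      1 ≤ κ * (Φ.card : ℝ) ∧
      ((Φ.filter (fun g => GoodP g.1 g.2)).card : ℝ) < (1 / 3 - ε) * (Φ.card : ℝ) := by
    intro B
    obtain ⟨Φ, hΦ, hΦS, hI, hbad⟩ := hcon (B + f0.1.natAbs + f0.2.natAbs) κ hκ0
    refine ⟨Φ, hΦ, hΦS, ?_, ?_, hbad⟩
    · intro f hf hf1 hf2
      refine hI f hf ?_ ?_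
      · push_cast
        have : (0 : ℤ) ≤ |f0.1| := abs_nonneg _
        have : (0 : ℤ) ≤ |f0.2| := abs_nonneg _
        linarith
      · push_cast
        have : (0 : ℤ) ≤ |f0.1| := abs_nonneg _
        have : (0 : ℤ) ≤ |f0.2| := abs_nonneg _
        linarith
    · refine card_large Φ hΦ (fun g hg => by have := (hΓ g (hΦS g hg)).1; omega) f0
        (by have := (hΓ f0 hf0).1; omega) hf01 κ (hI f0 hf0 ?_ ?_)
      · push_cast
        have : (0 : ℤ) ≤ B := by positivity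
        have : (0 : ℤ) ≤ |f0.2| := abs_nonneg _
        linarith
      · push_cast
        have : (0 : ℤ) ≤ B := by positivity
        have : (0 : ℤ) ≤ |f0.1| := abs_nonneg _
        have := le_abs_self f0.2
        linarith
  choose Φ hΦ hΦS hI hbig hbad using hstep
  obtain ⟨Bd, hBd⟩ : ∃ Bd : ℕ → ℕ, ∀ n, Bd (n + 1) =
      Bd n + ∑ g ∈ Φ (Bd n), (g.1.natAbs + g.2.natAbs) := by
    refine ⟨fun n => Nat.rec (motive := fun _ => ℕ) 0
      (fun _ B => B + ∑ g ∈ Φ B, (g.1.natAbs + g.2.natAbs)) n, fun n => rfl⟩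
  have hmono : Monotone Bd := monotone_nat_of_le_succ (fun n => by rw [hBd]; omega)
  have hle : ∀ i j : ℕ, i < j → ∀ g ∈ Φ (Bd i), |g.1| ≤ Bd j ∧ g.2 ≤ Bd j := by
    intro i j hij g hg
    have h4 : g.1.natAbs + g.2.natAbs ≤ Bd (i + 1) := by
      rw [hBd]
      have : g.1.natAbs + g.2.natAbs ≤ ∑ g ∈ Φ (Bd i), (g.1.natAbs + g.2.natAbs) :=
        Finset.single_le_sum (f := fun g : ℤ × ℤ => g.1.natAbs + g.2.natAbs)
          (fun _ _ => Nat.zero_le _) hg
      omega
    have h5 : Bd (i + 1) ≤ Bd j := hmono (Nat.succ_le_of_lt hij)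
    constructor
    · have h6 : g.1.natAbs ≤ Bd j := by omega
      have h7 : ((g.1.natAbs : ℕ) : ℤ) ≤ Bd j := by exact_mod_cast h6
      rwa [Int.natCast_natAbs] at h7
    · have h6 : g.2.natAbs ≤ Bd j := by omega
      have h7 : ((g.2.natAbs : ℕ) : ℤ) ≤ Bd j := by exact_mod_cast h6
      rw [Int.natCast_natAbs] at h7
      exact (le_abs_self _).trans h7
  have hcard : ∀ B : ℕ, (0 : ℝ) < (Φ B).card := fun B => by exact_mod_cast (hΦ B).card_pos
  have hav := averaging (T := T) (fun k => Φ (Bd k))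
    (fun k _ => 1 / ((Φ (Bd k)).card : ℝ))
    (fun k x _ => by positivity)
    (fun k => by
      rw [Finset.sum_const, nsmul_eq_mul]
      exact mul_one_div_cancel (hcard _).ne')
    (fun i j x y => (∃ g ∈ Φ (Bd j), y = cmp g x) ∧ x ≠ y)
    (fun i j x y => GPair x y)
    ((1 / 3 - ε / 4) * (T : ℝ) ^ 2 / 2) ((1 / 3 - ε) + κ) (4 * κ)
    (by
      have : 0 ≤ (1 / 3 - ε / 4) := by linarith
      positivity)
    (by
      intro i j hij
      -- for each x
      have h4 : ∀ x ∈ Φ (Bd i), ∑ y ∈ Φ (Bd j), 1 / ((Φ (Bd i)).card : ℝ) * (1 / ((Φ (Bd j)).card : ℝ)) *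
          (if ((∃ g ∈ Φ (Bd j), y = cmp g x) ∧ x ≠ y) ∧ GPair x y then 1 else 0) ≤
          1 / ((Φ (Bd i)).card : ℝ) * (1 / 3 - ε) := by
        intro x hx
        rw [← Finset.mul_sum, mul_assoc]
        refine mul_le_mul_of_nonneg_left ?_ (by positivity)
        rw [Finset.sum_boole, one_div, inv_mul_le_iff₀ (hcard _), mul_comm]
        refine le_trans ?_ (hbad (Bd j)).le
        rw [Nat.cast_le]
        have h5 : (Φ (Bd j)).filter (fun y => ((∃ g ∈ Φ (Bd j), y = cmp g x) ∧ x ≠ y) ∧ GPair x y) ⊆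
            ((Φ (Bd j)).filter (fun g => GoodP g.1 g.2)).image (fun g => cmp g x) := by
          intro y hy
          rw [Finset.mem_filter] at hy
          obtain ⟨_, ⟨⟨g, hg, rfl⟩, _⟩, hgp⟩ := hy
          rw [Finset.mem_image]
          refine ⟨g, Finset.mem_filter.2 ⟨hg, ?_⟩, rfl⟩
          exact goodP_of_gpair (by have := (hΓ x (hΦS _ x hx)).1; omega)
            (by have := (hΓ g (hΦS _ g hg)).1; omega) hgp
        exact (Finset.card_le_card h5).trans Finset.card_image_le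
      refine (Finset.sum_le_sum h4).trans ?_
      rw [Finset.sum_const, nsmul_eq_mul, ← mul_assoc, mul_one_div_cancel (hcard _).ne', one_mul]
      linarith)
    (by
      intro i j hij
      have h4 : ∀ x ∈ Φ (Bd i), ∑ y ∈ Φ (Bd j), 1 / ((Φ (Bd i)).card : ℝ) * (1 / ((Φ (Bd j)).card : ℝ)) *
          (if ((∃ g ∈ Φ (Bd j), y = cmp g x) ∧ x ≠ y) then 0 else 1) ≤
          1 / ((Φ (Bd i)).card : ℝ) * (4 * κ) := by
        intro x hx
        rw [← Finset.mul_sum, mul_assoc]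
        refine mul_le_mul_of_nonneg_left ?_ (by positivity)
        have e1 : ∀ y ∈ Φ (Bd j), (if ((∃ g ∈ Φ (Bd j), y = cmp g x) ∧ x ≠ y) then (0 : ℝ) else 1) =
            if ¬ ((∃ g ∈ Φ (Bd j), y = cmp g x) ∧ x ≠ y) then 1 else 0 := by
          intro y _
          by_cases h : (∃ g ∈ Φ (Bd j), y = cmp g x) ∧ x ≠ y
          · rw [if_pos h, if_neg (not_not.2 h)]
          · rw [if_neg h, if_pos h]
        rw [Finset.sum_congr rfl e1, Finset.sum_boole, one_div, inv_mul_le_iff₀ (hcard _)]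
        have hinv := hI (Bd j) x (hΦS _ x hx) (hle i j hij x hx).1 (hle i j hij x hx).2
        have h5 : ((Φ (Bd j)).filter (fun g => cmp g x ∈ Φ (Bd j))).card ≤
            ((Φ (Bd j)).filter (fun y => ∃ g ∈ Φ (Bd j), y = cmp g x)).card := by
          refine Finset.card_le_card_of_injOn (fun g => cmp g x) ?_ ?_
          · intro g hg
            rw [Finset.mem_coe, Finset.mem_filter] at hg
            rw [Finset.mem_coe, Finset.mem_filter]
            exact ⟨hg.2, g, hg.1, rfl⟩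
          · intro g _ g' _ hgg
            exact cmp_inj (by have := (hΓ x (hΦS _ x hx)).1; omega) hgg
        have h6 := Finset.card_filter_add_card_filter_not (s := Φ (Bd j))
          (fun y => ∃ g ∈ Φ (Bd j), y = cmp g x)
        have h7 : ((Φ (Bd j)).filter (fun y => ¬ ((∃ g ∈ Φ (Bd j), y = cmp g x) ∧ x ≠ y))) ⊆
            ((Φ (Bd j)).filter (fun y => ¬ ∃ g ∈ Φ (Bd j), y = cmp g x)) ∪ {x} := by
          intro y hy
          rw [Finset.mem_filter, not_and_or, not_not] at hy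
          rw [Finset.mem_union, Finset.mem_filter, Finset.mem_singleton]
          rcases hy.2 with h | h
          · left; exact ⟨hy.1, h⟩
          · right; exact h.symm
        have h8 := (Finset.card_le_card h7).trans (Finset.card_union_le _ _)
        rw [Finset.card_singleton] at h8
        have h9 : ((((Φ (Bd j)).filter (fun y => ¬ ((∃ g ∈ Φ (Bd j), y = cmp g x) ∧ x ≠ y))).card : ℕ) : ℝ) ≤
            (((Φ (Bd j)).filter (fun y => ¬ ∃ g ∈ Φ (Bd j), y = cmp g x)).card : ℝ) + 1 := by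
          exact_mod_cast h8
        have h10 : (((Φ (Bd j)).filter (fun g => cmp g x ∈ Φ (Bd j))).card : ℝ) ≤
            (((Φ (Bd j)).filter (fun y => ∃ g ∈ Φ (Bd j), y = cmp g x)).card : ℝ) := by
          exact_mod_cast h5
        have h11 : (((Φ (Bd j)).filter (fun y => ∃ g ∈ Φ (Bd j), y = cmp g x)).card : ℝ) +
            (((Φ (Bd j)).filter (fun y => ¬ ∃ g ∈ Φ (Bd j), y = cmp g x)).card : ℝ) =
            (Φ (Bd j)).card := by exact_mod_cast h6
        have h12 := hbig (Bd j)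
        have h13 : 0 ≤ κ * ((Φ (Bd j)).card : ℝ) := by positivity
        nlinarith
      refine (Finset.sum_le_sum h4).trans ?_
      rw [Finset.sum_const, nsmul_eq_mul, ← mul_assoc, mul_one_div_cancel (hcard _).ne', one_mul])
    (by
      intro ω hω _ hE
      rw [Fintype.mem_piFinset] at hω
      have hmem : ∀ k, ω k ∈ Γ := fun k => hΦS _ _ (hω k)
      refine hdet ω (fun k => ⟨by have := (hΓ _ (hmem k)).1; omega, (hΓ _ (hmem k)).2⟩) ?_ ?_ ?_
      · obtain ⟨n, hn⟩ := h2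
        exact ⟨n, fun k => hn _ (hmem k)⟩
      · obtain ⟨n, hn⟩ := h3
        exact ⟨n, fun k => hn _ (hmem k)⟩
      · intro i j hij
        rcases lt_trichotomy i j with h | h | h
        · exact absurd hij (hE i j h).2
        · exact h
        · exact absurd hij.symm (hE j i h).2)
  refine final_arith T hT ε hε hε' _ ?_ (hκ ▸ hav)
  have h4 := card_lt_le T
  exact_mod_cast h4

end Pool.Agent.Y863.TP
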