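import Pool.Agent.Y863.TP.Bridge

/-! Densities of good constants for the quotients of a chain of four slopes. -/

set_option autoImplicit false

namespace Pool.Agent.Y863.TP

open Finset Filter
open Pool.Agent.H732R3.BigQ
open Pool.Agent.TH899.UG
open Pool.Agent.H362R2.CM

open Classical in
/-- the number of good constants `a ≡ v (mod P)` of the slope `D` in `[c, c + A)` -/
noncomputable def cnt (P : ℕ) (v : ℤ) (D : ℕ) (c : ℤ) (A : ℕ) : ℕ :=
  ((Finset.Ico c (c + A)).filter (fun a => (P : ℤ) ∣ a - v ∧ GoodP a D)).card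

/-- the density of the good constants -/
noncomputable def rho (P : ℕ) (v : ℤ) (D : ℕ) (c : ℤ) (A : ℕ) : ℝ :=
  (P : ℝ) * (cnt P v D c A : ℝ) / (A : ℝ)

open Classical in
theorem cnt_shift (P : ℕ) (v : ℤ) (D : ℕ) (c t : ℤ) (A : ℕ) :
    cnt P v D (c - t) A ≤ cnt P v D c A + t.natAbs := by
  unfold cnt
  have h1 : ((Finset.Ico (c - t) (c - t + A)).filter (fun a => (P : ℤ) ∣ a - v ∧ GoodP a D)) ⊆
      ((Finset.Ico c (c + A)).filter (fun a => (P : ℤ) ∣ a - v ∧ GoodP a D)) ∪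
        (if 0 ≤ t then Finset.Ico (c - t) c else Finset.Ico (c + A) (c + A - t)) := by
    intro a ha
    rw [Finset.mem_filter, Finset.mem_Ico] at ha
    rw [Finset.mem_union, Finset.mem_filter, Finset.mem_Ico]
    by_cases h : c ≤ a ∧ a < c + A
    · left; exact ⟨h, ha.2⟩
    · right
      split_ifs with ht
      · rw [Finset.mem_Ico]
        refine ⟨ha.1.1, ?_⟩
        by_contra hlt
        exact h ⟨by omega, by omega⟩
      · rw [Finset.mem_Ico]
        refine ⟨?_, by omega⟩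
        by_contra hlt
        exact h ⟨by omega, by omega⟩
  have h2 := (Finset.card_le_card h1).trans (Finset.card_union_le _ _)
  have h3 : (if 0 ≤ t then Finset.Ico (c - t) c else Finset.Ico (c + A) (c + A - t)).card ≤
      t.natAbs := by
    split_ifs with ht
    · rw [Int.card_Ico]; omega
    · rw [Int.card_Ico]; omega
  omega

/-- the members of a residue class in an interval -/
noncomputable def Cl (P : ℕ) (v : ℤ) (c : ℤ) (A : ℕ) : Finset ℤ :=
  (Finset.Ico c (c + A)).filter (fun a => (P : ℤ) ∣ a - v)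

theorem card_Cl (P : ℕ) (hP : 0 < P) (v : ℤ) (c : ℤ) (A : ℕ) :
    (A : ℝ) / P - 1 ≤ ((Cl P v c A).card : ℝ) ∧ ((Cl P v c A).card : ℝ) ≤ (A : ℝ) / P + 1 := by
  have hPz : (0 : ℤ) < P := by exact_mod_cast hP
  have h0 : Cl P v c A = (Finset.Ico c (c + A)).filter (fun a => a ≡ v [ZMOD (P : ℤ)]) := by
    unfold Cl
    refine Finset.filter_congr fun a _ => ?_
    rw [Int.modEq_comm, Int.modEq_iff_dvd]
  have h1 := Int.Ico_filter_modEq_card (r := (P : ℤ)) c (c + A) hPz v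
  rw [h0]
  have hPq : (0 : ℚ) < (P : ℚ) := by exact_mod_cast hP
  have h2 : ((((Finset.Ico c (c + A)).filter (fun a => a ≡ v [ZMOD (P : ℤ)])).card : ℤ) : ℚ) =
      ((max (⌈(((c + A : ℤ) : ℚ) - v) / ((P : ℤ) : ℚ)⌉ - ⌈((c : ℚ) - v) / ((P : ℤ) : ℚ)⌉) 0 : ℤ) : ℚ) := by
    rw [h1]
  have h3 := Int.le_ceil ((((c + A : ℤ) : ℚ) - v) / ((P : ℤ) : ℚ))
  have h4 := Int.ceil_lt_add_one ((((c + A : ℤ) : ℚ) - v) / ((P : ℤ) : ℚ))
  have h5 := Int.le_ceil (((c : ℚ) - v) / ((P : ℤ) : ℚ))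
  have h6 := Int.ceil_lt_add_one (((c : ℚ) - v) / ((P : ℤ) : ℚ))
  have e : (((c + A : ℤ) : ℚ) - v) / ((P : ℤ) : ℚ) = ((c : ℚ) - v) / ((P : ℤ) : ℚ) + (A : ℚ) / P := by
    push_cast
    ring
  have hA : (0 : ℚ) ≤ (A : ℚ) / P := by positivity
  have key : (A : ℚ) / P - 1 ≤ ((((Finset.Ico c (c + A)).filter
      (fun a => a ≡ v [ZMOD (P : ℤ)])).card : ℤ) : ℚ) ∧ ((((Finset.Ico c (c + A)).filter
      (fun a => a ≡ v [ZMOD (P : ℤ)])).card : ℤ) : ℚ) ≤ (A : ℚ) / P + 1 := by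
    rw [h2, Int.cast_max, Int.cast_sub, Int.cast_zero]
    rw [e] at h3 h4 ⊢
    constructor
    · refine le_trans ?_ (le_max_left _ _)
      linarith
    · refine max_le ?_ (by linarith)
      linarith
  constructor
  · have := (Rat.cast_le (K := ℝ)).2 key.1
    push_cast at this
    exact this
  · have := (Rat.cast_le (K := ℝ)).2 key.2
    push_cast at this
    exact this

theorem rho_le (P : ℕ) (hP : 0 < P) (v : ℤ) (D : ℕ) (c : ℤ) (A : ℕ) (hA : P ≤ A) :
    rho P v D c A ≤ 2 := by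
  classical
  have hA0 : (0 : ℝ) < A := by
    have : 0 < A := by omega
    exact_mod_cast this
  have hP0 : (0 : ℝ) < P := by exact_mod_cast hP
  have h1 : (cnt P v D c A : ℝ) ≤ (A : ℝ) / P + 1 := by
    refine le_trans ?_ (card_Cl P hP v c A).2
    unfold cnt Cl
    rw [Nat.cast_le]
    refine Finset.card_le_card ?_
    intro a ha
    rw [Finset.mem_filter] at ha ⊢
    exact ⟨ha.1, ha.2.1⟩
  unfold rho
  rw [div_le_iff₀ hA0]
  have h2 : (P : ℝ) ≤ A := by exact_mod_cast hA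
  calc (P : ℝ) * (cnt P v D c A : ℝ) ≤ P * ((A : ℝ) / P + 1) := mul_le_mul_of_nonneg_left h1 hP0.le
    _ = A + P := by field_simp
    _ ≤ 2 * A := by linarith

theorem rho_nonneg (P : ℕ) (v : ℤ) (D : ℕ) (c : ℤ) (A : ℕ) : 0 ≤ rho P v D c A := by
  unfold rho; positivity

/-- good pairs with a fixed first form -/
theorem card_pairs (P : ℕ) (hP : 0 < P) (E E' : ℕ) (hE : 0 < E) (hE' : 0 < E') (hdvd : E ∣ E')
    (u u' b : ℤ) (hb : (P : ℤ) ∣ b - u) (c : ℤ) (A : ℕ) [DecidablePred fun b' : ℤ =>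
      PairBig (((P * E : ℕ) : ℤ), b) (((P * E' : ℕ) : ℤ), b')] :
    ((Cl P u' c A).filter (fun b' => PairBig (((P * E : ℕ) : ℤ), b) (((P * E' : ℕ) : ℤ), b'))).card ≤
      cnt P (u' - (E' / E : ℕ) * u) (E' / E) c A + (E' / E) * b.natAbs := by
  classical
  refine le_trans ?_ ((cnt_shift P (u' - (E' / E : ℕ) * u) (E' / E) c (((E' / E : ℕ) : ℤ) * b) A).trans
    (le_of_eq ?_))
  · unfold cnt
    refine Finset.card_le_card_of_injOn (fun b' => b' - (E' / E : ℕ) * b) ?_ ?_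
    · intro b' hb'
      rw [Finset.mem_coe, Finset.mem_filter] at hb'
      have h1 := hb'.1
      unfold Cl at h1
      rw [Finset.mem_filter, Finset.mem_Ico] at h1
      rw [Finset.mem_coe, Finset.mem_filter, Finset.mem_Ico]
      refine ⟨⟨by linarith [h1.1.1], by linarith [h1.1.2]⟩, ?_, ?_⟩
      · have e : b' - (E' / E : ℕ) * b - (u' - (E' / E : ℕ) * u) =
            (b' - u') - ((E' / E : ℕ) : ℤ) * (b - u) := by ring
        rw [e]
        exact dvd_sub h1.2 (Dvd.dvd.mul_left hb _)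
      · have h2 := good_of_pairBig (P * E) (P * E') b b' (Nat.mul_pos hP hE)
          (Nat.mul_dvd_mul_left P hdvd) hb'.2
        rw [Nat.mul_div_mul_left _ _ hP] at h2
        exact goodP_of _ _ (Nat.div_pos (Nat.le_of_dvd hE' hdvd) hE) h2
    · intro b' _ b'' _ h
      have h : b' - (E' / E : ℕ) * b = b'' - (E' / E : ℕ) * b := h
      linarith
  · rw [Int.natAbs_mul, Int.natAbs_natCast]

end Pool.Agent.Y863.TP
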