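import Pool.Agent.Y863.TP.Six

/-! Densities of good constants for the quotients of a chain of four slopes: the theorem. -/

set_option autoImplicit false

namespace Pool.Agent.Y863.TP

open Finset Filter
open Pool.Agent.H732R3.BigQ
open Pool.Agent.TH899.UG
open Pool.Agent.H362R2.CM

/-- the pairs of classes -/
def PP : Finset (Fin 4 × Fin 4) :=
  (univ ×ˢ univ : Finset (Fin 4 × Fin 4)).filter (fun x => x.1 < x.2)

theorem card_PP : PP.card = 6 := by decide

open Classical in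
/-- almost every choice of four forms contains a good pair -/
theorem four_classes : ∃ C δ : ℝ, 0 < C ∧ 0 < δ ∧ ∀ N : ℕ, 1 ≤ N →
    ∀ V : Fin 4 → Finset (ℤ × ℤ),
    (∀ i, ∀ f ∈ V i, 0 < f.1) → (∀ i, N ≤ (V i).card) → (∀ f ∈ Fintype.piFinset V, Adm f) →
    1 - C * (N : ℝ) ^ (-δ) ≤ ∑ x ∈ PP,
      ∑ v ∈ V x.1, ∑ v' ∈ V x.2, 1 / ((V x.1).card : ℝ) * (1 / ((V x.2).card : ℝ)) *
        (if PairBig v v' then 1 else 0) := by
  obtain ⟨C, δ, hC, hδ, hδ1, H⟩ := almost_all_pow 4 TwoHit Big hitP_four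
  refine ⟨C, δ, hC, hδ, ?_⟩
  intro N hN V hpos hcard hadm
  have hV : ∀ k, (0 : ℝ) < (V k).card := by
    intro k
    have := hcard k
    exact_mod_cast (by omega : 0 < (V k).card)
  obtain ⟨w, hw⟩ : ∃ w : Fin 4 → ℤ × ℤ → ℝ, ∀ k x, w k x = 1 / ((V k).card : ℝ) :=
    ⟨fun k _ => 1 / ((V k).card : ℝ), fun _ _ => rfl⟩
  have hw1 : ∀ k, ∑ x ∈ V k, w k x = 1 := by
    intro k
    rw [Finset.sum_congr rfl (fun x _ => hw k x), Finset.sum_const, nsmul_eq_mul]
    exact mul_one_div_cancel (hV k).ne'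
  have htot := total_mass V w hw1
  obtain ⟨Ex, hEx⟩ : ∃ Ex : Finset (Fin 4 → ℤ × ℤ), Ex = (Fintype.piFinset V).filter
    (fun f => Adm f ∧ ¬ ∃ S : Finset (Fin 4), TwoHit S ∧ SimP Big f S) := ⟨_, rfl⟩
  have hH := H N hN V hpos hcard
  rw [← hEx] at hH
  have hprod : ∀ ω : Fin 4 → ℤ × ℤ, ∏ k, w k (ω k) = 1 / ∏ k, ((V k).card : ℝ) := by
    intro ω
    rw [Finset.prod_congr rfl (fun k _ => hw k (ω k)), Finset.prod_div_distrib, Finset.prod_const_one]
  have hPpos : (0 : ℝ) < ∏ k, ((V k).card : ℝ) := Finset.prod_pos fun k _ => hV k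
  have hpoint : ∀ ω ∈ Fintype.piFinset V, ∏ k, w k (ω k) ≤
      (∏ k, w k (ω k)) * (if ω ∈ Ex then 1 else 0) +
        ∑ x ∈ PP, (∏ k, w k (ω k)) * (if PairBig (ω x.1) (ω x.2) then 1 else 0) := by
    intro ω hω
    have h0 : 0 ≤ ∏ k, w k (ω k) := Finset.prod_nonneg fun k _ => by
      rw [hw]
      exact (one_div_pos.2 (hV k)).le
    have hnn : ∀ x ∈ PP, 0 ≤ (∏ k, w k (ω k)) * (if PairBig (ω x.1) (ω x.2) then (1 : ℝ) else 0) := by
      intro x _
      refine mul_nonneg h0 ?_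
      by_cases h : PairBig (ω x.1) (ω x.2)
      · rw [if_pos h]; exact zero_le_one
      · rw [if_neg h]
    by_cases hE : ω ∈ Ex
    · rw [if_pos hE, mul_one]
      have := Finset.sum_nonneg hnn
      linarith
    · rw [if_neg hE, mul_zero, zero_add]
      rw [hEx, Finset.mem_filter] at hE
      push Not at hE
      obtain ⟨S, hS, hsim⟩ := hE hω (hadm ω hω)
      have hS' : 1 < S.card := hS
      obtain ⟨i, hi, j, hj, hij⟩ := Finset.one_lt_card.1 hS'
      have hkey : ∀ i j : Fin 4, i ∈ S → j ∈ S → PairBig (ω i) (ω j) := by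
        intro i j hi hj
        refine Pool.Agent.H732R3.BigQ.Big.mono ?_ hsim
        intro n hn
        exact ⟨hn i hi, hn j hj⟩
      obtain ⟨x, hx, hxp⟩ : ∃ x ∈ PP, PairBig (ω x.1) (ω x.2) := by
        rcases lt_or_gt_of_ne hij with h | h
        · exact ⟨(i, j), Finset.mem_filter.2 ⟨Finset.mem_product.2 ⟨Finset.mem_univ _,
            Finset.mem_univ _⟩, h⟩, hkey i j hi hj⟩
        · exact ⟨(j, i), Finset.mem_filter.2 ⟨Finset.mem_product.2 ⟨Finset.mem_univ _,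
            Finset.mem_univ _⟩, h⟩, hkey j i hj hi⟩
      refine le_trans ?_ (Finset.single_le_sum hnn hx)
      rw [if_pos hxp, mul_one]
  have hsum := Finset.sum_le_sum hpoint
  rw [htot, Finset.sum_add_distrib, Finset.sum_comm] at hsum
  have hex : ∑ ω ∈ Fintype.piFinset V, (∏ k, w k (ω k)) * (if ω ∈ Ex then (1 : ℝ) else 0) ≤
      C * (N : ℝ) ^ (-δ) := by
    have h1 : ∑ ω ∈ Fintype.piFinset V, (∏ k, w k (ω k)) * (if ω ∈ Ex then (1 : ℝ) else 0) =
        (1 / ∏ k, ((V k).card : ℝ)) * (Ex.card : ℝ) := by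
      have h2 : ∀ ω ∈ Fintype.piFinset V, (∏ k, w k (ω k)) * (if ω ∈ Ex then (1 : ℝ) else 0) =
          (1 / ∏ k, ((V k).card : ℝ)) * (if ω ∈ Ex then (1 : ℝ) else 0) := by
        intro ω _
        rw [hprod]
      rw [Finset.sum_congr rfl h2, ← Finset.mul_sum, Finset.sum_boole]
      congr 2
      have h3 : (Fintype.piFinset V).filter (fun ω => ω ∈ Ex) = Ex := by
        ext ω
        rw [Finset.mem_filter]
        refine ⟨fun h => h.2, fun h => ⟨?_, h⟩⟩
        rw [hEx, Finset.mem_filter] at h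
        exact h.1
      rw [h3]
    rw [h1, one_div, inv_mul_le_iff₀ hPpos, mul_comm]
    exact hH
  have hmarg : ∀ x ∈ PP, ∑ ω ∈ Fintype.piFinset V, (∏ k, w k (ω k)) *
      (if PairBig (ω x.1) (ω x.2) then (1 : ℝ) else 0) =
      ∑ v ∈ V x.1, ∑ v' ∈ V x.2, 1 / ((V x.1).card : ℝ) * (1 / ((V x.2).card : ℝ)) *
        (if PairBig v v' then 1 else 0) := by
    intro x hx
    have hlt : x.1 < x.2 := (Finset.mem_filter.1 hx).2
    rw [pair_marginal V w hw1 x.1 x.2 (ne_of_lt hlt) (fun a b => if PairBig a b then 1 else 0)]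
    refine Finset.sum_congr rfl fun v _ => Finset.sum_congr rfl fun v' _ => ?_
    rw [hw, hw]
  rw [Finset.sum_congr rfl hmarg] at hsum
  linarith

/-- the forms of a class -/
noncomputable def VV (P E : ℕ) (u c : ℤ) (A : ℕ) : Finset (ℤ × ℤ) :=
  (Cl P u c A).image (fun b => (((P * E : ℕ) : ℤ), b))

theorem inj_form (m : ℤ) : Function.Injective (fun b : ℤ => (m, b)) := fun _ _ h =>
  congrArg Prod.snd h

theorem card_VV (P E : ℕ) (u c : ℤ) (A : ℕ) : (VV P E u c A).card = (Cl P u c A).card := by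
  unfold VV
  exact Finset.card_image_of_injective _ (inj_form _)

open Classical in
/-- the proportion of good pairs in two classes, the second much longer than the first -/
theorem prob_pair (P : ℕ) (hP : 0 < P) (E E' : ℕ) (hE : 0 < E) (hE' : 0 < E') (hdvd : E ∣ E')
    (u u' c c' : ℤ) (A A' : ℕ) (η : ℝ) (hη : 0 < η) (hV : 0 < (VV P E u c A).card)
    (hA' : ((E' : ℝ) + 2) * (2 * P / η) * ((c.natAbs : ℝ) + A + 1) + P ≤ A') :
    ∑ v ∈ VV P E u c A, ∑ v' ∈ VV P E' u' c' A', 1 / ((VV P E u c A).card : ℝ) *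
      (1 / ((VV P E' u' c' A').card : ℝ)) * (if PairBig v v' then 1 else 0) ≤
      rho P (u' - (E' / E : ℕ) * u) (E' / E) c' A' + η := by
  have hP0 : (0 : ℝ) < P := by exact_mod_cast hP
  have hV' : (0 : ℝ) < (VV P E u c A).card := by exact_mod_cast hV
  have hH0 : (0 : ℝ) ≤ (c.natAbs : ℝ) + A + 1 := by positivity
  have hE0 : (0 : ℝ) ≤ E' := Nat.cast_nonneg _
  -- the second class is large
  have hX1 : ((E' : ℝ) + 2) * (2 / η) * ((c.natAbs : ℝ) + A + 1) ≤ (A' : ℝ) / P - 1 := by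
    have h1 : (((E' : ℝ) + 2) * (2 / η) * ((c.natAbs : ℝ) + A + 1) + 1) * P ≤ A' := by
      refine le_trans (le_of_eq ?_) hA'
      ring
    have h2 := (le_div_iff₀ hP0).2 h1
    linarith
  have hX2 := (card_Cl P hP u' c' A').1
  rw [← card_VV P E' u' c' A'] at hX2
  obtain ⟨X, hX⟩ : ∃ X : ℝ, X = ((VV P E' u' c' A').card : ℝ) := ⟨_, rfl⟩
  have hXbig : ((E' : ℝ) + 2) * ((c.natAbs : ℝ) + A + 1) ≤ η / 2 * X := by
    rw [hX]
    have h1 : ((E' : ℝ) + 2) * (2 / η) * ((c.natAbs : ℝ) + A + 1) ≤ ((VV P E' u' c' A').card : ℝ) :=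
      hX1.trans hX2
    have h2 : ((E' : ℝ) + 2) * (2 / η) * ((c.natAbs : ℝ) + A + 1) =
        (((E' : ℝ) + 2) * ((c.natAbs : ℝ) + A + 1)) / (η / 2) := by
      field_simp
    rw [h2, div_le_iff₀ (by positivity)] at h1
    linarith
  have hH1 : (1 : ℝ) ≤ (c.natAbs : ℝ) + A + 1 := by
    have : (0 : ℝ) ≤ (c.natAbs : ℝ) + A := by positivity
    linarith
  have hXpos : 0 < X := by
    have h1 : (0 : ℝ) < ((E' : ℝ) + 2) * ((c.natAbs : ℝ) + A + 1) := by positivity
    by_contra hcon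
    push Not at hcon
    have : η / 2 * X ≤ 0 := mul_nonpos_of_nonneg_of_nonpos (by positivity) hcon
    linarith
  have hA'P : P ≤ A' := by
    have h1 : (P : ℝ) ≤ A' := by
      have : 0 ≤ ((E' : ℝ) + 2) * (2 * P / η) * ((c.natAbs : ℝ) + A + 1) := by positivity
      linarith
    exact_mod_cast h1
  have hrho2 := rho_le P hP (u' - (E' / E : ℕ) * u) (E' / E) c' A' hA'P
  have hA0 : (0 : ℝ) < A' := by
    have : 0 < A' := by omega
    exact_mod_cast this
  obtain ⟨R, hR⟩ : ∃ R : ℝ, R = rho P (u' - (E' / E : ℕ) * u) (E' / E) c' A' := ⟨_, rfl⟩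
  have hcnt : (cnt P (u' - (E' / E : ℕ) * u) (E' / E) c' A' : ℝ) = R * ((A' : ℝ) / P) := by
    rw [hR]
    unfold rho
    field_simp
  -- one first form
  have hone : ∀ v ∈ VV P E u c A, ∑ v' ∈ VV P E' u' c' A', 1 / ((VV P E u c A).card : ℝ) *
      (1 / ((VV P E' u' c' A').card : ℝ)) * (if PairBig v v' then (1 : ℝ) else 0) ≤
      1 / ((VV P E u c A).card : ℝ) * (R + η) := by
    intro v hv
    rw [← Finset.mul_sum, mul_assoc]
    refine mul_le_mul_of_nonneg_left ?_ (by positivity)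
    rw [Finset.sum_boole, one_div, inv_mul_le_iff₀ (by rw [← hX]; exact hXpos), ← hX]
    unfold VV at hv
    obtain ⟨b, hb, rfl⟩ := Finset.mem_image.1 hv
    have hb' := hb
    unfold Cl at hb'
    rw [Finset.mem_filter, Finset.mem_Ico] at hb'
    have h1 : ((VV P E' u' c' A').filter (fun v' => PairBig (((P * E : ℕ) : ℤ), b) v')).card ≤
        ((Cl P u' c' A').filter (fun b' => PairBig (((P * E : ℕ) : ℤ), b) (((P * E' : ℕ) : ℤ), b'))).card := by
      unfold VV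
      rw [Finset.filter_image]
      exact Finset.card_image_le
    have h2 := h1.trans (card_pairs P hP E E' hE hE' hdvd u u' b hb'.2 c' A')
    have h3 : (((VV P E' u' c' A').filter (fun v' => PairBig (((P * E : ℕ) : ℤ), b) v')).card : ℝ) ≤
        (cnt P (u' - (E' / E : ℕ) * u) (E' / E) c' A' : ℝ) + ((E' / E : ℕ) : ℝ) * (b.natAbs : ℝ) := by
      exact_mod_cast h2
    refine h3.trans ?_
    rw [hcnt]
    have h4 : ((E' / E : ℕ) : ℝ) ≤ E' := by exact_mod_cast Nat.div_le_self E' E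
    have h5 : (b.natAbs : ℝ) ≤ (c.natAbs : ℝ) + A := by
      have h6 : b.natAbs ≤ c.natAbs + A := by omega
      exact_mod_cast h6
    have h6 : ((E' / E : ℕ) : ℝ) * (b.natAbs : ℝ) ≤ E' * ((c.natAbs : ℝ) + A) :=
      mul_le_mul h4 h5 (by positivity) hE0
    have h7 : (A' : ℝ) / P ≤ X + 1 := by rw [hX]; linarith
    have hR0 : 0 ≤ R := by rw [hR]; exact rho_nonneg _ _ _ _ _
    have hR2 : R ≤ 2 := by rw [hR]; exact hrho2
    have h8 : R * ((A' : ℝ) / P) ≤ R * (X + 1) := mul_le_mul_of_nonneg_left h7 hR0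
    have h9 : E' * ((c.natAbs : ℝ) + A) + 2 ≤ ((E' : ℝ) + 2) * ((c.natAbs : ℝ) + A + 1) := by
      nlinarith [mul_nonneg hE0 (show (0 : ℝ) ≤ (c.natAbs : ℝ) + A by positivity)]
    nlinarith
  refine (Finset.sum_le_sum hone).trans ?_
  rw [Finset.sum_const, nsmul_eq_mul, ← mul_assoc, mul_one_div_cancel hV'.ne', one_mul, hR]

end Pool.Agent.Y863.TP
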