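import Pool.Agent.Y863.TP.Six2

/-! Densities of good constants for the quotients of a chain of four slopes: the theorem. -/

set_option autoImplicit false

namespace Pool.Agent.Y863.TP

open Finset Filter
open Pool.Agent.H732R3.BigQ
open Pool.Agent.TH899.UG
open Pool.Agent.H362R2.CM

theorem adm_class (E : Fin 4 → ℕ) (P : ℕ) (h6 : 6 ∣ P)
    (hEP : ∀ p : ℕ, p.Prime → ∀ i, p ∣ E i → p ∣ P) (u : Fin 4 → ℤ)
    (hu : ∀ i, Int.gcd (u i) P = 1) (f : Fin 4 → ℤ × ℤ)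
    (hf : ∀ i, (f i).1 = ((P * E i : ℕ) : ℤ) ∧ (P : ℤ) ∣ (f i).2 - u i) : Adm f := by
  intro p hp
  have hpz : Prime (p : ℤ) := Nat.prime_iff_prime_int.1 hp
  by_cases hpP : p ∣ P
  · refine ⟨0, fun i hdiv => ?_⟩
    rw [mul_zero, zero_add] at hdiv
    have h1 : (p : ℤ) ∣ P := Int.natCast_dvd_natCast.2 hpP
    have h2 : (p : ℤ) ∣ u i := by
      have h3 := dvd_sub hdiv (h1.trans (hf i).2)
      have e : (f i).2 - ((f i).2 - u i) = u i := by ring
      rwa [e] at h3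
    have h3 := Int.dvd_coe_gcd h2 h1
    rw [hu i] at h3
    have h4 : p ∣ 1 := by exact_mod_cast h3
    exact hp.one_lt.ne' (Nat.dvd_one.1 h4)
  · have hp5 : 5 ≤ p := by
      by_contra hlt
      push Not at hlt
      have := hp.two_le
      interval_cases p
      · exact hpP (dvd_trans (by norm_num) h6)
      · exact hpP (dvd_trans (by norm_num) h6)
      · exact absurd hp (by norm_num)
    refine avoid_five p hp hp5 (fun i => (f i).1) (fun i => (f i).2) ?_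
    intro i hd _
    have hd : (p : ℤ) ∣ (f i).1 := hd
    rw [(hf i).1] at hd
    have h1 : p ∣ P * E i := Int.natCast_dvd_natCast.1 hd
    rcases hp.dvd_mul.1 h1 with h2 | h2
    · exact hpP h2
    · exact hpP (hEP p hp i h2)

theorem small_pow (C δ ε : ℝ) (hδ : 0 < δ) (hε : 0 < ε) :
    ∃ N : ℕ, 1 ≤ N ∧ C * (N : ℝ) ^ (-δ) ≤ ε := by
  have h1 : Tendsto (fun x : ℝ => C * x ^ (-δ)) atTop (nhds (C * 0)) :=
    (tendsto_rpow_neg_atTop hδ).const_mul C
  rw [mul_zero] at h1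
  have h2 := h1.comp (tendsto_natCast_atTop_atTop (R := ℝ))
  have h3 := (h2.eventually (ge_mem_nhds hε)).and (eventually_ge_atTop 1)
  obtain ⟨N, hN, hN1⟩ := h3.exists
  exact ⟨N, hN1, hN⟩

/-- infinitely many indices with nearly the same vector -/
theorem coarse {α : Type} [Finite α] (R : ℕ → α → ℝ) (k₀ : ℕ) (η : ℝ) (hη : 0 < η)
    (h0 : ∀ k x, 0 ≤ R k x) (h2 : ∀ k x, k₀ ≤ k → R k x ≤ 2) :
    ∃ S : Set ℕ, (∀ B : ℕ, ∃ k ∈ S, B ≤ k) ∧ ∀ k ∈ S, ∀ k' ∈ S, ∀ x, R k x ≤ R k' x + η := by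
  classical
  obtain ⟨M, hM⟩ : ∃ M : ℕ, 2 / η < M := exists_nat_gt _
  obtain ⟨g, hg⟩ : ∃ g : ℕ → α → Fin (M + 1), ∀ k x, ((g k x : Fin (M + 1)) : ℕ) = min ⌊R k x / η⌋₊ M :=
    ⟨fun k x => ⟨min ⌊R k x / η⌋₊ M, by omega⟩, fun _ _ => rfl⟩
  obtain ⟨y, hy⟩ := Finite.exists_infinite_fiber g
  have hy' : (g ⁻¹' {y}).Infinite := Set.infinite_coe_iff.1 hy
  refine ⟨(g ⁻¹' {y}) ∩ {k | k₀ ≤ k}, ?_, ?_⟩
  · intro B
    obtain ⟨k, hk, hBk⟩ := hy'.exists_gt (B + k₀)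
    have hBk' : B + k₀ < k := hBk
    exact ⟨k, ⟨hk, by show k₀ ≤ k; omega⟩, by omega⟩
  · rintro k ⟨hk, hk0⟩ k' ⟨hk', hk0'⟩ x
    have e1 : g k = y := hk
    have e2 : g k' = y := hk'
    have h3 : ∀ l : ℕ, k₀ ≤ l → min ⌊R l x / η⌋₊ M = ⌊R l x / η⌋₊ := by
      intro l hl
      refine min_eq_left ?_
      have h4 : R l x / η < M := lt_of_le_of_lt (div_le_div_of_nonneg_right (h2 l x hl) hη.le) hM
      have h5 := Nat.floor_le (div_nonneg (h0 l x) hη.le)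
      have h6 : ((⌊R l x / η⌋₊ : ℕ) : ℝ) < (M : ℝ) := lt_of_le_of_lt h5 h4
      exact (Nat.cast_lt.1 h6).le
    have h4 : ⌊R k x / η⌋₊ = ⌊R k' x / η⌋₊ := by
      rw [← h3 k hk0, ← h3 k' hk0', ← hg, ← hg, e1, e2]
    have h5 := Nat.lt_floor_add_one (R k x / η)
    have h6 := Nat.floor_le (div_nonneg (h0 k' x) hη.le)
    rw [h4] at h5
    have h7 : R k x / η < R k' x / η + 1 := by linarith
    have h8 : R k' x / η + 1 = (R k' x + η) / η := by
      rw [add_div, div_self hη.ne']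
    rw [h8, div_lt_div_iff_of_pos_right hη] at h7
    exact h7.le

/-- the sum of the six densities -/
theorem six (E : Fin 4 → ℕ) (hE : ∀ i, 0 < E i) (hdvd : ∀ i j, i ≤ j → E i ∣ E j) (P : ℕ)
    (hP : 0 < P) (h6 : 6 ∣ P) (hEP : ∀ p : ℕ, p.Prime → ∀ i, p ∣ E i → p ∣ P) (u : Fin 4 → ℤ)
    (hu : ∀ i, Int.gcd (u i) P = 1) (ε : ℝ) (hε : 0 < ε) :
    ∃ L : ℕ, ∀ A : ℕ, L ≤ A → ∀ c : ℤ, 1 - ε ≤
      ∑ x ∈ PP, rho P (u x.2 - (E x.2 / E x.1 : ℕ) * u x.1) (E x.2 / E x.1) c A := by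
  classical
  by_contra hcon
  push Not at hcon
  choose A hA c hc using hcon
  obtain ⟨η, hη⟩ : ∃ η : ℝ, η = ε / 24 := ⟨_, rfl⟩
  have hη0 : 0 < η := by rw [hη]; linarith
  obtain ⟨R, hR⟩ : ∃ R : ℕ → Fin 4 × Fin 4 → ℝ, ∀ k x, R k x =
      rho P (u x.2 - (E x.2 / E x.1 : ℕ) * u x.1) (E x.2 / E x.1) (c k) (A k) :=
    ⟨fun k x => rho P (u x.2 - (E x.2 / E x.1 : ℕ) * u x.1) (E x.2 / E x.1) (c k) (A k),
      fun _ _ => rfl⟩
  obtain ⟨S, hS1, hS2⟩ := coarse R P η hη0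
    (fun k x => by rw [hR]; exact rho_nonneg _ _ _ _ _)
    (fun k x hk => by rw [hR]; exact rho_le P hP _ _ _ _ (hk.trans (hA k)))
  choose f hfS hf using hS1
  obtain ⟨C, δ, hC, hδ, H4⟩ := four_classes
  obtain ⟨N, hN1, hN⟩ := small_pow C δ (ε / 4) hδ (by linarith)
  obtain ⟨Z, hZ⟩ : ∃ Z : ℕ, ((E 3 : ℝ) + 2) * (2 * P / η) ≤ Z := exists_nat_ge _
  obtain ⟨q, hq0, hqs⟩ : ∃ q : ℕ → ℕ, q 0 = f (P * (N + 1)) ∧ ∀ j, q (j + 1) =
      f (Z * ((c (q j)).natAbs + A (q j) + 1) + P + q j) :=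
    ⟨fun m => Nat.rec (f (P * (N + 1))) (fun _ k => f (Z * ((c k).natAbs + A k + 1) + P + k)) m,
      rfl, fun _ => rfl⟩
  have hqS : ∀ j, q j ∈ S := by
    intro j
    cases j with
    | zero => rw [hq0]; exact hfS _
    | succ j => rw [hqs]; exact hfS _
  have hqm : Monotone q := monotone_nat_of_le_succ fun j => by
    have := hf (Z * ((c (q j)).natAbs + A (q j) + 1) + P + q j)
    rw [hqs]
    omega
  have hqstep : ∀ i j : ℕ, i < j → Z * ((c (q i)).natAbs + A (q i) + 1) + P ≤ A (q j) := by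
    intro i j hij
    have h1 := hf (Z * ((c (q i)).natAbs + A (q i) + 1) + P + q i)
    rw [← hqs] at h1
    have h2 : q (i + 1) ≤ q j := hqm (Nat.succ_le_of_lt hij)
    have h3 := hA (q j)
    omega
  have hq00 : ∀ j, P * (N + 1) ≤ A (q j) := by
    intro j
    have h1 := hf (P * (N + 1))
    rw [← hq0] at h1
    have h2 : q 0 ≤ q j := hqm (Nat.zero_le _)
    have h3 := hA (q j)
    omega
  have hcardV : ∀ j : Fin 4, N ≤ (VV P (E j) (u j) (c (q j)) (A (q j))).card := by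
    intro j
    rw [card_VV]
    have h1 := (card_Cl P hP (u j) (c (q j)) (A (q j))).1
    have h2 : ((P * (N + 1) : ℕ) : ℝ) ≤ (A (q j) : ℝ) := by exact_mod_cast hq00 j
    have hP0 : (0 : ℝ) < P := by exact_mod_cast hP
    have h3 : (N : ℝ) + 1 ≤ (A (q j) : ℝ) / P := by
      rw [le_div_iff₀ hP0]
      push_cast at h2
      linarith
    have h4 : (N : ℝ) ≤ ((Cl P (u j) (c (q j)) (A (q j))).card : ℝ) := by linarith
    exact_mod_cast h4
  have hmain := H4 N hN1 (fun j => VV P (E j) (u j) (c (q j)) (A (q j)))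
    (by
      intro j v hv
      unfold VV at hv
      obtain ⟨b, _, rfl⟩ := Finset.mem_image.1 hv
      show (0 : ℤ) < ((P * E j : ℕ) : ℤ)
      exact_mod_cast Nat.mul_pos hP (hE j))
    hcardV
    (by
      intro v hv
      rw [Fintype.mem_piFinset] at hv
      refine adm_class E P h6 hEP u hu v (fun i => ?_)
      have h1 := hv i
      unfold VV at h1
      obtain ⟨b, hb, hb2⟩ := Finset.mem_image.1 h1
      rw [← hb2]
      unfold Cl at hb
      exact ⟨rfl, (Finset.mem_filter.1 hb).2⟩)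
  have hpairs : ∀ x ∈ PP, ∑ v ∈ VV P (E x.1) (u x.1) (c (q x.1)) (A (q x.1)),
      ∑ v' ∈ VV P (E x.2) (u x.2) (c (q x.2)) (A (q x.2)),
        1 / ((VV P (E x.1) (u x.1) (c (q x.1)) (A (q x.1))).card : ℝ) *
        (1 / ((VV P (E x.2) (u x.2) (c (q x.2)) (A (q x.2))).card : ℝ)) *
          (if PairBig v v' then 1 else 0) ≤ R (q 3) x + 2 * η := by
    intro x hx
    have hlt : x.1 < x.2 := (Finset.mem_filter.1 hx).2
    have h1 := prob_pair P hP (E x.1) (E x.2) (hE _) (hE _) (hdvd _ _ hlt.le) (u x.1) (u x.2)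
      (c (q x.1)) (c (q x.2)) (A (q x.1)) (A (q x.2)) η hη0
      (by have := hcardV x.1; omega)
      (by
        have h2 := hqstep x.1 x.2 hlt
        have h3 : ((Z * ((c (q x.1)).natAbs + A (q x.1) + 1) + P : ℕ) : ℝ) ≤ (A (q x.2) : ℝ) := by
          exact_mod_cast h2
        push_cast at h3
        have h4 : (E x.2 : ℝ) ≤ E 3 := by
          have h5 : x.2 ≤ 3 := Fin.le_last _
          exact_mod_cast Nat.le_of_dvd (hE 3) (hdvd x.2 3 h5)
        have hP0 : (0 : ℝ) < P := by exact_mod_cast hP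
        have h5 : (0 : ℝ) ≤ 2 * P / η := by positivity
        have h6 : ((E x.2 : ℝ) + 2) * (2 * P / η) ≤ Z :=
          le_trans (mul_le_mul_of_nonneg_right (by linarith) h5) hZ
        have h7 : (0 : ℝ) ≤ ((c (q x.1)).natAbs : ℝ) + A (q x.1) + 1 := by positivity
        have h8 := mul_le_mul_of_nonneg_right h6 h7
        linarith)
    refine h1.trans ?_
    rw [← hR (q x.2) x]
    have h2 := hS2 (q x.2) (hqS _) (q 3) (hqS _) x
    linarith
  have h1 := hmain.trans (Finset.sum_le_sum hpairs)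
  rw [Finset.sum_add_distrib, Finset.sum_const, card_PP] at h1
  have h2 := hc (q 3)
  have h3 : ∑ x ∈ PP, R (q 3) x = ∑ x ∈ PP,
      rho P (u x.2 - (E x.2 / E x.1 : ℕ) * u x.1) (E x.2 / E x.1) (c (q 3)) (A (q 3)) :=
    Finset.sum_congr rfl fun x _ => hR _ _
  rw [h3] at h1
  have h4 : (6 : ℕ) • (2 * η) = ε / 2 := by
    rw [nsmul_eq_mul, hη]
    push_cast
    ring
  rw [h4] at h1
  linarith

end Pool.Agent.Y863.TP
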