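import Pool.Agent.Y863.TP.Six3

/-! The trade-off between the densities of good constants for the quotients of a chain of slopes. -/

set_option autoImplicit false

namespace Pool.Agent.Y863.TP

open Finset Filter
open Pool.Agent.H732R3.BigQ
open Pool.Agent.TH899.UG
open Pool.Agent.H362R2.CM

/-- independence of two functions of disjoint pairs of coordinates -/
theorem indep_four (V : Fin 4 → Finset (ℤ × ℤ)) (w : Fin 4 → ℤ × ℤ → ℝ) (X Y : ℤ × ℤ → ℤ × ℤ → ℝ) :
    ∑ ω ∈ Fintype.piFinset V, (∏ k, w k (ω k)) * (X (ω 0) (ω 1) * Y (ω 2) (ω 3)) =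
      (∑ a ∈ V 0, ∑ b ∈ V 1, w 0 a * w 1 b * X a b) *
        (∑ a ∈ V 2, ∑ b ∈ V 3, w 2 a * w 3 b * Y a b) := by
  have h1 : ∑ ω ∈ Fintype.piFinset V, (∏ k, w k (ω k)) * (X (ω 0) (ω 1) * Y (ω 2) (ω 3)) =
      ∑ z ∈ (V 0 ×ˢ V 1) ×ˢ (V 2 ×ˢ V 3), (w 0 z.1.1 * w 1 z.1.2 * X z.1.1 z.1.2) *
        (w 2 z.2.1 * w 3 z.2.2 * Y z.2.1 z.2.2) := by
    refine Finset.sum_nbij' (fun ω => ((ω 0, ω 1), (ω 2, ω 3)))
      (fun z => ![z.1.1, z.1.2, z.2.1, z.2.2]) ?_ ?_ ?_ ?_ ?_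
    · intro ω hω
      rw [Fintype.mem_piFinset] at hω
      simp only [Finset.mem_product]
      exact ⟨⟨hω 0, hω 1⟩, hω 2, hω 3⟩
    · intro z hz
      simp only [Finset.mem_product] at hz
      rw [Fintype.mem_piFinset]
      intro i
      fin_cases i
      · exact hz.1.1
      · exact hz.1.2
      · exact hz.2.1
      · exact hz.2.2
    · intro ω _
      funext i
      fin_cases i <;> rfl
    · intro z _
      rfl
    · intro ω _
      rw [Fin.prod_univ_four]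
      ring
  have e1 : ∑ a ∈ V 0, ∑ b ∈ V 1, w 0 a * w 1 b * X a b =
      ∑ p ∈ V 0 ×ˢ V 1, w 0 p.1 * w 1 p.2 * X p.1 p.2 :=
    (Finset.sum_product (V 0) (V 1) (fun p => w 0 p.1 * w 1 p.2 * X p.1 p.2)).symm
  have e2 : ∑ a ∈ V 2, ∑ b ∈ V 3, w 2 a * w 3 b * Y a b =
      ∑ p ∈ V 2 ×ˢ V 3, w 2 p.1 * w 3 p.2 * Y p.1 p.2 :=
    (Finset.sum_product (V 2) (V 3) (fun p => w 2 p.1 * w 3 p.2 * Y p.1 p.2)).symm
  rw [h1, e1, e2, Finset.sum_mul_sum, Finset.sum_product]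

open Classical in
/-- the proportion of the good pairs -/
noncomputable def pr (V : Fin 4 → Finset (ℤ × ℤ)) (i j : Fin 4) : ℝ :=
  ∑ v ∈ V i, ∑ v' ∈ V j, 1 / ((V i).card : ℝ) * (1 / ((V j).card : ℝ)) *
    (if PairBig v v' then 1 else 0)

theorem pr_symm (V : Fin 4 → Finset (ℤ × ℤ)) (i j : Fin 4) : pr V i j = pr V j i := by
  classical
  unfold pr
  rw [Finset.sum_comm]
  refine Finset.sum_congr rfl fun v _ => Finset.sum_congr rfl fun v' _ => ?_
  by_cases h : PairBig v' v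
  · rw [if_pos h, if_pos h.symm]
    ring
  · rw [if_neg h, if_neg (fun h' => h h'.symm)]
    ring

open Classical in
/-- the trade-off inequality for four sets of forms -/
theorem four_prod : ∃ C δ : ℝ, 0 < C ∧ 0 < δ ∧ ∀ N : ℕ, 1 ≤ N →
    ∀ V : Fin 4 → Finset (ℤ × ℤ),
    (∀ i, ∀ f ∈ V i, 0 < f.1) → (∀ i, N ≤ (V i).card) → (∀ f ∈ Fintype.piFinset V, Adm f) →
    (1 - pr V 0 1) * (1 - pr V 2 3) ≤ pr V 0 2 + pr V 0 3 + pr V 1 2 + pr V 1 3 +
      C * (N : ℝ) ^ (-δ) := by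
  obtain ⟨C, δ, hC, hδ, hδ1, H⟩ := almost_all_pow 4 TwoHit Big hitP_four
  refine ⟨C, δ, hC, hδ, ?_⟩
  intro N hN V hpos hcard hadm
  have hV : ∀ k, (0 : ℝ) < (V k).card := by
    intro k
    have := hcard k
    exact_mod_cast (by omega : 0 < (V k).card)
  obtain ⟨w, hw⟩ : ∃ w : Fin 4 → ℤ × ℤ → ℝ, ∀ k x, w k x = 1 / ((V k).card : ℝ) :=
    ⟨fun k _ => 1 / ((V k).card : ℝ), fun _ _ => rfl⟩
  have hw1 : ∀ k, ∑ x ∈ V k, w k x = 1 := by
    intro k
    rw [Finset.sum_congr rfl (fun x _ => hw k x), Finset.sum_const, nsmul_eq_mul]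
    exact mul_one_div_cancel (hV k).ne'
  obtain ⟨Ex, hEx⟩ : ∃ Ex : Finset (Fin 4 → ℤ × ℤ), Ex = (Fintype.piFinset V).filter
    (fun f => Adm f ∧ ¬ ∃ S : Finset (Fin 4), TwoHit S ∧ SimP Big f S) := ⟨_, rfl⟩
  have hH := H N hN V hpos hcard
  rw [← hEx] at hH
  have hprod : ∀ ω : Fin 4 → ℤ × ℤ, ∏ k, w k (ω k) = 1 / ∏ k, ((V k).card : ℝ) := by
    intro ω
    rw [Finset.prod_congr rfl (fun k _ => hw k (ω k)), Finset.prod_div_distrib, Finset.prod_const_one]
  have hPpos : (0 : ℝ) < ∏ k, ((V k).card : ℝ) := Finset.prod_pos fun k _ => hV k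
  obtain ⟨g, hg⟩ : ∃ g : ℤ × ℤ → ℤ × ℤ → ℝ, ∀ a b, g a b = if PairBig a b then 1 else 0 :=
    ⟨fun a b => if PairBig a b then 1 else 0, fun _ _ => rfl⟩
  have hg01 : ∀ a b, g a b = 0 ∨ g a b = 1 := by
    intro a b
    rw [hg]
    by_cases h : PairBig a b
    · right; rw [if_pos h]
    · left; rw [if_neg h]
  have hprg : ∀ i j, pr V i j = ∑ v ∈ V i, ∑ v' ∈ V j, w i v * w j v' * g v v' := by
    intro i j
    unfold pr
    refine Finset.sum_congr rfl fun v _ => Finset.sum_congr rfl fun v' _ => ?_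
    rw [hw, hw, hg]
  have hpoint : ∀ ω ∈ Fintype.piFinset V,
      (∏ k, w k (ω k)) * ((1 - g (ω 0) (ω 1)) * (1 - g (ω 2) (ω 3))) ≤
      (∏ k, w k (ω k)) * (if ω ∈ Ex then 1 else 0) + ((∏ k, w k (ω k)) * g (ω 0) (ω 2) +
        (∏ k, w k (ω k)) * g (ω 0) (ω 3) + (∏ k, w k (ω k)) * g (ω 1) (ω 2) +
        (∏ k, w k (ω k)) * g (ω 1) (ω 3)) := by
    intro ω hω
    have h0 : 0 ≤ ∏ k, w k (ω k) := Finset.prod_nonneg fun k _ => by
      rw [hw]
      exact (one_div_pos.2 (hV k)).le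
    have key : (1 - g (ω 0) (ω 1)) * (1 - g (ω 2) (ω 3)) ≤ (if ω ∈ Ex then (1 : ℝ) else 0) +
        (g (ω 0) (ω 2) + g (ω 0) (ω 3) + g (ω 1) (ω 2) + g (ω 1) (ω 3)) := by
      have hnn : ∀ a b, 0 ≤ g a b := by
        intro a b
        rcases hg01 a b with h | h <;> rw [h]
        exact zero_le_one
      have hn1 := hnn (ω 0) (ω 2)
      have hn2 := hnn (ω 0) (ω 3)
      have hn3 := hnn (ω 1) (ω 2)
      have hn4 := hnn (ω 1) (ω 3)
      by_cases hE : ω ∈ Ex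
      · rw [if_pos hE]
        rcases hg01 (ω 0) (ω 1) with h | h <;> rcases hg01 (ω 2) (ω 3) with h' | h' <;>
          rw [h, h'] <;> linarith
      · rw [if_neg hE]
        rw [hEx, Finset.mem_filter] at hE
        push Not at hE
        obtain ⟨S, hS, hsim⟩ := hE hω (hadm ω hω)
        have hS' : 1 < S.card := hS
        obtain ⟨i, hi, j, hj, hij⟩ := Finset.one_lt_card.1 hS'
        have hkey : ∀ i j : Fin 4, i ∈ S → j ∈ S → g (ω i) (ω j) = 1 := by
          intro i j hi hj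
          rw [hg, if_pos]
          refine Pool.Agent.H732R3.BigQ.Big.mono ?_ hsim
          intro n hn
          exact ⟨hn i hi, hn j hj⟩
        -- the six cases
        have hall : g (ω 0) (ω 1) = 1 ∨ g (ω 2) (ω 3) = 1 ∨ g (ω 0) (ω 2) = 1 ∨
            g (ω 0) (ω 3) = 1 ∨ g (ω 1) (ω 2) = 1 ∨ g (ω 1) (ω 3) = 1 := by
          have hgen : ∀ i j : Fin 4, i ≠ j → i ∈ S → j ∈ S → g (ω 0) (ω 1) = 1 ∨
              g (ω 2) (ω 3) = 1 ∨ g (ω 0) (ω 2) = 1 ∨
              g (ω 0) (ω 3) = 1 ∨ g (ω 1) (ω 2) = 1 ∨ g (ω 1) (ω 3) = 1 := by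
            intro i j hne hi hj
            fin_cases i <;> fin_cases j
            · exact absurd rfl hne
            · exact Or.inl (hkey 0 1 hi hj)
            · exact Or.inr (Or.inr (Or.inl (hkey 0 2 hi hj)))
            · exact Or.inr (Or.inr (Or.inr (Or.inl (hkey 0 3 hi hj))))
            · exact Or.inl (hkey 0 1 hj hi)
            · exact absurd rfl hne
            · exact Or.inr (Or.inr (Or.inr (Or.inr (Or.inl (hkey 1 2 hi hj)))))
            · exact Or.inr (Or.inr (Or.inr (Or.inr (Or.inr (hkey 1 3 hi hj)))))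
            · exact Or.inr (Or.inr (Or.inl (hkey 0 2 hj hi)))
            · exact Or.inr (Or.inr (Or.inr (Or.inr (Or.inl (hkey 1 2 hj hi)))))
            · exact absurd rfl hne
            · exact Or.inr (Or.inl (hkey 2 3 hi hj))
            · exact Or.inr (Or.inr (Or.inr (Or.inl (hkey 0 3 hj hi))))
            · exact Or.inr (Or.inr (Or.inr (Or.inr (Or.inr (hkey 1 3 hj hi)))))
            · exact Or.inr (Or.inl (hkey 2 3 hj hi))
            · exact absurd rfl hne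
          exact hgen i j hij hi hj
        rcases hg01 (ω 0) (ω 1) with h | h <;> rcases hg01 (ω 2) (ω 3) with h' | h'
        · rw [h, h'] at hall ⊢
          rcases hall with h1 | h1 | h1 | h1 | h1 | h1
          · norm_num at h1
          · norm_num at h1
          all_goals (rw [h1]; linarith)
        all_goals (rw [h, h']; linarith)
    calc (∏ k, w k (ω k)) * ((1 - g (ω 0) (ω 1)) * (1 - g (ω 2) (ω 3))) ≤
        (∏ k, w k (ω k)) * ((if ω ∈ Ex then (1 : ℝ) else 0) +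
        (g (ω 0) (ω 2) + g (ω 0) (ω 3) + g (ω 1) (ω 2) + g (ω 1) (ω 3))) :=
          mul_le_mul_of_nonneg_left key h0
      _ = _ := by ring
  have hsum := Finset.sum_le_sum hpoint
  have hex : ∑ ω ∈ Fintype.piFinset V, (∏ k, w k (ω k)) * (if ω ∈ Ex then (1 : ℝ) else 0) ≤
      C * (N : ℝ) ^ (-δ) := by
    have h1 : ∑ ω ∈ Fintype.piFinset V, (∏ k, w k (ω k)) * (if ω ∈ Ex then (1 : ℝ) else 0) =
        (1 / ∏ k, ((V k).card : ℝ)) * (Ex.card : ℝ) := by
      have h2 : ∀ ω ∈ Fintype.piFinset V, (∏ k, w k (ω k)) * (if ω ∈ Ex then (1 : ℝ) else 0) =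
          (1 / ∏ k, ((V k).card : ℝ)) * (if ω ∈ Ex then (1 : ℝ) else 0) := by
        intro ω _
        rw [hprod]
      rw [Finset.sum_congr rfl h2, ← Finset.mul_sum, Finset.sum_boole]
      congr 2
      have h3 : (Fintype.piFinset V).filter (fun ω => ω ∈ Ex) = Ex := by
        ext ω
        rw [Finset.mem_filter]
        refine ⟨fun h => h.2, fun h => ⟨?_, h⟩⟩
        rw [hEx, Finset.mem_filter] at h
        exact h.1
      rw [h3]
    rw [h1, one_div, inv_mul_le_iff₀ hPpos, mul_comm]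
    exact hH
  have hmarg : ∀ i j : Fin 4, i ≠ j → ∑ ω ∈ Fintype.piFinset V, (∏ k, w k (ω k)) * g (ω i) (ω j) =
      pr V i j := by
    intro i j hij
    rw [pair_marginal V w hw1 i j hij g, hprg]
  have hone : ∀ i j : Fin 4, ∑ a ∈ V i, ∑ b ∈ V j, w i a * w j b * (1 - g a b) = 1 - pr V i j := by
    intro i j
    have h1 : ∀ a ∈ V i, ∀ b ∈ V j, w i a * w j b * (1 - g a b) =
        w i a * w j b - w i a * w j b * g a b := fun a _ b _ => by ring
    rw [Finset.sum_congr rfl (fun a ha => Finset.sum_congr rfl (h1 a ha))]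
    rw [hprg]
    simp only [Finset.sum_sub_distrib]
    congr 1
    rw [← Finset.sum_mul_sum, hw1, hw1, one_mul]
  rw [indep_four V w (fun a b => 1 - g a b) (fun a b => 1 - g a b), hone, hone] at hsum
  rw [Finset.sum_add_distrib, Finset.sum_add_distrib, Finset.sum_add_distrib,
    Finset.sum_add_distrib, hmarg 0 2 (by decide), hmarg 0 3 (by decide), hmarg 1 2 (by decide),
    hmarg 1 3 (by decide)] at hsum
  linarith

end Pool.Agent.Y863.TP
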