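import Pool.Agent.Y863.TP.Trade

/-! The trade-off between the densities of good constants for the quotients of a chain of slopes. -/

set_option autoImplicit false

namespace Pool.Agent.Y863.TP

open Finset Filter
open Pool.Agent.H732R3.BigQ
open Pool.Agent.TH899.UG
open Pool.Agent.H362R2.CM

theorem rho_le1 (P : ℕ) (hP : 0 < P) (v : ℤ) (D : ℕ) (c : ℤ) (A : ℕ) (hA : 0 < A) :
    rho P v D c A ≤ 1 + (P : ℝ) / A := by
  classical
  have hA0 : (0 : ℝ) < A := by exact_mod_cast hA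
  have hP0 : (0 : ℝ) < P := by exact_mod_cast hP
  have h1 : (cnt P v D c A : ℝ) ≤ (A : ℝ) / P + 1 := by
    refine le_trans ?_ (card_Cl P hP v c A).2
    unfold cnt Cl
    rw [Nat.cast_le]
    refine Finset.card_le_card ?_
    intro a ha
    rw [Finset.mem_filter] at ha ⊢
    exact ⟨ha.1, ha.2.1⟩
  unfold rho
  rw [div_le_iff₀ hA0]
  calc (P : ℝ) * (cnt P v D c A : ℝ) ≤ P * ((A : ℝ) / P + 1) := mul_le_mul_of_nonneg_left h1 hP0.le
    _ = A + P := by field_simp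
    _ = (1 + (P : ℝ) / A) * A := by field_simp

/-- the density attached to two classes -/
noncomputable def rhoS (E : Fin 4 → ℕ) (P : ℕ) (u : Fin 4 → ℤ) (c : ℤ) (A : ℕ) (i j : Fin 4) : ℝ :=
  rho P (u (max i j) - (E (max i j) / E (min i j) : ℕ) * u (min i j)) (E (max i j) / E (min i j)) c A

theorem rhoS_symm (E : Fin 4 → ℕ) (P : ℕ) (u : Fin 4 → ℤ) (c : ℤ) (A : ℕ) (i j : Fin 4) :
    rhoS E P u c A i j = rhoS E P u c A j i := by
  unfold rhoS
  rw [max_comm, min_comm]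

theorem pr_nonneg (V : Fin 4 → Finset (ℤ × ℤ)) (i j : Fin 4) : 0 ≤ pr V i j := by
  classical
  unfold pr
  refine Finset.sum_nonneg fun v _ => Finset.sum_nonneg fun v' _ => ?_
  refine mul_nonneg (by positivity) ?_
  by_cases h : PairBig v v'
  · rw [if_pos h]; exact zero_le_one
  · rw [if_neg h]

theorem pr_le_one (V : Fin 4 → Finset (ℤ × ℤ)) (i j : Fin 4) : pr V i j ≤ 1 := by
  classical
  unfold pr
  have h1 : ∀ v ∈ V i, ∀ v' ∈ V j, 1 / ((V i).card : ℝ) * (1 / ((V j).card : ℝ)) *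
      (if PairBig v v' then (1 : ℝ) else 0) ≤ 1 / ((V i).card : ℝ) * (1 / ((V j).card : ℝ)) := by
    intro v _ v' _
    refine mul_le_of_le_one_right (by positivity) ?_
    by_cases h : PairBig v v'
    · rw [if_pos h]
    · rw [if_neg h]; exact zero_le_one
  refine (Finset.sum_le_sum fun v hv => Finset.sum_le_sum (h1 v hv)).trans ?_
  simp only [Finset.sum_const, nsmul_eq_mul]
  have h2 : ∀ n : ℕ, (n : ℝ) * (1 / (n : ℝ)) ≤ 1 := by
    intro n
    rcases Nat.eq_zero_or_pos n with h | h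
    · subst h; simp
    · have : (n : ℝ) ≠ 0 := by exact_mod_cast h.ne'
      rw [mul_one_div_cancel this]
  have h3 : (0 : ℝ) ≤ ((V j).card : ℝ) * (1 / ((V j).card : ℝ)) := by positivity
  calc ((V i).card : ℝ) * (((V j).card : ℝ) * (1 / ((V i).card : ℝ) * (1 / ((V j).card : ℝ)))) =
      (((V i).card : ℝ) * (1 / ((V i).card : ℝ))) * (((V j).card : ℝ) * (1 / ((V j).card : ℝ))) := by
        ring
    _ ≤ 1 * 1 := mul_le_mul (h2 _) (h2 _) h3 zero_le_one
    _ = 1 := one_mul 1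

theorem arith_trade (a b p q η : ℝ) (hη : 0 < η) (hη1 : η ≤ 1) (ha : a ≤ 1 + η) (hb : b ≤ 1 + η)
    (hp0 : 0 ≤ p) (hq0 : 0 ≤ q) (hp1 : p ≤ 1) (hq1 : q ≤ 1) (hpa : p ≤ a + 2 * η)
    (hqb : q ≤ b + 2 * η) : (1 - a) * (1 - b) ≤ (1 - p) * (1 - q) + 8 * η := by
  have h0 : 0 ≤ (1 - p) * (1 - q) := mul_nonneg (by linarith) (by linarith)
  rcases le_or_gt a 1 with h1 | h1
  · rcases le_or_gt b 1 with h2 | h2
    · have h3 : (1 - a) * (1 - b) ≤ (1 - p + 2 * η) * (1 - q + 2 * η) :=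
        mul_le_mul (by linarith) (by linarith) (by linarith) (by linarith)
      nlinarith
    · have : (1 - a) * (1 - b) ≤ 0 := mul_nonpos_of_nonneg_of_nonpos (by linarith) (by linarith)
      linarith
  · rcases le_or_gt b 1 with h2 | h2
    · have : (1 - a) * (1 - b) ≤ 0 := mul_nonpos_of_nonpos_of_nonneg (by linarith) (by linarith)
      linarith
    · have : (1 - a) * (1 - b) ≤ η * η := by
        have e : (1 - a) * (1 - b) = (a - 1) * (b - 1) := by ring
        rw [e]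
        exact mul_le_mul (by linarith) (by linarith) (by linarith) hη.le
      nlinarith

/-- the trade-off between the densities -/
theorem trade (E : Fin 4 → ℕ) (hE : ∀ i, 0 < E i) (hdvd : ∀ i j, i ≤ j → E i ∣ E j) (P : ℕ)
    (hP : 0 < P) (h6 : 6 ∣ P) (hEP : ∀ p : ℕ, p.Prime → ∀ i, p ∣ E i → p ∣ P) (u : Fin 4 → ℤ)
    (hu : ∀ i, Int.gcd (u i) P = 1) (σ : Equiv.Perm (Fin 4)) (ε : ℝ) (hε : 0 < ε) :
    ∃ L : ℕ, ∀ A : ℕ, L ≤ A → ∀ c : ℤ,
      (1 - rhoS E P u c A (σ 0) (σ 1)) * (1 - rhoS E P u c A (σ 2) (σ 3)) ≤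
      rhoS E P u c A (σ 0) (σ 2) + rhoS E P u c A (σ 0) (σ 3) + rhoS E P u c A (σ 1) (σ 2) +
        rhoS E P u c A (σ 1) (σ 3) + ε := by
  classical
  by_contra hcon
  push Not at hcon
  choose A hA c hc using hcon
  obtain ⟨η, hη⟩ : ∃ η : ℝ, η = min ε 1 / 32 := ⟨_, rfl⟩
  have hmin : 0 < min ε 1 := lt_min hε one_pos
  have hη0 : 0 < η := by rw [hη]; linarith
  have hη1 : η ≤ 1 := by
    have : min ε 1 ≤ 1 := min_le_right _ _
    rw [hη]; linarith
  have hηε : 32 * η ≤ ε := by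
    have : min ε 1 ≤ ε := min_le_left _ _
    rw [hη]; linarith
  obtain ⟨R, hR⟩ : ∃ R : ℕ → Fin 4 × Fin 4 → ℝ, ∀ k x, R k x = rhoS E P u (c k) (A k) x.1 x.2 :=
    ⟨fun k x => rhoS E P u (c k) (A k) x.1 x.2, fun _ _ => rfl⟩
  obtain ⟨S, hS1, hS2⟩ := coarse R P η hη0
    (fun k x => by rw [hR]; exact rho_nonneg _ _ _ _ _)
    (fun k x hk => by rw [hR]; exact rho_le P hP _ _ _ _ (hk.trans (hA k)))
  choose f hfS hf using hS1
  obtain ⟨C, δ, hC, hδ, H4⟩ := four_prod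
  obtain ⟨N, hN1, hN⟩ := small_pow C δ (ε / 4) hδ (by linarith)
  obtain ⟨Z, hZ⟩ : ∃ Z : ℕ, ((E 3 : ℝ) + 2) * (2 * P / η) ≤ Z := exists_nat_ge _
  obtain ⟨Y, hY⟩ : ∃ Y : ℕ, (P : ℝ) / η ≤ Y := exists_nat_ge _
  obtain ⟨q, hq0, hqs⟩ : ∃ q : ℕ → ℕ, q 0 = f (P * (N + 1) + Y) ∧ ∀ j, q (j + 1) =
      f (Z * ((c (q j)).natAbs + A (q j) + 1) + P + q j) :=
    ⟨fun m => Nat.rec (f (P * (N + 1) + Y)) (fun _ k => f (Z * ((c k).natAbs + A k + 1) + P + k)) m,
      rfl, fun _ => rfl⟩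
  have hqS : ∀ j, q j ∈ S := by
    intro j
    cases j with
    | zero => rw [hq0]; exact hfS _
    | succ j => rw [hqs]; exact hfS _
  have hqm : Monotone q := monotone_nat_of_le_succ fun j => by
    have := hf (Z * ((c (q j)).natAbs + A (q j) + 1) + P + q j)
    rw [hqs]
    omega
  have hqstep : ∀ i j : ℕ, i < j → Z * ((c (q i)).natAbs + A (q i) + 1) + P ≤ A (q j) := by
    intro i j hij
    have h1 := hf (Z * ((c (q i)).natAbs + A (q i) + 1) + P + q i)
    rw [← hqs] at h1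
    have h2 : q (i + 1) ≤ q j := hqm (Nat.succ_le_of_lt hij)
    have h3 := hA (q j)
    omega
  have hq00 : ∀ j, P * (N + 1) + Y ≤ A (q j) := by
    intro j
    have h1 := hf (P * (N + 1) + Y)
    rw [← hq0] at h1
    have h2 : q 0 ≤ q j := hqm (Nat.zero_le _)
    have h3 := hA (q j)
    omega
  have hP0 : (0 : ℝ) < P := by exact_mod_cast hP
  obtain ⟨V, hV⟩ : ∃ V : Fin 4 → Finset (ℤ × ℤ), ∀ j, V j = VV P (E j) (u j) (c (q j)) (A (q j)) :=
    ⟨fun j => VV P (E j) (u j) (c (q j)) (A (q j)), fun _ => rfl⟩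
  have hcardV : ∀ j : Fin 4, N ≤ (V j).card := by
    intro j
    rw [hV, card_VV]
    have h1 := (card_Cl P hP (u j) (c (q j)) (A (q j))).1
    have h2' := hq00 j
    have h2 : ((P * (N + 1) : ℕ) : ℝ) ≤ (A (q j) : ℝ) := by
      exact_mod_cast (by omega : P * (N + 1) ≤ A (q j))
    have h3 : (N : ℝ) + 1 ≤ (A (q j) : ℝ) / P := by
      rw [le_div_iff₀ hP0]
      push_cast at h2
      linarith
    have h4 : (N : ℝ) ≤ ((Cl P (u j) (c (q j)) (A (q j))).card : ℝ) := by linarith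
    exact_mod_cast h4
  have hVpos : ∀ i, ∀ v ∈ V i, 0 < v.1 := by
    intro j v hv
    rw [hV] at hv
    unfold VV at hv
    obtain ⟨b, _, rfl⟩ := Finset.mem_image.1 hv
    show (0 : ℤ) < ((P * E j : ℕ) : ℤ)
    exact_mod_cast Nat.mul_pos hP (hE j)
  have hVform : ∀ i, ∀ v ∈ V i, v.1 = ((P * E i : ℕ) : ℤ) ∧ (P : ℤ) ∣ v.2 - u i := by
    intro i v hv
    rw [hV] at hv
    unfold VV at hv
    obtain ⟨b, hb, rfl⟩ := Finset.mem_image.1 hv
    unfold Cl at hb
    exact ⟨rfl, (Finset.mem_filter.1 hb).2⟩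
  -- the permuted classes
  have hmain := H4 N hN1 (fun j => V (σ j)) (fun i => hVpos (σ i)) (fun i => hcardV (σ i))
    (by
      intro v hv
      rw [Fintype.mem_piFinset] at hv
      have h1 : Adm (fun i => v (σ.symm i)) := by
        refine adm_class E P h6 hEP u hu (fun i => v (σ.symm i)) (fun i => ?_)
        have h2 := hv (σ.symm i)
        rw [Equiv.apply_symm_apply] at h2
        exact hVform i _ h2
      intro p hp
      obtain ⟨n, hn⟩ := h1 p hp
      refine ⟨n, fun i => ?_⟩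
      have h3 := hn (σ i)
      simp only [Equiv.symm_apply_apply] at h3
      exact h3)
  have hprσ : ∀ i j, pr (fun j => V (σ j)) i j = pr V (σ i) (σ j) := fun _ _ => rfl
  rw [hprσ, hprσ, hprσ, hprσ, hprσ, hprσ] at hmain
  -- pairs of classes
  have hlt : ∀ i j : Fin 4, i < j → pr V i j ≤ R (q 3) (i, j) + 2 * η := by
    intro i j hij
    have h1 := prob_pair P hP (E i) (E j) (hE _) (hE _) (hdvd _ _ hij.le) (u i) (u j)
      (c (q i)) (c (q j)) (A (q i)) (A (q j)) η hη0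
      (by have := hcardV i; rw [← hV]; omega)
      (by
        have h2 := hqstep i j hij
        have h3 : ((Z * ((c (q i)).natAbs + A (q i) + 1) + P : ℕ) : ℝ) ≤ (A (q j) : ℝ) := by
          exact_mod_cast h2
        push_cast at h3
        have h4 : (E j : ℝ) ≤ E 3 := by
          have h5 : j ≤ 3 := Fin.le_last _
          exact_mod_cast Nat.le_of_dvd (hE 3) (hdvd j 3 h5)
        have h5 : (0 : ℝ) ≤ 2 * P / η := by positivity
        have h6 : ((E j : ℝ) + 2) * (2 * P / η) ≤ Z :=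
          le_trans (mul_le_mul_of_nonneg_right (by linarith) h5) hZ
        have h7 : (0 : ℝ) ≤ ((c (q i)).natAbs : ℝ) + A (q i) + 1 := by positivity
        have h8 := mul_le_mul_of_nonneg_right h6 h7
        linarith)
    rw [← hV, ← hV] at h1
    have h2 := hS2 (q j) (hqS _) (q 3) (hqS _) (i, j)
    have h3 : R (q j) (i, j) = rho P (u j - (E j / E i : ℕ) * u i) (E j / E i) (c (q j)) (A (q j)) := by
      rw [hR]
      show rhoS E P u (c (q j)) (A (q j)) i j = _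
      unfold rhoS
      rw [max_eq_right hij.le, min_eq_left hij.le]
    rw [← h3] at h1
    unfold pr
    linarith
  have hRs : ∀ i j, R (q 3) (i, j) = R (q 3) (j, i) := by
    intro i j
    rw [hR, hR]
    exact rhoS_symm _ _ _ _ _ _ _
  have hne : ∀ i j : Fin 4, i ≠ j → pr V i j ≤ R (q 3) (i, j) + 2 * η := by
    intro i j hij
    rcases lt_or_gt_of_ne hij with h | h
    · exact hlt i j h
    · rw [pr_symm, hRs]
      exact hlt j i h
  have hR1 : ∀ x, R (q 3) x ≤ 1 + η := by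
    intro x
    have h1 := hq00 3
    have h2 : (Y : ℝ) ≤ A (q 3) := by exact_mod_cast (by omega : Y ≤ A (q 3))
    have hA3 : 0 < A (q 3) := by
      have : 0 < P * (N + 1) := Nat.mul_pos hP (Nat.succ_pos _)
      omega
    have hA3' : (0 : ℝ) < A (q 3) := by exact_mod_cast hA3
    rw [hR]
    refine (rho_le1 P hP _ _ _ _ hA3).trans ?_
    have h3 : (P : ℝ) / A (q 3) ≤ η := by
      rw [div_le_iff₀ hA3']
      have h4 := hY.trans h2
      rw [div_le_iff₀ hη0] at h4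
      linarith
    linarith
  have hinj : ∀ i j : Fin 4, i ≠ j → σ i ≠ σ j := fun i j h h' => h (σ.injective h')
  have h1 := arith_trade (R (q 3) (σ 0, σ 1)) (R (q 3) (σ 2, σ 3)) (pr V (σ 0) (σ 1))
    (pr V (σ 2) (σ 3)) η hη0 hη1 (hR1 _) (hR1 _) (pr_nonneg _ _ _) (pr_nonneg _ _ _)
    (pr_le_one _ _ _) (pr_le_one _ _ _) (hne _ _ (hinj 0 1 (by decide)))
    (hne _ _ (hinj 2 3 (by decide)))
  have h2 := hne _ _ (hinj 0 2 (by decide))
  have h3 := hne _ _ (hinj 0 3 (by decide))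
  have h4 := hne _ _ (hinj 1 2 (by decide))
  have h5 := hne _ _ (hinj 1 3 (by decide))
  have h6 := hc (q 3)
  rw [← hR (q 3) (σ 0, σ 1), ← hR (q 3) (σ 2, σ 3), ← hR (q 3) (σ 0, σ 2), ← hR (q 3) (σ 0, σ 3),
    ← hR (q 3) (σ 1, σ 2), ← hR (q 3) (σ 1, σ 3)] at h6
  linarith

end Pool.Agent.Y863.TP
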